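import Mathlib

/-!
Base file for MP_5b0587_nt: p-integral rationals, congruences modulo powers of p,
one-units with their first-order logarithm, rising factorials and hypergeometric terms.
-/

namespace Pool.Agent.SC

open Finset

/-- The ring of rationals whose denominator is coprime to `p`. -/
def O (p : ℕ) : Subring ℚ where
  carrier := {x | x.den.Coprime p}
  mul_mem' := by
    intro a b ha hb
    exact Nat.Coprime.coprime_dvd_left (Rat.mul_den_dvd a b) (Nat.Coprime.mul_left ha hb)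
  one_mem' := by simp
  add_mem' := by
    intro a b ha hb
    exact Nat.Coprime.coprime_dvd_left (Rat.add_den_dvd a b) (Nat.Coprime.mul_left ha hb)
  zero_mem' := by simp
  neg_mem' := by
    intro a ha
    simpa using ha

/-- Congruence modulo `p ^ n` in the ring of `p`-integral rationals. -/
def cg (p n : ℕ) (x y : ℚ) : Prop := ∃ w ∈ O p, x - y = (p : ℚ) ^ n * w

/-- `u` is a unit of the ring of `p`-integral rationals. -/
def IsU (p : ℕ) (u : ℚ) : Prop := u ∈ O p ∧ u⁻¹ ∈ O p ∧ u ≠ 0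

variable {p : ℕ}

theorem mem_O_iff {x : ℚ} : x ∈ O p ↔ x.den.Coprime p := Iff.rfl

theorem natCast_mem (n : ℕ) : (n : ℚ) ∈ O p := _root_.natCast_mem (O p) n

theorem intCast_mem (n : ℤ) : (n : ℚ) ∈ O p := _root_.intCast_mem (O p) n

theorem ofNat_mem' (n : ℕ) [n.AtLeastTwo] : (OfNat.ofNat n : ℚ) ∈ O p := ofNat_mem _ n

theorem inv_natCast_mem {n : ℕ} (h : n.Coprime p) : ((n : ℚ))⁻¹ ∈ O p := by
  rcases Nat.eq_zero_or_pos n with h0 | h0
  · subst h0; simp
  · rw [mem_O_iff, Rat.inv_natCast_den_of_pos h0]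
    exact h

theorem isU_natCast {n : ℕ} (h : n.Coprime p) (hn : n ≠ 0) : IsU p (n : ℚ) :=
  ⟨natCast_mem n, inv_natCast_mem h, by exact_mod_cast hn⟩

theorem inv_intCast_mem {n : ℤ} (h : IsCoprime n (p : ℤ)) : ((n : ℚ))⁻¹ ∈ O p := by
  rcases Int.natAbs_eq n with h0 | h0
  · rw [h0]
    have : n.natAbs.Coprime p := by
      have := Int.isCoprime_iff_gcd_eq_one.mp h
      simpa [Int.gcd] using this
    simpa using inv_natCast_mem (p := p) this
  · rw [h0]
    have : n.natAbs.Coprime p := by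
      have := Int.isCoprime_iff_gcd_eq_one.mp h
      simpa [Int.gcd] using this
    have h2 := inv_natCast_mem (p := p) this
    have h3 := (O p).neg_mem h2
    rw [Int.cast_neg, inv_neg, Int.cast_natCast]
    exact h3

theorem IsU.mul {u v : ℚ} (hu : IsU p u) (hv : IsU p v) : IsU p (u * v) :=
  ⟨(O p).mul_mem hu.1 hv.1, by rw [mul_inv]; exact (O p).mul_mem hu.2.1 hv.2.1,
    mul_ne_zero hu.2.2 hv.2.2⟩

theorem IsU.inv {u : ℚ} (hu : IsU p u) : IsU p u⁻¹ :=
  ⟨hu.2.1, by rw [inv_inv]; exact hu.1, inv_ne_zero hu.2.2⟩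

theorem IsU.neg {u : ℚ} (hu : IsU p u) : IsU p (-u) :=
  ⟨(O p).neg_mem hu.1, by rw [inv_neg]; exact (O p).neg_mem hu.2.1, neg_ne_zero.mpr hu.2.2⟩

theorem isU_one : IsU p (1 : ℚ) := ⟨(O p).one_mem, by simp [(O p).one_mem], one_ne_zero⟩

theorem IsU.pow {u : ℚ} (hu : IsU p u) (n : ℕ) : IsU p (u ^ n) := by
  induction n with
  | zero => simpa using isU_one
  | succ n ih => rw [pow_succ]; exact ih.mul hu

theorem IsU.div {u v : ℚ} (hu : IsU p u) (hv : IsU p v) : IsU p (u / v) := by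
  rw [div_eq_mul_inv]; exact hu.mul hv.inv

theorem IsU.prod {ι : Type*} {s : Finset ι} {f : ι → ℚ} (h : ∀ i ∈ s, IsU p (f i)) :
    IsU p (∏ i ∈ s, f i) := by
  classical
  induction s using Finset.induction_on with
  | empty => simpa using isU_one
  | insert a s ha ih =>
    rw [prod_insert ha]
    exact (h a (mem_insert_self a s)).mul (ih fun i hi => h i (mem_insert_of_mem hi))

theorem div_mem {x u : ℚ} (hx : x ∈ O p) (hu : IsU p u) : x / u ∈ O p := by
  rw [div_eq_mul_inv]; exact (O p).mul_mem hx hu.2.1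

/-! ### congruences -/

theorem cg.refl {n : ℕ} (x : ℚ) : cg p n x x := ⟨0, (O p).zero_mem, by simp⟩

theorem cg.of_eq {n : ℕ} {x y : ℚ} (h : x = y) : cg p n x y := h ▸ cg.refl x

theorem cg.symm {n : ℕ} {x y : ℚ} (h : cg p n x y) : cg p n y x := by
  obtain ⟨w, hw, e⟩ := h
  exact ⟨-w, (O p).neg_mem hw, by linear_combination -e⟩

theorem cg.trans {n : ℕ} {x y z : ℚ} (h : cg p n x y) (h' : cg p n y z) : cg p n x z := by
  obtain ⟨w, hw, e⟩ := h
  obtain ⟨w', hw', e'⟩ := h'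
  exact ⟨w + w', (O p).add_mem hw hw', by linear_combination e + e'⟩

theorem cg.add {n : ℕ} {x y x' y' : ℚ} (h : cg p n x y) (h' : cg p n x' y') :
    cg p n (x + x') (y + y') := by
  obtain ⟨w, hw, e⟩ := h
  obtain ⟨w', hw', e'⟩ := h'
  exact ⟨w + w', (O p).add_mem hw hw', by linear_combination e + e'⟩

theorem cg.neg {n : ℕ} {x y : ℚ} (h : cg p n x y) : cg p n (-x) (-y) := by
  obtain ⟨w, hw, e⟩ := h
  exact ⟨-w, (O p).neg_mem hw, by linear_combination -e⟩

theorem cg.sub {n : ℕ} {x y x' y' : ℚ} (h : cg p n x y) (h' : cg p n x' y') :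
    cg p n (x - x') (y - y') := by
  rw [sub_eq_add_neg, sub_eq_add_neg]; exact h.add h'.neg

theorem cg.const_mul {n : ℕ} {x y c : ℚ} (hc : c ∈ O p) (h : cg p n x y) :
    cg p n (c * x) (c * y) := by
  obtain ⟨w, hw, e⟩ := h
  exact ⟨c * w, (O p).mul_mem hc hw, by linear_combination c * e⟩

theorem cg.mul_const {n : ℕ} {x y c : ℚ} (hc : c ∈ O p) (h : cg p n x y) :
    cg p n (x * c) (y * c) := by
  rw [mul_comm x, mul_comm y]; exact h.const_mul hc

theorem cg.mul {n : ℕ} {x y x' y' : ℚ} (hx : x' ∈ O p) (hy : y ∈ O p)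
    (h : cg p n x y) (h' : cg p n x' y') : cg p n (x * x') (y * y') :=
  (h.mul_const hx).trans (h'.const_mul hy)

theorem cg.sum {n : ℕ} {ι : Type*} {s : Finset ι} {f g : ι → ℚ}
    (h : ∀ i ∈ s, cg p n (f i) (g i)) : cg p n (∑ i ∈ s, f i) (∑ i ∈ s, g i) := by
  classical
  induction s using Finset.induction_on with
  | empty => simpa using cg.refl 0
  | insert a s ha ih =>
    rw [sum_insert ha, sum_insert ha]
    exact (h a (mem_insert_self a s)).add (ih fun i hi => h i (mem_insert_of_mem hi))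

theorem cg.mono {n m : ℕ} (hnm : n ≤ m) {x y : ℚ} (h : cg p m x y) : cg p n x y := by
  obtain ⟨w, hw, e⟩ := h
  refine ⟨(p : ℚ) ^ (m - n) * w, (O p).mul_mem ((O p).pow_mem (natCast_mem p) _) hw, ?_⟩
  rw [e, ← mul_assoc, ← pow_add, Nat.add_sub_cancel' hnm]

theorem cg.p_mul {n : ℕ} {x y : ℚ} (h : cg p n x y) : cg p (n + 1) (p * x) (p * y) := by
  obtain ⟨w, hw, e⟩ := h
  exact ⟨w, hw, by rw [pow_succ]; linear_combination (p : ℚ) * e⟩

theorem cg.mem {n : ℕ} {x y : ℚ} (h : cg p n x y) (hy : y ∈ O p) : x ∈ O p := by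
  obtain ⟨w, hw, e⟩ := h
  have : x = y + (p : ℚ) ^ n * w := by linear_combination e
  rw [this]
  exact (O p).add_mem hy ((O p).mul_mem ((O p).pow_mem (natCast_mem p) _) hw)

/-- an integer congruence gives a rational one -/
theorem cg_of_dvd {n : ℕ} {a b : ℤ} (h : ((p : ℤ) ^ n) ∣ a - b) : cg p n (a : ℚ) (b : ℚ) := by
  obtain ⟨c, hc⟩ := h
  refine ⟨(c : ℚ), intCast_mem c, ?_⟩
  have : ((a - b : ℤ) : ℚ) = (((p : ℤ) ^ n * c : ℤ) : ℚ) := by rw [hc]
  push_cast at this
  exact this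

/-- a rational congruence between integers gives an integer one -/
theorem dvd_of_cg {n : ℕ} {a b : ℤ} (h : cg p n (a : ℚ) (b : ℚ)) : ((p : ℤ) ^ n) ∣ a - b := by
  obtain ⟨w, hw, e⟩ := h
  have hd : (w.den : ℚ) ≠ 0 := by exact_mod_cast w.den_nz
  have e2 : ((a - b : ℤ) : ℚ) * w.den = (p : ℚ) ^ n * w.num := by
    push_cast
    rw [e]
    have := Rat.mul_den_eq_num w
    rw [mul_assoc, this]
  have e3 : (a - b) * (w.den : ℤ) = (p : ℤ) ^ n * w.num := by exact_mod_cast e2
  have hc : IsCoprime ((p : ℤ) ^ n) (w.den : ℤ) := by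
    apply IsCoprime.pow_left
    rw [Nat.isCoprime_iff_coprime]
    exact Nat.Coprime.symm hw
  exact hc.dvd_of_dvd_mul_right (Dvd.intro _ e3.symm)

/-! ### one-units and their logarithm to first order -/

/-- `Lg p a s` : `a ≡ 1 + p s (mod p ^ 2)` with `s` a `p`-integral rational. -/
def Lg (p : ℕ) (a s : ℚ) : Prop := s ∈ O p ∧ cg p 2 a (1 + p * s)

theorem Lg.mem {a s : ℚ} (h : Lg p a s) : a ∈ O p :=
  h.2.mem ((O p).add_mem (O p).one_mem ((O p).mul_mem (natCast_mem p) h.1))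

theorem Lg.cg1 {a s : ℚ} (h : Lg p a s) : cg p 1 a 1 := by
  obtain ⟨w, hw, e⟩ := h.2
  refine ⟨s + p * w, (O p).add_mem h.1 ((O p).mul_mem (natCast_mem p) hw), ?_⟩
  linear_combination e

theorem Lg.one : Lg p 1 0 := ⟨(O p).zero_mem, cg.of_eq (by ring)⟩

theorem Lg.mul {a b s t : ℚ} (ha : Lg p a s) (hb : Lg p b t) : Lg p (a * b) (s + t) := by
  refine ⟨(O p).add_mem ha.1 hb.1, ?_⟩
  have h1 : (1 + p * s : ℚ) ∈ O p := (O p).add_mem (O p).one_mem ((O p).mul_mem (natCast_mem p) ha.1)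
  have := cg.mul hb.mem h1 ha.2 hb.2
  refine this.trans ⟨s * t, (O p).mul_mem ha.1 hb.1, by ring⟩

theorem Lg.congr {a s t : ℚ} (ha : Lg p a s) (h : cg p 1 s t) : Lg p a t := by
  refine ⟨h.symm.mem ha.1, ha.2.trans ?_⟩
  exact (cg.refl 1).add h.p_mul

theorem Lg.congr_left {a b s : ℚ} (ha : Lg p a s) (h : cg p 2 a b) : Lg p b s :=
  ⟨ha.1, h.symm.trans ha.2⟩

theorem Lg.eq {a b s t : ℚ} (ha : Lg p a s) (h : a = b) (h' : s = t) : Lg p b t := by
  subst h; subst h'; exact ha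

theorem Lg.pow {a s : ℚ} (ha : Lg p a s) (n : ℕ) : Lg p (a ^ n) (n * s) := by
  induction n with
  | zero => simpa using Lg.one
  | succ n ih => exact (ih.mul ha).eq (by rw [pow_succ]) (by push_cast; ring)

/-- the exact form of a one-unit -/
theorem Lg.isU [Fact p.Prime] {a s : ℚ} (ha : Lg p a s) : IsU p a := by
  have hp : p.Prime := Fact.out
  obtain ⟨w, hw, e⟩ := ha.cg1
  -- a = 1 + p w
  have ea : a = 1 + p * w := by linear_combination e
  have hd : (w.den : ℚ) ≠ 0 := by exact_mod_cast w.den_nz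
  have e2 : a = ((w.den + p * w.num : ℤ) : ℚ) / (w.den : ℚ) := by
    rw [ea, eq_div_iff hd]
    push_cast
    have := Rat.mul_den_eq_num w
    linear_combination (p : ℚ) * this
  have hcop : IsCoprime (w.den + p * w.num : ℤ) (p : ℤ) := by
    have h1 : IsCoprime (w.den : ℤ) (p : ℤ) := by
      rw [Nat.isCoprime_iff_coprime]; exact hw
    exact (IsCoprime.add_mul_left_left_iff).mpr h1
  have hne : (w.den + p * w.num : ℤ) ≠ 0 := by
    intro h0
    rw [h0] at hcop
    have := isCoprime_zero_left.mp hcop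
    have h2 : (p : ℤ) ∣ 1 := this.dvd
    have h3 : p ∣ 1 := by exact_mod_cast h2
    exact hp.one_lt.ne' (Nat.dvd_one.mp h3)
  refine ⟨ha.mem, ?_, ?_⟩
  · rw [e2, inv_div, div_eq_mul_inv]
    exact (O p).mul_mem (natCast_mem _) (inv_intCast_mem hcop)
  · rw [e2]
    exact div_ne_zero (by exact_mod_cast hne) hd

theorem Lg.inv [Fact p.Prime] {a s : ℚ} (ha : Lg p a s) : Lg p a⁻¹ (-s) := by
  have hu := ha.isU
  refine ⟨(O p).neg_mem ha.1, ?_⟩
  obtain ⟨w, hw, e⟩ := ha.2
  refine ⟨a⁻¹ * (s * s - w * (1 - p * s)), ?_, ?_⟩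
  · refine (O p).mul_mem hu.2.1 ((O p).sub_mem ((O p).mul_mem ha.1 ha.1) ((O p).mul_mem hw ?_))
    exact (O p).sub_mem (O p).one_mem ((O p).mul_mem (natCast_mem p) ha.1)
  · have hne := hu.2.2
    have e1 : a = 1 + p * s + p ^ 2 * w := by linear_combination e
    field_simp
    rw [e1]
    ring

theorem Lg.div [Fact p.Prime] {a b s t : ℚ} (ha : Lg p a s) (hb : Lg p b t) :
    Lg p (a / b) (s - t) := (ha.mul hb.inv).eq (by rw [div_eq_mul_inv]) (by ring)

/-- `1 + p s` is a one-unit with logarithm `s`. -/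
theorem Lg.mk {s : ℚ} (hs : s ∈ O p) : Lg p (1 + p * s) s := ⟨hs, cg.refl _⟩

theorem Lg.ne_zero [Fact p.Prime] {a s : ℚ} (ha : Lg p a s) : a ≠ 0 := ha.isU.2.2

/-- extracting roots: if `u ≡ 1 (mod p)` and `u ^ n` has logarithm `t`, then `u` has logarithm
`t / n`. -/
theorem Lg.root {u t : ℚ} {n : ℕ} (hn : IsU p (n : ℚ)) (hu : cg p 1 u 1)
    (h : Lg p (u ^ n) t) : Lg p u (t / n) := by
  obtain ⟨s, hs, e⟩ := hu
  have eu : u = 1 + p * s := by linear_combination e
  have h1 : Lg p u s := by rw [eu]; exact Lg.mk hs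
  have h2 := h1.pow n
  have h3 : cg p 2 (1 + p * (n * s)) (1 + p * t) := h2.2.symm.trans h.2
  obtain ⟨w, hw, e3⟩ := h3
  refine ⟨div_mem h.1 hn, ?_⟩
  refine h1.2.trans ⟨w / n, div_mem hw hn, ?_⟩
  have hne := hn.2.2
  field_simp
  linear_combination e3

/-- multiplying out: from `Lg (a / b) s` to a congruence for `a` -/
theorem Lg.cg_mul {a b s : ℚ} (h : Lg p (a / b) s) (hb : b ∈ O p) (hb0 : b ≠ 0) :
    cg p 2 a (b * (1 + p * s)) := by
  have := h.2.const_mul hb
  rwa [mul_div_cancel₀ _ hb0] at this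

/-! ### rising factorials and hypergeometric terms -/

/-- rising factorial `a (a+1) ... (a+k-1)` -/
def poch (a : ℚ) (k : ℕ) : ℚ := ∏ j ∈ range k, (a + j)

/-- the `k`-th term of the hypergeometric series with numerator parameters `a`, `b`,
denominator parameter `c` and argument `z`. -/
def term (a b c z : ℚ) (k : ℕ) : ℚ := poch a k * poch b k / (poch c k * k.factorial) * z ^ k

/-- the truncated hypergeometric sum, over `k < n` -/
def hyp (a b c z : ℚ) (n : ℕ) : ℚ := ∑ k ∈ range n, term a b c z k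

@[simp] theorem poch_zero (a : ℚ) : poch a 0 = 1 := by simp [poch]

theorem poch_succ (a : ℚ) (k : ℕ) : poch a (k + 1) = poch a k * (a + k) := by
  rw [poch, prod_range_succ, ← poch]

theorem poch_succ' (a : ℚ) (k : ℕ) : poch a (k + 1) = a * poch (a + 1) k := by
  rw [poch, prod_range_succ', mul_comm]
  simp only [Nat.cast_zero, add_zero, poch]
  congr 1
  apply prod_congr rfl
  intro j _
  push_cast
  ring

theorem poch_shift (a : ℚ) (k : ℕ) : a * poch (a + 1) k = poch a k * (a + k) := by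
  rw [← poch_succ', poch_succ]

theorem poch_add (a : ℚ) (m n : ℕ) : poch a (m + n) = poch a m * poch (a + m) n := by
  induction n with
  | zero => simp
  | succ n ih => rw [← add_assoc, poch_succ, ih, poch_succ]; push_cast; ring

theorem poch_ne_zero {a : ℚ} {k : ℕ} (h : ∀ j < k, a + j ≠ 0) : poch a k ≠ 0 := by
  rw [poch, prod_ne_zero_iff]
  intro j hj
  exact h j (mem_range.mp hj)

theorem poch_eq_zero {n k : ℕ} (h : n < k) : poch (-(n : ℚ)) k = 0 := by
  rw [poch]
  exact prod_eq_zero (mem_range.mpr h) (by ring)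

theorem poch_one (k : ℕ) : poch 1 k = k.factorial := by
  induction k with
  | zero => simp
  | succ k ih => rw [poch_succ, ih, Nat.factorial_succ]; push_cast; ring

theorem term_swap (a b c z : ℚ) (k : ℕ) : term a b c z k = term b a c z k := by
  rw [term, term, mul_comm (poch a k)]

theorem hyp_swap (a b c z : ℚ) (n : ℕ) : hyp a b c z n = hyp b a c z n := by
  simp [hyp, term_swap a b]

/-- a terminating sum does not depend on the truncation -/
theorem hyp_trunc {n N : ℕ} (b c z : ℚ) (h : n < N) :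
    hyp (-(n : ℚ)) b c z N = hyp (-(n : ℚ)) b c z (n + 1) := by
  rw [hyp, hyp, eq_comm]
  apply sum_subset
  · intro k hk; rw [mem_range] at *; omega
  · intro k _ hk
    rw [mem_range, not_lt] at hk
    rw [term, poch_eq_zero (show n < k by omega)]
    simp

end Pool.Agent.SC
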