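import Pool.Agent.Work.MP_5b0587_nt.WZ

/-!
Eight closed forms for terminating hypergeometric sums at the arguments 4, 1/4 and -8.
-/

namespace Pool.Agent.SC

open Finset

/-! ### Family S1B -/

theorem S1B_step (m : ℕ) (hm : 1 ≤ m) :
    hyp (-((m + 1 : ℕ) : ℚ)) (-3 * ((m + 1 : ℕ) : ℚ) - 1 / 2) (-4 * ((m + 1 : ℕ) : ℚ)) 4 (m + 2) =
    (-(27 / 16) * ((2 / 3 + 2 * m) * (5 / 3 + 2 * m)) / ((1 / 2 + 2 * m) * (3 / 2 + 2 * m))) *
      hyp (-(m : ℚ)) (-3 * (m : ℚ) - 1 / 2) (-4 * (m : ℚ)) 4 (m + 2) := by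
  have hm1 : (1 : ℚ) ≤ m := by exact_mod_cast hm
  refine wz_step _ _ _ _ _ _ (-((m + 1 : ℕ) : ℚ)) (-3 * m - 7 / 2) (-4 * m) 4
    (7 + 6 * m) (-32 - 96 * m) _
    (fun k => (104 + 522 * m + 768 * m ^ 2 + 344 * m ^ 3) + (-75 - 282 * m - 216 * m ^ 2) * k
      + (13 + 34 * m) * k ^ 2) 1 3 0 0 0 4 (m + 2)
    (by push_cast; ring) (by push_cast; ring) (by push_cast; ring)
    (by push_cast; ring) (by push_cast; ring) (by push_cast; ring)
    ?_ (poch_eq_zero (by omega))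
    (poch_ne_zero_neg (by push_cast; linarith)) (poch_ne_zero_neg (by push_cast; linarith))
    (by simp) (by simp) (by simp) (poch_ne_zero_neg (by push_cast; linarith)) (by positivity)
    (by intro k; simp only [poch, prod_range_succ, prod_range_zero]; push_cast; ring) ?_
  · intro k hk h0
    have : (k : ℚ) ≤ m + 1 := by exact_mod_cast (by omega : k ≤ m + 1)
    linarith
  · rw [← mul_div_assoc, div_eq_iff (by positivity)]
    simp only [poch, prod_range_succ, prod_range_zero]; push_cast; ring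

theorem S1B (n : ℕ) : ∀ N, n < N →
    hyp (-(n : ℚ)) (-3 * (n : ℚ) - 1 / 2) (-4 * (n : ℚ)) 4 N =
    (-(27 / 16)) ^ n * poch (2 / 3) (2 * n) / poch (1 / 2) (2 * n) := by
  intro N hN
  rw [hyp_trunc _ _ _ hN]
  clear hN N
  rcases Nat.eq_zero_or_pos n with rfl | hn
  · simp [hyp, term]
  induction n, hn using Nat.le_induction with
  | base => norm_num [hyp, term, poch, sum_range_succ, prod_range_succ]
  | succ m hm ih =>
    rw [show m + 1 + 1 = m + 2 by ring, S1B_step m hm, hyp_trunc _ _ _ (show m < m + 2 by omega),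
      ih, show 2 * (m + 1) = 2 * m + 2 by ring, poch_add, poch_add (1 / 2), pow_succ]
    have h1 : poch (1 / 2) (2 * m) ≠ 0 := poch_ne_zero_pos _ (by norm_num)
    rw [poch_two, poch_two]
    push_cast
    field_simp
    ring

/-! ### Family S1A -/

theorem S1A0_step (m : ℕ) :
    hyp (-((3 * (m + 1) : ℕ) : ℚ)) ((1 - 6 * ((m + 1 : ℕ) : ℚ)) / 6)
      ((2 - 12 * ((m + 1 : ℕ) : ℚ)) / 3) 4 (3 * m + 4) =
    (-(27 / 16) * ((1 / 3 + 2 * m) * (4 / 3 + 2 * m)) / ((1 / 6 + 2 * m) * (7 / 6 + 2 * m))) *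
      hyp (-((3 * m : ℕ) : ℚ)) ((1 - 6 * (m : ℚ)) / 6) ((2 - 12 * (m : ℚ)) / 3) 4 (3 * m + 4) := by
  have hm1 : (0 : ℚ) ≤ m := by positivity
  refine wz_step _ _ _ _ _ _ (-((3 * (m + 1) : ℕ) : ℚ)) ((1 - 6 * (m : ℚ)) / 6 - 1)
    ((2 - 12 * (m : ℚ)) / 3) 4
    (81 + 81 * m) (-216 - 1296 * m) _
    (fun k => (496 + 3978 * m + 8046 * m ^ 2 + 4644 * m ^ 3) +
      (-459 - 2835 * m - 2916 * m ^ 2) * k + (99 + 459 * m) * k ^ 2) 3 1 0 0 0 4 (3 * m + 4)
    (by push_cast; ring) (by push_cast; ring) (by push_cast; ring)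
    (by push_cast; ring) (by push_cast; ring) (by push_cast; ring)
    ?_ (poch_eq_zero (by omega))
    (poch_ne_zero_neg (by push_cast; linarith)) (poch_ne_zero_neg (by push_cast; linarith))
    (by simp) (by simp) (by simp) (poch_ne_zero_neg (by push_cast; linarith)) (by positivity)
    (by intro k; simp only [poch, prod_range_succ, prod_range_zero]; push_cast; ring) ?_
  · intro k hk h0
    have h1 : (2 - 12 * (m : ℤ) + 3 * (k : ℤ) : ℤ) = 0 := by
      have : (2 - 12 * (m : ℚ) + 3 * (k : ℚ)) = 0 := by linear_combination 3 * h0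
      exact_mod_cast this
    omega
  · rw [← mul_div_assoc, div_eq_iff (by positivity)]
    simp only [poch, prod_range_succ, prod_range_zero]; push_cast; ring

theorem S1A0 (m : ℕ) : ∀ N, 3 * m < N →
    hyp (-((3 * m : ℕ) : ℚ)) ((1 - 6 * (m : ℚ)) / 6) ((2 - 12 * (m : ℚ)) / 3) 4 N =
    (-(27 / 16)) ^ m * poch (1 / 3) (2 * m) / poch (1 / 6) (2 * m) := by
  intro N hN
  rw [hyp_trunc _ _ _ hN]
  clear hN N
  induction m with
  | zero => simp [hyp, term]
  | succ m ih =>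
    rw [show 3 * (m + 1) + 1 = 3 * m + 4 by ring, S1A0_step m,
      hyp_trunc _ _ _ (show 3 * m < 3 * m + 4 by omega),
      ih, show 2 * (m + 1) = 2 * m + 2 by ring, poch_add, poch_add (1 / 6), pow_succ]
    have h1 : poch (1 / 6) (2 * m) ≠ 0 := poch_ne_zero_pos _ (by norm_num)
    rw [poch_two, poch_two]
    push_cast
    field_simp
    ring

theorem S1A2_step (m : ℕ) (hm : 4 ≤ m) :
    hyp (-((3 * (m + 1) + 2 : ℕ) : ℚ)) (-1 / 2 - ((m + 1 : ℕ) : ℚ))
      (-2 - 4 * ((m + 1 : ℕ) : ℚ)) 4 (3 * m + 6) =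
    (-(27 / 16) * ((5 / 3 + 2 * m) * (8 / 3 + 2 * m)) / ((3 / 2 + 2 * m) * (5 / 2 + 2 * m))) *
      hyp (-((3 * m + 2 : ℕ) : ℚ)) (-1 / 2 - (m : ℚ)) (-2 - 4 * (m : ℚ)) 4 (3 * m + 6) := by
  have hm1 : (4 : ℚ) ≤ m := by exact_mod_cast hm
  refine wz_step _ _ _ _ _ _ (-((3 * (m + 1) + 2 : ℕ) : ℚ)) (-1 / 2 - (m : ℚ) - 1)
    (-2 - 4 * (m : ℚ)) 4
    (5 + 3 * m) (-40 - 48 * m) _
    (fun k => (300 + 774 * m + 642 * m ^ 2 + 172 * m ^ 3) +
      (-135 - 249 * m - 108 * m ^ 2) * k + (15 + 17 * m) * k ^ 2) 3 1 0 0 0 4 (3 * m + 6)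
    (by push_cast; ring) (by push_cast; ring) (by push_cast; ring)
    (by push_cast; ring) (by push_cast; ring) (by push_cast; ring)
    ?_ (poch_eq_zero (by omega))
    (poch_ne_zero_neg (by push_cast; linarith)) (poch_ne_zero_neg (by push_cast; linarith))
    (by simp) (by simp) (by simp) (poch_ne_zero_neg (by push_cast; linarith)) (by positivity)
    (by intro k; simp only [poch, prod_range_succ, prod_range_zero]; push_cast; ring) ?_
  · intro k hk h0
    have : (k : ℚ) ≤ 3 * m + 5 := by exact_mod_cast (by omega : k ≤ 3 * m + 5)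
    linarith
  · rw [← mul_div_assoc, div_eq_iff (by positivity)]
    simp only [poch, prod_range_succ, prod_range_zero]; push_cast; ring

theorem S1A2 (m : ℕ) : ∀ N, 3 * m + 2 < N →
    hyp (-((3 * m + 2 : ℕ) : ℚ)) (-1 / 2 - (m : ℚ)) (-2 - 4 * (m : ℚ)) 4 N =
    -3 * (-(27 / 16)) ^ m * poch (5 / 3) (2 * m) / poch (3 / 2) (2 * m) := by
  intro N hN
  rw [hyp_trunc _ _ _ hN]
  clear hN N
  have h0 : m = 0 ∨ m = 1 ∨ m = 2 ∨ m = 3 ∨ 4 ≤ m := by omega
  rcases h0 with rfl | rfl | rfl | rfl | hm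
  · norm_num [hyp, term, poch, sum_range_succ, prod_range_succ, Nat.factorial]
  · norm_num [hyp, term, poch, sum_range_succ, prod_range_succ, Nat.factorial]
  · norm_num [hyp, term, poch, sum_range_succ, prod_range_succ, Nat.factorial]
  · norm_num [hyp, term, poch, sum_range_succ, prod_range_succ, Nat.factorial]
  induction m, hm using Nat.le_induction with
  | base => norm_num [hyp, term, poch, sum_range_succ, prod_range_succ, Nat.factorial]
  | succ m hm ih =>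
    rw [show 3 * (m + 1) + 2 + 1 = 3 * m + 6 by ring, S1A2_step m hm,
      hyp_trunc _ _ _ (show 3 * m + 2 < 3 * m + 6 by omega),
      ih, show 2 * (m + 1) = 2 * m + 2 by ring, poch_add, poch_add (3 / 2), pow_succ]
    have h1 : poch (3 / 2) (2 * m) ≠ 0 := poch_ne_zero_pos _ (by norm_num)
    rw [poch_two, poch_two]
    push_cast
    field_simp
    ring

/-! ### Family S3A -/

theorem S3A0_step (m : ℕ) :
    hyp (-((3 * (m + 1) : ℕ) : ℚ)) (1 / 3 + ((m + 1 : ℕ) : ℚ))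
      ((5 - 12 * ((m + 1 : ℕ) : ℚ)) / 6) (1 / 4) (3 * m + 4) =
    ((27 / 16) * ((1 / 3 + 2 * m) * (4 / 3 + 2 * m)) / ((1 / 6 + 2 * m) * (7 / 6 + 2 * m))) *
      hyp (-((3 * m : ℕ) : ℚ)) (1 / 3 + (m : ℚ)) ((5 - 12 * (m : ℚ)) / 6) (1 / 4)
        (3 * m + 4) := by
  have hm1 : (0 : ℚ) ≤ m := by positivity
  refine wz_step _ _ _ _ _ _ (-((3 * (m + 1) : ℕ) : ℚ)) (1 / 3 + (m : ℚ))
    ((5 - 12 * (m : ℚ)) / 6) (1 / 4)
    (216 + 216 * m) (-9 - 54 * m) _
    (fun k => (460 + 1212 * m + 792 * m ^ 2) + (-300 - 360 * m) * k)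
    3 0 0 0 1 2 (3 * m + 4)
    (by push_cast; ring) (by push_cast; ring) (by push_cast; ring)
    (by push_cast; ring) (by push_cast; ring) (by push_cast; ring)
    ?_ (poch_eq_zero (by omega))
    (poch_ne_zero_neg (by push_cast; linarith)) (by simp)
    (by simp) (by simp) (poch_ne_zero_pos _ (by positivity))
    (poch_ne_zero_neg (by push_cast; linarith)) (by positivity)
    (by intro k; simp only [poch, prod_range_succ, prod_range_zero]; push_cast; ring) ?_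
  · intro k hk h0
    have h1 : (5 - 12 * (m : ℤ) + 6 * (k : ℤ) : ℤ) = 0 := by
      have : (5 - 12 * (m : ℚ) + 6 * (k : ℚ)) = 0 := by linear_combination 6 * h0
      exact_mod_cast this
    omega
  · rw [← mul_div_assoc, div_eq_iff (by positivity)]
    simp only [poch, prod_range_succ, prod_range_zero]; push_cast; ring

theorem S3A0 (m : ℕ) : ∀ N, 3 * m < N →
    hyp (-((3 * m : ℕ) : ℚ)) (1 / 3 + (m : ℚ)) ((5 - 12 * (m : ℚ)) / 6) (1 / 4) N =
    (27 / 16) ^ m * poch (1 / 3) (2 * m) / poch (1 / 6) (2 * m) := by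
  intro N hN
  rw [hyp_trunc _ _ _ hN]
  clear hN N
  induction m with
  | zero => simp [hyp, term]
  | succ m ih =>
    rw [show 3 * (m + 1) + 1 = 3 * m + 4 by ring, S3A0_step m,
      hyp_trunc _ _ _ (show 3 * m < 3 * m + 4 by omega),
      ih, show 2 * (m + 1) = 2 * m + 2 by ring, poch_add, poch_add (1 / 6), pow_succ]
    have h1 : poch (1 / 6) (2 * m) ≠ 0 := poch_ne_zero_pos _ (by norm_num)
    rw [poch_two, poch_two]
    push_cast
    field_simp
    ring

theorem S3A2_step (m : ℕ) :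
    hyp (-((3 * (m + 1) + 2 : ℕ) : ℚ)) (1 + ((m + 1 : ℕ) : ℚ))
      (-1 / 2 - 2 * ((m + 1 : ℕ) : ℚ)) (1 / 4) (3 * m + 6) =
    ((27 / 16) * ((5 / 3 + 2 * m) * (8 / 3 + 2 * m)) / ((3 / 2 + 2 * m) * (5 / 2 + 2 * m))) *
      hyp (-((3 * m + 2 : ℕ) : ℚ)) (1 + (m : ℚ)) (-1 / 2 - 2 * (m : ℚ)) (1 / 4)
        (3 * m + 6) := by
  have hm1 : (0 : ℚ) ≤ m := by positivity
  refine wz_step _ _ _ _ _ _ (-((3 * (m + 1) + 2 : ℕ) : ℚ)) (1 + (m : ℚ))
    (-1 / 2 - 2 * (m : ℚ)) (1 / 4)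
    (40 + 24 * m) (-5 - 6 * m) _
    (fun k => (180 + 252 * m + 88 * m ^ 2) + (-60 - 40 * m) * k)
    3 0 0 0 1 2 (3 * m + 6)
    (by push_cast; ring) (by push_cast; ring) (by push_cast; ring)
    (by push_cast; ring) (by push_cast; ring) (by push_cast; ring)
    ?_ (poch_eq_zero (by omega))
    (poch_ne_zero_neg (by push_cast; linarith)) (by simp)
    (by simp) (by simp) (poch_ne_zero_pos _ (by positivity))
    (poch_ne_zero_neg (by push_cast; linarith)) (by positivity)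
    (by intro k; simp only [poch, prod_range_succ, prod_range_zero]; push_cast; ring) ?_
  · intro k hk h0
    have h1 : (-1 - 4 * (m : ℤ) + 2 * (k : ℤ) : ℤ) = 0 := by
      have : (-1 - 4 * (m : ℚ) + 2 * (k : ℚ)) = 0 := by linear_combination 2 * h0
      exact_mod_cast this
    omega
  · rw [← mul_div_assoc, div_eq_iff (by positivity)]
    simp only [poch, prod_range_succ, prod_range_zero]; push_cast; ring

theorem S3A2 (m : ℕ) : ∀ N, 3 * m + 2 < N →
    hyp (-((3 * m + 2 : ℕ) : ℚ)) (1 + (m : ℚ)) (-1 / 2 - 2 * (m : ℚ)) (1 / 4) N =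
    3 / 2 * (27 / 16) ^ m * poch (5 / 3) (2 * m) / poch (3 / 2) (2 * m) := by
  intro N hN
  rw [hyp_trunc _ _ _ hN]
  clear hN N
  induction m with
  | zero => norm_num [hyp, term, poch, sum_range_succ, prod_range_succ, Nat.factorial]
  | succ m ih =>
    rw [show 3 * (m + 1) + 2 + 1 = 3 * m + 6 by ring, S3A2_step m,
      hyp_trunc _ _ _ (show 3 * m + 2 < 3 * m + 6 by omega),
      ih, show 2 * (m + 1) = 2 * m + 2 by ring, poch_add, poch_add (3 / 2), pow_succ]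
    have h1 : poch (3 / 2) (2 * m) ≠ 0 := poch_ne_zero_pos _ (by norm_num)
    rw [poch_two, poch_two]
    push_cast
    field_simp
    ring

/-! ### Family S3B -/

theorem S3B_step (m : ℕ) :
    hyp (-((m + 1 : ℕ) : ℚ)) (1 + 3 * ((m + 1 : ℕ) : ℚ)) (3 / 2 + 2 * ((m + 1 : ℕ) : ℚ)) (1 / 4)
      (m + 2) =
    ((16 / 27) * ((3 / 2 + 2 * m) * (5 / 2 + 2 * m)) / ((4 / 3 + 2 * m) * (7 / 3 + 2 * m))) *
      hyp (-(m : ℚ)) (1 + 3 * (m : ℚ)) (3 / 2 + 2 * (m : ℚ)) (1 / 4) (m + 2) := by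
  have hm1 : (0 : ℚ) ≤ m := by positivity
  refine wz_step _ _ _ _ _ _ (-((m + 1 : ℕ) : ℚ)) (1 + 3 * (m : ℚ))
    (3 / 2 + 2 * ((m + 1 : ℕ) : ℚ)) (1 / 4)
    (7 + 6 * m) (-8 - 24 * m) _
    (fun k => (-28 - 100 * m - 88 * m ^ 2) + (-20 - 40 * m) * k)
    1 0 2 0 3 0 (m + 2)
    (by push_cast; ring) (by push_cast; ring) (by push_cast; ring)
    (by push_cast; ring) (by push_cast; ring) (by push_cast; ring)
    (fun k hk => by positivity) (poch_eq_zero (by omega))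
    (poch_ne_zero_neg (by push_cast; linarith)) (by simp)
    (poch_ne_zero_pos _ (by positivity)) (by simp) (poch_ne_zero_pos _ (by positivity))
    (by simp) (by positivity)
    (by intro k; simp only [poch, prod_range_succ, prod_range_zero]; push_cast; ring) ?_
  · rw [← mul_div_assoc, div_eq_iff (by positivity)]
    simp only [poch, prod_range_succ, prod_range_zero]; push_cast; ring

theorem S3B (n : ℕ) : ∀ N, n < N →
    hyp (-(n : ℚ)) (1 + 3 * (n : ℚ)) (3 / 2 + 2 * (n : ℚ)) (1 / 4) N =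
    (16 / 27) ^ n * poch (3 / 2) (2 * n) / poch (4 / 3) (2 * n) := by
  intro N hN
  rw [hyp_trunc _ _ _ hN]
  clear hN N
  induction n with
  | zero => simp [hyp, term]
  | succ m ih =>
    rw [show m + 1 + 1 = m + 2 by ring, S3B_step m, hyp_trunc _ _ _ (show m < m + 2 by omega),
      ih, show 2 * (m + 1) = 2 * m + 2 by ring, poch_add, poch_add (4 / 3), pow_succ]
    have h1 : poch (4 / 3) (2 * m) ≠ 0 := poch_ne_zero_pos _ (by norm_num)
    rw [poch_two, poch_two]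
    push_cast
    field_simp
    ring

/-! ### Family IIa -/

theorem IIa_step (m : ℕ) (hm : 1 ≤ m) :
    hyp (-((m + 1 : ℕ) : ℚ)) (-3 * ((m + 1 : ℕ) : ℚ) - 1 / 4) (-4 * ((m + 1 : ℕ) : ℚ)) (-8)
      (m + 2) =
    ((27 / 4) * ((1 / 3 + m) * (5 / 12 + m)) / ((1 / 4 + m) * (1 / 2 + m))) *
      hyp (-(m : ℚ)) (-3 * (m : ℚ) - 1 / 4) (-4 * (m : ℚ)) (-8) (m + 2) := by
  have hm1 : (1 : ℚ) ≤ m := by exact_mod_cast hm
  refine wz_step _ _ _ _ _ _ (-((m + 1 : ℕ) : ℚ)) (-3 * m - 13 / 4) (-4 * m) (-8)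
    (13 + 12 * m) (256 + 768 * m) _
    (fun k => (200 + 1058 * m + 1600 * m ^ 2 + 736 * m ^ 3) +
      (-149 - 624 * m - 496 * m ^ 2) * k + (27 + 84 * m) * k ^ 2) 1 3 0 0 0 4 (m + 2)
    (by push_cast; ring) (by push_cast; ring) (by push_cast; ring)
    (by push_cast; ring) (by push_cast; ring) (by push_cast; ring)
    ?_ (poch_eq_zero (by omega))
    (poch_ne_zero_neg (by push_cast; linarith)) (poch_ne_zero_neg (by push_cast; linarith))
    (by simp) (by simp) (by simp) (poch_ne_zero_neg (by push_cast; linarith)) (by positivity)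
    (by intro k; simp only [poch, prod_range_succ, prod_range_zero]; push_cast; ring) ?_
  · intro k hk h0
    have : (k : ℚ) ≤ m + 1 := by exact_mod_cast (by omega : k ≤ m + 1)
    linarith
  · rw [← mul_div_assoc, div_eq_iff (by positivity)]
    simp only [poch, prod_range_succ, prod_range_zero]; push_cast; ring

theorem IIa (n : ℕ) : ∀ N, n < N →
    hyp (-(n : ℚ)) (-3 * (n : ℚ) - 1 / 4) (-4 * (n : ℚ)) (-8) N =
    (27 / 4) ^ n * (poch (1 / 3) n * poch (5 / 12) n) / (poch (1 / 4) n * poch (1 / 2) n) := by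
  intro N hN
  rw [hyp_trunc _ _ _ hN]
  clear hN N
  rcases Nat.eq_zero_or_pos n with rfl | hn
  · simp [hyp, term]
  induction n, hn using Nat.le_induction with
  | base => norm_num [hyp, term, poch, sum_range_succ, prod_range_succ]
  | succ m hm ih =>
    rw [show m + 1 + 1 = m + 2 by ring, IIa_step m hm, hyp_trunc _ _ _ (show m < m + 2 by omega),
      ih]
    have h1 : poch (1 / 4) m ≠ 0 := poch_ne_zero_pos _ (by norm_num)
    have h2 : poch (1 / 2) m ≠ 0 := poch_ne_zero_pos _ (by norm_num)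
    simp only [poch_succ, pow_succ]
    field_simp

/-! ### Family IIb -/

theorem IIb_step (m : ℕ) :
    hyp (-((3 * (m + 1) : ℕ) : ℚ)) (1 / 12 - ((m + 1 : ℕ) : ℚ))
      ((1 - 12 * ((m + 1 : ℕ) : ℚ)) / 3) (-8) (3 * m + 4) =
    ((27 / 4) * ((1 / 4 + m) * (1 / 3 + m)) / ((1 / 6 + m) * (5 / 12 + m))) *
      hyp (-((3 * m : ℕ) : ℚ)) (1 / 12 - (m : ℚ)) ((1 - 12 * (m : ℚ)) / 3) (-8)
        (3 * m + 4) := by
  have hm1 : (0 : ℚ) ≤ m := by positivity
  refine wz_step _ _ _ _ _ _ (-((3 * (m + 1) : ℕ) : ℚ)) (1 / 12 - (m : ℚ) - 1)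
    ((1 - 12 * (m : ℚ)) / 3) (-8)
    (81 + 81 * m) (1296 + 5184 * m) _
    (fun k => (827 + 5445 * m + 9558 * m ^ 2 + 4968 * m ^ 3) +
      (-678 - 3654 * m - 3348 * m ^ 2) * k + (135 + 567 * m) * k ^ 2) 3 1 0 0 0 4 (3 * m + 4)
    (by push_cast; ring) (by push_cast; ring) (by push_cast; ring)
    (by push_cast; ring) (by push_cast; ring) (by push_cast; ring)
    ?_ (poch_eq_zero (by omega))
    (poch_ne_zero_neg (by push_cast; linarith)) (poch_ne_zero_neg (by push_cast; linarith))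
    (by simp) (by simp) (by simp) (poch_ne_zero_neg (by push_cast; linarith)) (by positivity)
    (by intro k; simp only [poch, prod_range_succ, prod_range_zero]; push_cast; ring) ?_
  · intro k hk h0
    have h1 : (1 - 12 * (m : ℤ) + 3 * (k : ℤ) : ℤ) = 0 := by
      have : (1 - 12 * (m : ℚ) + 3 * (k : ℚ)) = 0 := by linear_combination 3 * h0
      exact_mod_cast this
    omega
  · rw [← mul_div_assoc, div_eq_iff (by positivity)]
    simp only [poch, prod_range_succ, prod_range_zero]; push_cast; ring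

theorem IIb (m : ℕ) : ∀ N, 3 * m < N →
    hyp (-((3 * m : ℕ) : ℚ)) (1 / 12 - (m : ℚ)) ((1 - 12 * (m : ℚ)) / 3) (-8) N =
    (27 / 4) ^ m * (poch (1 / 4) m * poch (1 / 3) m) / (poch (1 / 6) m * poch (5 / 12) m) := by
  intro N hN
  rw [hyp_trunc _ _ _ hN]
  clear hN N
  induction m with
  | zero => simp [hyp, term]
  | succ m ih =>
    rw [show 3 * (m + 1) + 1 = 3 * m + 4 by ring, IIb_step m,
      hyp_trunc _ _ _ (show 3 * m < 3 * m + 4 by omega), ih]
    have h1 : poch (1 / 6) m ≠ 0 := poch_ne_zero_pos _ (by norm_num)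
    have h2 : poch (5 / 12) m ≠ 0 := poch_ne_zero_pos _ (by norm_num)
    simp only [poch_succ, pow_succ]
    field_simp

end Pool.Agent.SC
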