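import Pool.Agent.Work.MP_5b0587_nt.Base

/-!
Definitions shared by the modules of MP_5b0587_nt: Teichmueller representatives modulo `p ^ 2`,
the Jacobi sum, the Fermat quotient.
-/

namespace Pool.Agent.SC

open Finset

/-- Teichmueller representative modulo `p ^ 2` of a residue class modulo `p` -/
def tau (p : ℕ) (x : ZMod p) : ZMod (p ^ 2) := (x.val : ZMod (p ^ 2)) ^ p

/-- the Jacobi sum of the cubic character `tau ^ (4r)` and the quadratic character `tau ^ (3r)` -/
def jac (p r : ℕ) [Fact p.Prime] : ZMod (p ^ 2) :=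
  ∑ x : ZMod p, tau p x ^ (4 * r) * tau p (1 - x) ^ (3 * r)

/-- the Fermat quotient -/
def fq (p a : ℕ) : ℚ := ((a : ℚ) ^ (p - 1) - 1) / p

end Pool.Agent.SC
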