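import Pool.Agent.Work.MP_5b0587_nt.Prod
import Pool.Agent.Work.MP_5b0587_nt.Closed

/-!
Evaluation modulo `p ^ 2` of the closed forms for primes `p = 12 m + 1`.
-/

namespace Pool.Agent.SC

open Finset

variable {p : ℕ}

theorem mem12 [Fact p.Prime] (h : p.Coprime 12) {x : ℚ} (a : ℤ) (hx : x = a / 12) : x ∈ O p := by
  rw [hx, div_eq_mul_inv]
  have : ((12 : ℕ) : ℚ)⁻¹ ∈ O p := inv_natCast_mem (Nat.coprime_comm.mp h)
  exact (O p).mul_mem (intCast_mem a) (by exact_mod_cast this)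

theorem coprime12 [Fact p.Prime] {r : ℕ} (hp : p = 6 * r + 1) : p.Coprime 12 := by
  have h1 : p.Coprime 2 := (Nat.coprime_comm.mp (coprime_lit (p := p) hp (by norm_num)))
  have h2 : p.Coprime 6 := (Nat.coprime_comm.mp (coprime_lit (p := p) hp (by norm_num)))
  exact Nat.Coprime.mul_right h1 h2

theorem pw1 (n : ℕ) : ((27 : ℚ) / 16) ^ n = 3 ^ (3 * n) / 2 ^ (4 * n) := by
  rw [div_pow, pow_mul, pow_mul]; norm_num

theorem pw2 (n : ℕ) : (-((27 : ℚ) / 16)) ^ n = (-1) ^ n * (3 ^ (3 * n) / 2 ^ (4 * n)) := by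
  rw [← pw1, ← mul_pow]; norm_num

theorem pw3 (n : ℕ) : ((16 : ℚ) / 27) ^ n = 2 ^ (4 * n) / 3 ^ (3 * n) := by
  rw [div_pow, pow_mul, pow_mul]; norm_num

theorem pw4 (n : ℕ) : ((27 : ℚ) / 4) ^ n = 3 ^ (3 * n) / 2 ^ (2 * n) := by
  rw [div_pow, pow_mul, pow_mul]; norm_num

section one

variable [Fact p.Prime] {m : ℕ} (hp : p = 12 * m + 1)

include hp

theorem m_pos : 0 < m := by
  have := (Fact.out : p.Prime).one_lt
  omega

theorem p_ne_two : p ≠ 2 := by omega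

theorem hp6 : p = 6 * (2 * m) + 1 := by omega

/-- `3 ^ (3m)` -/
theorem pow3_one (ε : ℚ) (hε : ε = 1 ∨ ε = -1) (h3 : cg p 1 ((3 : ℚ) ^ (3 * m)) ε) :
    ∃ E : ℚ, (3 : ℚ) ^ (3 * m) = ε * E ∧ Lg p E (fq p 3 / 4) := by
  have hεε : ε * ε = 1 := by rcases hε with h | h <;> rw [h] <;> norm_num
  have hεO : ε ∈ O p := by
    rcases hε with h | h <;> rw [h]
    · exact (O p).one_mem
    · exact (O p).neg_mem (O p).one_mem
  refine ⟨ε * 3 ^ (3 * m), by rw [← mul_assoc, hεε, one_mul], ?_⟩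
  have h4 : IsU p ((4 : ℕ) : ℚ) := by
    have := (isU_two (p := p) (p_ne_two hp)).pow 2
    norm_num at this ⊢
    exact this
  have hc : cg p 1 (ε * 3 ^ (3 * m)) 1 := by
    have := h3.const_mul hεO
    rwa [hεε] at this
  have hfq : fq p 3 ∈ O p := fq_mem p 3 (coprime_lit (hp6 hp) (by norm_num))
  have h5 : Lg p ((ε * 3 ^ (3 * m)) ^ 4) (fq p 3) := by
    refine (Lg.mk hfq).eq ?_ rfl
    have e1 := fq_eq p 3
    rw [← Nat.cast_ofNat (n := 3)] at e1
    have e2 : p - 1 = 3 * m * 4 := by omega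
    rw [e2] at e1
    rw [mul_pow, ← pow_mul]
    have e3 : ε ^ 4 = 1 := by
      calc ε ^ 4 = (ε * ε) * (ε * ε) := by ring
        _ = 1 := by rw [hεε]; ring
    rw [e3, one_mul]
    push_cast at e1 ⊢
    linear_combination -e1
  have := Lg.root h4 hc h5
  exact this.eq rfl (by norm_num)

theorem pow2_one : Lg p ((2 : ℚ) ^ (12 * m)) (fq p 2) := by
  have hfq : fq p 2 ∈ O p := fq_mem p 2 (coprime_lit (hp6 hp) (by norm_num))
  refine (Lg.mk hfq).eq ?_ rfl
  have e1 := fq_eq p 2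
  have e2 : p - 1 = 12 * m := by omega
  rw [e2] at e1
  push_cast at e1 ⊢
  linear_combination -e1

theorem K_one : ∃ E : ℚ, (((4 * m).factorial : ℚ) / ((2 * m).factorial) ^ 2) =
      ((6 * m).factorial : ℚ) / ((2 * m).factorial * (4 * m).factorial) / 2 ^ (8 * m) * E ∧
      Lg p E (-(1 / 2) * harmonic (6 * m) - (1 / 2) * harmonic (2 * m) + harmonic (4 * m)) := by
  have hc := coprime12 (hp6 hp)
  have hm := m_pos hp
  obtain ⟨E3, h3, l3⟩ := poch_neg (p := p) (1 / 2) (mem12 hc 6 (by norm_num)) (6 * m) (4 * m)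
    (by omega) (by omega)
  obtain ⟨E4, h4, l4⟩ := factorial_reflect (p := p) (4 * m) (by omega)
  obtain ⟨E5, h5, l5⟩ := factorial_reflect (p := p) (6 * m) (by omega)
  have e0 : (1 / 2 : ℚ) * p - ((6 * m : ℕ) : ℚ) = 1 / 2 := by rw [hp]; push_cast; ring
  rw [e0, show 6 * m - 4 * m = 2 * m by omega, Even.neg_one_pow (by exact ⟨2 * m, by ring⟩)] at h3
  rw [show p - 1 - 4 * m = 8 * m by omega, Even.neg_one_pow (by exact ⟨2 * m, by ring⟩)] at h4
  rw [show p - 1 - 6 * m = 6 * m by omega, Even.neg_one_pow (by exact ⟨3 * m, by ring⟩)] at h5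
  have h8 := two_factorial (4 * m)
  rw [h3, show 2 * (4 * m) = 8 * m by ring] at h8
  have n2 : ((2 * m).factorial : ℚ) ≠ 0 := by positivity
  have n4 : ((4 * m).factorial : ℚ) ≠ 0 := by positivity
  have n6 : ((6 * m).factorial : ℚ) ≠ 0 := by positivity
  have m3 := l3.ne_zero
  have m4 := l4.ne_zero
  have m5 := l5.ne_zero
  refine ⟨E5 / (E3 * E4), ?_, (l5.div (l3.mul l4)).eq rfl ?_⟩
  · rw [h8] at h4
    rw [h4] at h5
    have e4 : (4 : ℚ) ^ (4 * m) = 2 ^ (8 * m) := by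
      rw [show (4 : ℚ) = 2 ^ 2 by norm_num, ← pow_mul]; ring_nf
    rw [e4] at h5
    have n28 : (2 : ℚ) ^ (8 * m) ≠ 0 := by positivity
    field_simp at h5 ⊢
    linear_combination h5
  · rw [show 6 * m - 4 * m = 2 * m by omega]
    ring

/-- harmonic numbers for `p = 12 m + 1`, in terms of Fermat quotients -/
theorem harm_one : ∃ w2 w3 w4 w6 w7 w8 w5 : ℚ, w2 ∈ O p ∧ w3 ∈ O p ∧ w4 ∈ O p ∧ w6 ∈ O p ∧
      w7 ∈ O p ∧ w8 ∈ O p ∧ w5 ∈ O p ∧
      harmonic (2 * m) = -2 * fq p 2 - (3 / 2) * fq p 3 + p * w2 ∧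
      harmonic (3 * m) = -3 * fq p 2 + p * w3 ∧
      harmonic (4 * m) = -(3 / 2) * fq p 3 + p * w4 ∧
      harmonic (6 * m) = -2 * fq p 2 + p * w6 ∧
      harmonic (7 * m) = harmonic (5 * m) + p * w7 ∧
      harmonic (8 * m) = harmonic (4 * m) + p * w8 ∧
      harmonic (5 * m) + harmonic m = 2 * harmonic (2 * m) + harmonic (6 * m) + p * w5 := by
  have h6 := hp6 hp
  obtain ⟨w2, g2, e2⟩ := harmonic_sixth p (2 * m) h6
  obtain ⟨w3, g3, e3⟩ := harmonic_quarter p (p_ne_two hp)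
  obtain ⟨w4, g4, e4⟩ := harmonic_third p (2 * m) h6
  obtain ⟨w6, g6, e6⟩ := harmonic_half p (2 * m) h6
  obtain ⟨w7, g7, e7⟩ := harmonic_reflect p (5 * m) (p_ne_two hp) (by omega)
  obtain ⟨w8, g8, e8⟩ := harmonic_reflect p (4 * m) (p_ne_two hp) (by omega)
  obtain ⟨w5, g5, e5⟩ := odd_harmonic (p := p) (2 * m) h6 m (by omega)
  rw [show p / 4 = 3 * m by omega] at e3
  rw [show 2 * (2 * m) = 4 * m by ring] at e4
  rw [show 3 * (2 * m) = 6 * m by ring] at e6 e5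
  rw [show p - 1 - 5 * m = 7 * m by omega] at e7
  rw [show p - 1 - 4 * m = 8 * m by omega] at e8
  rw [show 6 * m - m = 5 * m by omega] at e5
  have h2m := harmonic_two_mul m
  refine ⟨w2, w3, w4, w6, w7, w8, -w5, g2, g3, g4, g6, g7, g8, (O p).neg_mem g5, ?_, ?_, ?_, ?_,
    ?_, ?_, ?_⟩
  · linear_combination e2
  · linear_combination e3
  · linear_combination e4
  · linear_combination e6
  · linear_combination e7
  · linear_combination e8
  · linear_combination (-1 : ℚ) * e5 - 2 * h2m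

/-- `T_A` for the argument 1/4 -/
theorem TA3_one (ε : ℚ) (hε : ε = 1 ∨ ε = -1) (h3 : cg p 1 ((3 : ℚ) ^ (3 * m)) ε) :
    ∃ E : ℚ, (27 / 16) ^ m * poch (1 / 3) (2 * m) / poch (1 / 6) (2 * m) =
      ε * (((6 * m).factorial : ℚ) / ((2 * m).factorial * (4 * m).factorial)) * E ∧
      Lg p E (-(3 / 4) * fq p 3) := by
  have hc := coprime12 (hp6 hp)
  have hm := m_pos hp
  obtain ⟨w2, w3, w4, w6, w7, w8, w5, g2, g3, g4, g6, g7, g8, g5, q2, q3, q4, q6, q7, q8, q5⟩ :=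
    harm_one hp
  obtain ⟨K, hK, lK⟩ := K_one hp
  obtain ⟨D, hD, lD⟩ := pow3_one hp ε hε h3
  have l2 := pow2_one hp
  obtain ⟨E1, h1, l1⟩ := poch_neg (p := p) (1 / 3) (mem12 hc 4 (by norm_num)) (4 * m) (2 * m)
    (by omega) (by omega)
  obtain ⟨E2, h2, l2'⟩ := poch_neg (p := p) (1 / 6) (mem12 hc 2 (by norm_num)) (2 * m) (2 * m)
    (by omega) (by omega)
  have e1 : (1 / 3 : ℚ) * p - ((4 * m : ℕ) : ℚ) = 1 / 3 := by rw [hp]; push_cast; ring
  have e2 : (1 / 6 : ℚ) * p - ((2 * m : ℕ) : ℚ) = 1 / 6 := by rw [hp]; push_cast; ring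
  rw [e1, show 4 * m - 2 * m = 2 * m by omega, Even.neg_one_pow (by exact ⟨m, by ring⟩)] at h1
  rw [e2, Nat.sub_self, Even.neg_one_pow (by exact ⟨m, by ring⟩)] at h2
  rw [show 4 * m - 2 * m = 2 * m by omega] at l1
  rw [Nat.sub_self] at l2'
  have n2 : ((2 * m).factorial : ℚ) ≠ 0 := by positivity
  have n4 : ((4 * m).factorial : ℚ) ≠ 0 := by positivity
  have n6 : ((6 * m).factorial : ℚ) ≠ 0 := by positivity
  have m2 := l2'.ne_zero
  have hpw : ((27 : ℚ) / 16) ^ m = 3 ^ (3 * m) / 2 ^ (4 * m) := by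
    rw [div_pow, pow_mul, pow_mul]; norm_num
  have hpw2 : (2 : ℚ) ^ (12 * m) = 2 ^ (4 * m) * 2 ^ (8 * m) := by rw [← pow_add]; ring_nf
  refine ⟨D * K * E1 / (2 ^ (12 * m) * E2), ?_,
    (((lD.mul lK).mul l1).div (l2.mul l2')).congr ?_⟩
  · rw [h1, h2, hpw, hD, hpw2]
    have n24 : (2 : ℚ) ^ (4 * m) ≠ 0 := by positivity
    have n28 : (2 : ℚ) ^ (8 * m) ≠ 0 := by positivity
    rw [Nat.factorial_zero]
    push_cast
    have hK' : ((4 * m).factorial : ℚ) = ((6 * m).factorial : ℚ) /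
        ((2 * m).factorial * (4 * m).factorial) / 2 ^ (8 * m) * K * ((2 * m).factorial) ^ 2 := by
      rw [← hK]; field_simp
    field_simp at hK' ⊢
    linear_combination (ε * D * E1) * hK'
  · rw [harmonic_zero, sub_zero]
    refine ⟨(1 / 12) * (8 * w4 - 6 * w6), ?_, ?_⟩
    · refine (O p).mul_mem (mem12 hc 1 (by norm_num)) ?_
      repeat' first
        | assumption
        | exact ofNat_mem' _
        | with_reducible apply (O p).add_mem
        | with_reducible apply (O p).sub_mem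
        | with_reducible apply (O p).mul_mem
        | with_reducible apply (O p).neg_mem
    · linear_combination (2 / 3 : ℚ) * q4 - (1 / 2 : ℚ) * q6

/-- `T_B` for the argument 4 -/
theorem TB1_one (ε : ℚ) (hε : ε = 1 ∨ ε = -1) (h3 : cg p 1 ((3 : ℚ) ^ (3 * m)) ε) :
    ∃ E : ℚ, (-(27 / 16)) ^ (3 * m) * poch (2 / 3) (2 * (3 * m)) / poch (1 / 2) (2 * (3 * m)) =
      (-1) ^ m * (ε * (((6 * m).factorial : ℚ) / ((2 * m).factorial * (4 * m).factorial))) * E ∧
      Lg p E (-(3 / 4) * fq p 3 - (4 / 3) * fq p 2) := by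
  have hc := coprime12 (hp6 hp)
  have hm := m_pos hp
  obtain ⟨w2, w3, w4, w6, w7, w8, w5, g2, g3, g4, g6, g7, g8, g5, q2, q3, q4, q6, q7, q8, q5⟩ :=
    harm_one hp
  obtain ⟨D, hD, lD⟩ := pow3_one hp ε hε h3
  have l2 := pow2_one hp
  obtain ⟨E6, h6, l6⟩ := poch_neg (p := p) (2 / 3) (mem12 hc 8 (by norm_num)) (8 * m) (6 * m)
    (by omega) (by omega)
  obtain ⟨E7, h7, l7⟩ := poch_neg (p := p) (1 / 2) (mem12 hc 6 (by norm_num)) (6 * m) (6 * m)
    (by omega) (by omega)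
  obtain ⟨E4, h4, l4⟩ := factorial_reflect (p := p) (4 * m) (by omega)
  obtain ⟨E5, h5, l5⟩ := factorial_reflect (p := p) (6 * m) (by omega)
  have e6 : (2 / 3 : ℚ) * p - ((8 * m : ℕ) : ℚ) = 2 / 3 := by rw [hp]; push_cast; ring
  have e7 : (1 / 2 : ℚ) * p - ((6 * m : ℕ) : ℚ) = 1 / 2 := by rw [hp]; push_cast; ring
  rw [e6, show 8 * m - 6 * m = 2 * m by omega, Even.neg_one_pow (by exact ⟨3 * m, by ring⟩)] at h6
  rw [e7, Nat.sub_self, Even.neg_one_pow (by exact ⟨3 * m, by ring⟩)] at h7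
  rw [show 8 * m - 6 * m = 2 * m by omega] at l6
  rw [Nat.sub_self] at l7
  rw [show p - 1 - 4 * m = 8 * m by omega, Even.neg_one_pow (by exact ⟨2 * m, by ring⟩)] at h4
  rw [show p - 1 - 6 * m = 6 * m by omega, Even.neg_one_pow (by exact ⟨3 * m, by ring⟩), h4] at h5
  have n2 : ((2 * m).factorial : ℚ) ≠ 0 := by positivity
  have n4 : ((4 * m).factorial : ℚ) ≠ 0 := by positivity
  have n6 : ((6 * m).factorial : ℚ) ≠ 0 := by positivity
  have m7 := l7.ne_zero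
  have m4 := l4.ne_zero
  have hpw : (-((27 : ℚ) / 16)) ^ (3 * m) = (-1) ^ m * ((3 ^ (3 * m)) ^ 3 / 2 ^ (12 * m)) := by
    rw [pw2, pow_mul (-1 : ℚ) 3 m, ← pow_mul (3 : ℚ) (3 * m) 3, show 3 * m * 3 = 3 * (3 * m) by ring,
      show 4 * (3 * m) = 12 * m by ring]
    norm_num
  have hεε : ε ^ 3 = ε := by rcases hε with h | h <;> rw [h] <;> norm_num
  refine ⟨D ^ 3 * E5 * E6 / (2 ^ (12 * m) * E4 * E7), ?_,
    ((((lD.pow 3).mul l5).mul l6).div ((l2.mul l4).mul l7)).congr ?_⟩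
  · rw [show 2 * (3 * m) = 6 * m by ring, h6, h7, hpw, hD, mul_pow, hεε]
    have n212 : (2 : ℚ) ^ (12 * m) ≠ 0 := by positivity
    rw [Nat.factorial_zero]
    push_cast
    field_simp
    linear_combination (ε * D ^ 3 * E6) * h5
  · rw [harmonic_zero, sub_zero]
    refine ⟨(1 / 12) * (8 * w2 + 4 * w4 - 8 * w8 - 6 * w6), ?_, ?_⟩
    · refine (O p).mul_mem (mem12 hc 1 (by norm_num)) ?_
      repeat' first
        | assumption
        | exact ofNat_mem' _
        | with_reducible apply (O p).add_mem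
        | with_reducible apply (O p).sub_mem
        | with_reducible apply (O p).mul_mem
        | with_reducible apply (O p).neg_mem
    · push_cast
      linear_combination (2 / 3 : ℚ) * q2 + (1 / 3 : ℚ) * q4 - (1 / 2 : ℚ) * q6 - (2 / 3 : ℚ) * q8

/-- `T_B` for the argument 1/4 -/
theorem TB3_one (ε : ℚ) (hε : ε = 1 ∨ ε = -1) (h3 : cg p 1 ((3 : ℚ) ^ (3 * m)) ε) :
    ∃ E : ℚ, (16 / 27) ^ (3 * m) * poch (3 / 2) (2 * (3 * m)) / poch (4 / 3) (2 * (3 * m)) =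
      ε * (((6 * m).factorial : ℚ) / ((2 * m).factorial * (4 * m).factorial)) * E ∧
      Lg p E (-(3 / 4) * fq p 3 + (8 / 3) * fq p 2) := by
  have hc := coprime12 (hp6 hp)
  have hm := m_pos hp
  obtain ⟨w2, w3, w4, w6, w7, w8, w5, g2, g3, g4, g6, g7, g8, g5, q2, q3, q4, q6, q7, q8, q5⟩ :=
    harm_one hp
  obtain ⟨D, hD, lD⟩ := pow3_one hp ε hε h3
  have l2 := pow2_one hp
  obtain ⟨E7, h7, l7⟩ := poch_neg (p := p) (1 / 2) (mem12 hc 6 (by norm_num)) (6 * m) (6 * m)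
    (by omega) (by omega)
  obtain ⟨E8, h8, l8⟩ := poch_cross (p := p) (1 / 3) (mem12 hc 4 (by norm_num)) (4 * m) (2 * m)
    (by omega) (by omega)
  have e7 : (1 / 2 : ℚ) * p - ((6 * m : ℕ) : ℚ) = 1 / 2 := by rw [hp]; push_cast; ring
  have e8 : (1 / 3 : ℚ) * p - ((4 * m : ℕ) : ℚ) = 1 / 3 := by rw [hp]; push_cast; ring
  rw [e7, Nat.sub_self, Even.neg_one_pow (by exact ⟨3 * m, by ring⟩)] at h7
  rw [Nat.sub_self] at l7
  rw [e8, Even.neg_one_pow (by exact ⟨2 * m, by ring⟩)] at h8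
  have n2 : ((2 * m).factorial : ℚ) ≠ 0 := by positivity
  have n4 : ((4 * m).factorial : ℚ) ≠ 0 := by positivity
  have n6 : ((6 * m).factorial : ℚ) ≠ 0 := by positivity
  have np : (p : ℚ) ≠ 0 := by
    have := (Fact.out : p.Prime).pos
    positivity
  have m8 := l8.ne_zero
  have mD := lD.ne_zero
  have hpw : ((16 : ℚ) / 27) ^ (3 * m) = 2 ^ (12 * m) / (3 ^ (3 * m)) ^ 3 := by
    rw [pw3, ← pow_mul, show 3 * m * 3 = 3 * (3 * m) by ring, show 4 * (3 * m) = 12 * m by ring]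
  have hεε : ε ^ 2 = 1 := by rcases hε with h | h <;> rw [h] <;> norm_num
  have hε0 : ε ≠ 0 := by rcases hε with h | h <;> rw [h] <;> norm_num
  -- shifted rising factorials
  have s1 : poch (3 / 2) (6 * m) = p * poch (1 / 2) (6 * m) := by
    have := poch_shift (1 / 2) (6 * m)
    rw [show (1 / 2 : ℚ) + 1 = 3 / 2 by norm_num] at this
    have e : (1 / 2 : ℚ) + ((6 * m : ℕ) : ℚ) = p / 2 := by rw [hp]; push_cast; ring
    rw [e] at this
    linear_combination 2 * this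
  have s2 : poch (4 / 3) (6 * m) = 3 * poch (1 / 3) (4 * m + 1 + 2 * m) := by
    have := poch_succ' (1 / 3) (6 * m)
    rw [show (1 / 3 : ℚ) + 1 = 4 / 3 by norm_num] at this
    rw [show 4 * m + 1 + 2 * m = 6 * m + 1 by ring, this]
    ring
  refine ⟨2 ^ (12 * m) * E7 / (D ^ 3 * E8), ?_,
    ((l2.mul l7).div ((lD.pow 3).mul l8)).congr ?_⟩
  · rw [show 2 * (3 * m) = 6 * m by ring, s1, s2, h7, h8, hpw, hD]
    rw [Nat.factorial_zero]
    push_cast
    field_simp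
    linear_combination (-E7 * (ε ^ 2 + 1)) * hεε
  · rw [harmonic_zero, sub_zero]
    refine ⟨(1 / 12) * (-(4 * w2) + 4 * w4 - 6 * w6), ?_, ?_⟩
    · refine (O p).mul_mem (mem12 hc 1 (by norm_num)) ?_
      repeat' first
        | assumption
        | exact ofNat_mem' _
        | with_reducible apply (O p).add_mem
        | with_reducible apply (O p).sub_mem
        | with_reducible apply (O p).mul_mem
        | with_reducible apply (O p).neg_mem
    · push_cast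
      linear_combination (-(1 / 3) : ℚ) * q2 + (1 / 3 : ℚ) * q4 - (1 / 2 : ℚ) * q6

/-- `T_a` for the argument -8 -/
theorem Ta_one (ε : ℚ) (hε : ε = 1 ∨ ε = -1) (h3 : cg p 1 ((3 : ℚ) ^ (3 * m)) ε) :
    ∃ E : ℚ, (27 / 4) ^ (3 * m) * (poch (1 / 3) (3 * m) * poch (5 / 12) (3 * m)) /
        (poch (1 / 4) (3 * m) * poch (1 / 2) (3 * m)) =
      (-1) ^ m * (ε * (((6 * m).factorial : ℚ) / ((2 * m).factorial * (4 * m).factorial))) * E ∧
      Lg p E (3 / 4 * fq p 3 - fq p 2 + 1 / 3 * harmonic m - 1 / 12 * harmonic (2 * m) -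
        1 / 4 * harmonic (3 * m) + 2 / 3 * harmonic (4 * m) + 1 / 12 * harmonic (5 * m) -
        1 / 2 * harmonic (6 * m)) := by
  have hc := coprime12 (hp6 hp)
  have hm := m_pos hp
  obtain ⟨K, hK, lK⟩ := K_one hp
  obtain ⟨D, hD, lD⟩ := pow3_one hp ε hε h3
  have l2 := pow2_one hp
  obtain ⟨E9, h9, l9⟩ := poch_neg (p := p) (1 / 3) (mem12 hc 4 (by norm_num)) (4 * m) (3 * m)
    (by omega) (by omega)
  obtain ⟨E10, h10, l10⟩ := poch_neg (p := p) (5 / 12) (mem12 hc 5 (by norm_num)) (5 * m) (3 * m)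
    (by omega) (by omega)
  obtain ⟨E11, h11, l11⟩ := poch_neg (p := p) (1 / 4) (mem12 hc 3 (by norm_num)) (3 * m) (3 * m)
    (by omega) (by omega)
  obtain ⟨E12, h12, l12⟩ := poch_neg (p := p) (1 / 2) (mem12 hc 6 (by norm_num)) (6 * m) (3 * m)
    (by omega) (by omega)
  obtain ⟨E13, h13, l13⟩ := poch_neg (p := p) (1 / 2) (mem12 hc 6 (by norm_num)) (6 * m) m
    (by omega) (by omega)
  have e9 : (1 / 3 : ℚ) * p - ((4 * m : ℕ) : ℚ) = 1 / 3 := by rw [hp]; push_cast; ring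
  have e10 : (5 / 12 : ℚ) * p - ((5 * m : ℕ) : ℚ) = 5 / 12 := by rw [hp]; push_cast; ring
  have e11 : (1 / 4 : ℚ) * p - ((3 * m : ℕ) : ℚ) = 1 / 4 := by rw [hp]; push_cast; ring
  have e12 : (1 / 2 : ℚ) * p - ((6 * m : ℕ) : ℚ) = 1 / 2 := by rw [hp]; push_cast; ring
  have esgn : (-1 : ℚ) ^ (3 * m) = (-1) ^ m := by rw [pow_mul]; norm_num
  have esq : ((-1 : ℚ) ^ m) ^ 2 = 1 := by rw [← pow_mul, mul_comm, pow_mul]; norm_num
  rw [e9, show 4 * m - 3 * m = m by omega, esgn] at h9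
  rw [show 4 * m - 3 * m = m by omega] at l9
  rw [e10, show 5 * m - 3 * m = 2 * m by omega, esgn] at h10
  rw [show 5 * m - 3 * m = 2 * m by omega] at l10
  rw [e11, Nat.sub_self, esgn] at h11
  rw [Nat.sub_self] at l11
  rw [e12, show 6 * m - 3 * m = 3 * m by omega, esgn] at h12
  rw [show 6 * m - 3 * m = 3 * m by omega] at l12
  rw [e12, show 6 * m - m = 5 * m by omega] at h13
  rw [show 6 * m - m = 5 * m by omega] at l13
  have hd := two_factorial m
  rw [h13] at hd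
  have n1 : (m.factorial : ℚ) ≠ 0 := by positivity
  have n2 : ((2 * m).factorial : ℚ) ≠ 0 := by positivity
  have n3 : ((3 * m).factorial : ℚ) ≠ 0 := by positivity
  have n4 : ((4 * m).factorial : ℚ) ≠ 0 := by positivity
  have n5 : ((5 * m).factorial : ℚ) ≠ 0 := by positivity
  have n6 : ((6 * m).factorial : ℚ) ≠ 0 := by positivity
  have m11 := l11.ne_zero
  have m12 := l12.ne_zero
  have hpw : ((27 : ℚ) / 4) ^ (3 * m) = (3 ^ (3 * m)) ^ 3 / 2 ^ (6 * m) := by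
    rw [pw4, ← pow_mul (3 : ℚ) (3 * m) 3, show 3 * m * 3 = 3 * (3 * m) by ring,
      show 2 * (3 * m) = 6 * m by ring]
  have hεε : ε ^ 3 = ε := by rcases hε with h | h <;> rw [h] <;> norm_num
  have x4 : (4 : ℚ) ^ m = (2 ^ m) ^ 2 := by rw [← pow_mul, mul_comm, pow_mul]; norm_num
  have x6 : (2 : ℚ) ^ (6 * m) = (2 ^ m) ^ 6 := by rw [← pow_mul, mul_comm]
  have x8 : (2 : ℚ) ^ (8 * m) = (2 ^ m) ^ 8 := by rw [← pow_mul, mul_comm]
  have x12 : (2 : ℚ) ^ (12 * m) = (2 ^ m) ^ 12 := by rw [← pow_mul, mul_comm]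
  have nx : (2 : ℚ) ^ m ≠ 0 := by positivity
  rw [x8] at hK
  rw [x4] at hd
  rw [x12] at l2
  rw [x6] at hpw
  have hs2 : ((-1 : ℚ) ^ m) ≠ 0 := by positivity
  refine ⟨D ^ 3 * K * E9 * E10 * E13 / ((2 ^ m) ^ 12 * E11 * E12), ?_,
    (((((lD.pow 3).mul lK).mul l9).mul l10).mul l13 |>.div ((l2.mul l11).mul l12)).eq rfl ?_⟩
  · rw [h9, h10, h11, h12, hpw, hD, mul_pow, hεε, Nat.factorial_zero]
    generalize (2 : ℚ) ^ m = x at *
    generalize (-1 : ℚ) ^ m = s at *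
    have hK' : ((4 * m).factorial : ℚ) ^ 2 * x ^ 8 =
        ((6 * m).factorial : ℚ) * (2 * m).factorial * K := by
      field_simp at hK
      linear_combination hK
    have hd' : ((2 * m).factorial : ℚ) * (5 * m).factorial =
        x ^ 2 * m.factorial * s * (6 * m).factorial * E13 := by
      rw [hd]
      field_simp
    push_cast
    field_simp
    apply mul_left_cancel₀ (pow_ne_zero 2 nx)
    linear_combination (ε * D ^ 3 * E9 * E10) *
      (((5 * m).factorial : ℚ) * hK' + ((6 * m).factorial : ℚ) * K * hd')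
  · rw [harmonic_zero, sub_zero]
    push_cast
    ring

/-- `T_b` for the argument -8 -/
theorem Tb_one (ε : ℚ) (hε : ε = 1 ∨ ε = -1) (h3 : cg p 1 ((3 : ℚ) ^ (3 * m)) ε) :
    ∃ E : ℚ, (27 / 4) ^ (2 * m) * (poch (1 / 4) (2 * m) * poch (1 / 3) (2 * m)) /
        (poch (1 / 6) (2 * m) * poch (5 / 12) (2 * m)) =
      (-1) ^ m * (ε * (((6 * m).factorial : ℚ) / ((2 * m).factorial * (4 * m).factorial))) * E ∧
      Lg p E (3 / 4 * fq p 3 - fq p 2 + 1 / 4 * harmonic m - 1 / 3 * harmonic (3 * m) +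
        2 / 3 * harmonic (4 * m) + 1 / 12 * harmonic (5 * m) - 1 / 2 * harmonic (6 * m)) := by
  have hc := coprime12 (hp6 hp)
  have hm := m_pos hp
  obtain ⟨w2, w3, w4, w6, w7, w8, w5, g2, g3, g4, g6, g7, g8, g5, q2, q3, q4, q6, q7, q8, q5⟩ :=
    harm_one hp
  obtain ⟨K, hK, lK⟩ := K_one hp
  obtain ⟨D, hD, lD⟩ := pow3_one hp ε hε h3
  have l2 := pow2_one hp
  obtain ⟨E14, h14, l14⟩ := poch_neg (p := p) (1 / 4) (mem12 hc 3 (by norm_num)) (3 * m) (2 * m)
    (by omega) (by omega)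
  obtain ⟨E1, h1, l1⟩ := poch_neg (p := p) (1 / 3) (mem12 hc 4 (by norm_num)) (4 * m) (2 * m)
    (by omega) (by omega)
  obtain ⟨E2, h2, l2'⟩ := poch_neg (p := p) (1 / 6) (mem12 hc 2 (by norm_num)) (2 * m) (2 * m)
    (by omega) (by omega)
  obtain ⟨E15, h15, l15⟩ := poch_neg (p := p) (5 / 12) (mem12 hc 5 (by norm_num)) (5 * m) (2 * m)
    (by omega) (by omega)
  obtain ⟨E16, h16, l16⟩ := poch_neg (p := p) (1 / 3) (mem12 hc 4 (by norm_num)) (4 * m) m
    (by omega) (by omega)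
  obtain ⟨E17, h17, l17⟩ := poch_neg (p := p) (2 / 3) (mem12 hc 8 (by norm_num)) (8 * m) m
    (by omega) (by omega)
  obtain ⟨E18, h18, l18⟩ := factorial_reflect (p := p) (5 * m) (by omega)
  obtain ⟨E4, h4, l4⟩ := factorial_reflect (p := p) (4 * m) (by omega)
  have e14 : (1 / 4 : ℚ) * p - ((3 * m : ℕ) : ℚ) = 1 / 4 := by rw [hp]; push_cast; ring
  have e1 : (1 / 3 : ℚ) * p - ((4 * m : ℕ) : ℚ) = 1 / 3 := by rw [hp]; push_cast; ring
  have e2 : (1 / 6 : ℚ) * p - ((2 * m : ℕ) : ℚ) = 1 / 6 := by rw [hp]; push_cast; ring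
  have e15 : (5 / 12 : ℚ) * p - ((5 * m : ℕ) : ℚ) = 5 / 12 := by rw [hp]; push_cast; ring
  have e17 : (2 / 3 : ℚ) * p - ((8 * m : ℕ) : ℚ) = 2 / 3 := by rw [hp]; push_cast; ring
  have ev : (-1 : ℚ) ^ (2 * m) = 1 := by rw [pow_mul]; norm_num
  have ev4 : (-1 : ℚ) ^ (4 * m) = 1 := by rw [pow_mul]; norm_num
  have ev5 : (-1 : ℚ) ^ (5 * m) = (-1) ^ m := by rw [pow_mul]; norm_num
  rw [e14, show 3 * m - 2 * m = m by omega, ev] at h14
  rw [show 3 * m - 2 * m = m by omega] at l14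
  rw [e1, show 4 * m - 2 * m = 2 * m by omega, ev] at h1
  rw [show 4 * m - 2 * m = 2 * m by omega] at l1
  rw [e2, Nat.sub_self, ev] at h2
  rw [Nat.sub_self] at l2'
  rw [e15, show 5 * m - 2 * m = 3 * m by omega, ev] at h15
  rw [show 5 * m - 2 * m = 3 * m by omega] at l15
  rw [e1, show 4 * m - m = 3 * m by omega] at h16
  rw [show 4 * m - m = 3 * m by omega] at l16
  rw [e17, show 8 * m - m = 7 * m by omega] at h17
  rw [show 8 * m - m = 7 * m by omega] at l17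
  rw [show p - 1 - 5 * m = 7 * m by omega, ev5] at h18
  rw [show p - 1 - 4 * m = 8 * m by omega, ev4, h18] at h4
  have ht := three_factorial m
  rw [h16, h17] at ht
  have n1 : (m.factorial : ℚ) ≠ 0 := by positivity
  have n2 : ((2 * m).factorial : ℚ) ≠ 0 := by positivity
  have n3 : ((3 * m).factorial : ℚ) ≠ 0 := by positivity
  have n4 : ((4 * m).factorial : ℚ) ≠ 0 := by positivity
  have n5 : ((5 * m).factorial : ℚ) ≠ 0 := by positivity
  have n6 : ((6 * m).factorial : ℚ) ≠ 0 := by positivity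
  have n7 : ((7 * m).factorial : ℚ) ≠ 0 := by positivity
  have n8 : ((8 * m).factorial : ℚ) ≠ 0 := by positivity
  have m2 := l2'.ne_zero
  have m15 := l15.ne_zero
  have m4 := l4.ne_zero
  have hpw : ((27 : ℚ) / 4) ^ (2 * m) = (3 ^ (3 * m)) ^ 2 / 2 ^ (4 * m) := by
    rw [pw4, ← pow_mul (3 : ℚ) (3 * m) 2, show 3 * m * 2 = 3 * (2 * m) by ring,
      show 2 * (2 * m) = 4 * m by ring]
  have x27 : (27 : ℚ) ^ m = 3 ^ (3 * m) := by rw [pow_mul]; norm_num
  have x4 : (2 : ℚ) ^ (4 * m) = (2 ^ m) ^ 4 := by rw [← pow_mul, mul_comm]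
  have x8 : (2 : ℚ) ^ (8 * m) = (2 ^ m) ^ 8 := by rw [← pow_mul, mul_comm]
  have x12 : (2 : ℚ) ^ (12 * m) = (2 ^ m) ^ 12 := by rw [← pow_mul, mul_comm]
  have nx : (2 : ℚ) ^ m ≠ 0 := by positivity
  have esq : ((-1 : ℚ) ^ m) ^ 2 = 1 := by rw [← pow_mul, mul_comm, pow_mul]; norm_num
  have hs2 : ((-1 : ℚ) ^ m) ≠ 0 := by positivity
  have hεε : ε ^ 2 = 1 := by rcases hε with h | h <;> rw [h] <;> norm_num
  rw [x8] at hK
  rw [x27, hD] at ht
  rw [x12] at l2
  rw [x4] at hpw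
  refine ⟨D ^ 3 * K * E14 * E1 * E16 * E17 * E18 / ((2 ^ m) ^ 12 * E2 * E15 * E4), ?_,
    (((((((lD.pow 3).mul lK).mul l14).mul l1).mul l16).mul l17).mul l18 |>.div
      (((l2.mul l2').mul l15).mul l4)).congr ?_⟩
  · rw [h14, h1, h2, h15, hpw, hD, Nat.factorial_zero]
    generalize (2 : ℚ) ^ m = x at *
    generalize (-1 : ℚ) ^ m = s at *
    have hK' : ((4 * m).factorial : ℚ) ^ 2 * x ^ 8 =
        ((6 * m).factorial : ℚ) * (2 * m).factorial * K := by
      field_simp at hK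
      linear_combination hK
    have h4' : ((8 * m).factorial : ℚ) * (4 * m).factorial * E4 =
        (7 * m).factorial * (s * (5 * m).factorial) * E18 := by
      linear_combination -h4
    have ht' : ((3 * m).factorial : ℚ) ^ 2 * E4 =
        s * ε * D * m.factorial * (5 * m).factorial * E16 * E17 * E18 := by
      field_simp at ht
      apply mul_left_cancel₀ n7
      linear_combination E4 * ht + (ε * D * m.factorial * s ^ 2 * E16 * E17) * h4' +
        ((7 * m).factorial * ε * D * m.factorial * s * E16 * E17 * (5 * m).factorial * E18) * esq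
    push_cast
    field_simp
    linear_combination (ε ^ 2 * D ^ 2 * E14 * E1 * (3 * m).factorial ^ 2 * E4) * hK' +
      (ε ^ 2 * D ^ 2 * E14 * E1 * (6 * m).factorial * (2 * m).factorial * K) * ht' +
      (ε * D ^ 3 * E14 * E1 * (6 * m).factorial * (2 * m).factorial * K * s * m.factorial *
        (5 * m).factorial * E16 * E17 * E18) * hεε
  · rw [harmonic_zero]
    refine ⟨(1 / 12) * (8 * w7 - 8 * w8), ?_, ?_⟩
    · refine (O p).mul_mem (mem12 hc 1 (by norm_num)) ?_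
      repeat' first
        | assumption
        | exact ofNat_mem' _
        | with_reducible apply (O p).add_mem
        | with_reducible apply (O p).sub_mem
        | with_reducible apply (O p).mul_mem
        | with_reducible apply (O p).neg_mem
    · push_cast
      linear_combination (2 / 3 : ℚ) * q7 - (2 / 3 : ℚ) * q8

end one

end Pool.Agent.SC
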