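import Pool.Agent.Work.MP_5b0587_nt.Eval1

/-!
Evaluation modulo `p ^ 2` of the closed forms for primes `p = 12 m + 7`.
-/

namespace Pool.Agent.SC

open Finset

variable {p : ℕ} [Fact p.Prime] {m : ℕ} (hp : p = 12 * m + 7)

include hp

omit [Fact p.Prime] in
theorem hp6' : p = 6 * (2 * m + 1) + 1 := by omega

omit [Fact p.Prime] in
theorem p_ne_two' : p ≠ 2 := by omega

/-- `e = -3 ^ (6m+3)` is a one-unit -/
theorem pow3_seven (h3 : cg p 1 ((3 : ℚ) ^ (6 * m + 3)) (-1)) :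
    Lg p (-27 * ((3 : ℚ) ^ m) ^ 6) (fq p 3 / 2) := by
  have h2 : IsU p ((2 : ℕ) : ℚ) := by
    have := (isU_two (p := p) (p_ne_two' hp))
    exact_mod_cast this
  have e0 : (3 : ℚ) ^ (6 * m + 3) = 27 * ((3 : ℚ) ^ m) ^ 6 := by
    rw [pow_add, mul_comm 6 m, pow_mul]; norm_num; ring
  rw [e0] at h3
  have hc : cg p 1 (-27 * ((3 : ℚ) ^ m) ^ 6) 1 := by
    have := h3.neg
    refine (cg.of_eq (by ring)).trans (this.trans (cg.of_eq (by ring)))
  have hfq : fq p 3 ∈ O p := fq_mem p 3 (coprime_lit (hp6' hp) (by norm_num))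
  have h5 : Lg p ((-27 * ((3 : ℚ) ^ m) ^ 6) ^ 2) (fq p 3) := by
    refine (Lg.mk hfq).eq ?_ rfl
    have e1 := fq_eq p 3
    have e2 : p - 1 = (6 * m + 3) * 2 := by omega
    rw [e2, pow_mul] at e1
    push_cast at e1
    rw [e0] at e1
    linear_combination -e1
  have := Lg.root h2 hc h5
  exact this.eq rfl (by norm_num)

theorem pow2_seven : Lg p (64 * ((2 : ℚ) ^ m) ^ 12) (fq p 2) := by
  have hfq : fq p 2 ∈ O p := fq_mem p 2 (coprime_lit (hp6' hp) (by norm_num))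
  refine (Lg.mk hfq).eq ?_ rfl
  have e1 := fq_eq p 2
  have e2 : p - 1 = m * 12 + 6 := by omega
  rw [e2, pow_add, pow_mul] at e1
  push_cast at e1 ⊢
  linear_combination -e1

theorem harm_seven : ∃ w1 w2 w3 w4 w5 w6 w7 w8 w9 w10 w11 : ℚ,
      w1 ∈ O p ∧ w2 ∈ O p ∧ w3 ∈ O p ∧ w4 ∈ O p ∧ w5 ∈ O p ∧ w6 ∈ O p ∧
      w7 ∈ O p ∧ w8 ∈ O p ∧ w9 ∈ O p ∧ w10 ∈ O p ∧ w11 ∈ O p ∧
      harmonic (2 * m + 1) = -2 * fq p 2 - (3 / 2) * fq p 3 + p * w1 ∧
      harmonic (4 * m + 2) = -(3 / 2) * fq p 3 + p * w2 ∧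
      harmonic (6 * m + 3) = -2 * fq p 2 + p * w3 ∧
      harmonic (3 * m + 1) = -3 * fq p 2 + p * w4 ∧
      harmonic (8 * m + 4) = harmonic (4 * m + 2) + p * w5 ∧
      harmonic (10 * m + 5) = harmonic (2 * m + 1) + p * w6 ∧
      harmonic (12 * m + 6) = 0 + p * w7 ∧
      harmonic (9 * m + 5) = harmonic (3 * m + 1) + p * w8 ∧
      harmonic (11 * m + 6) = harmonic m + p * w9 ∧
      harmonic (7 * m + 4) = harmonic (5 * m + 2) + p * w10 ∧
      harmonic (5 * m + 2) + harmonic m =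
        2 * harmonic (2 * m + 1) + harmonic (6 * m + 3) + p * w11 := by
  have h6 := hp6' hp
  obtain ⟨w1, g1, e1⟩ := harmonic_sixth p (2 * m + 1) h6
  obtain ⟨w2, g2, e2⟩ := harmonic_third p (2 * m + 1) h6
  obtain ⟨w3, g3, e3⟩ := harmonic_half p (2 * m + 1) h6
  obtain ⟨w4, g4, e4⟩ := harmonic_quarter p (p_ne_two' hp)
  obtain ⟨w5, g5, e5⟩ := harmonic_reflect p (4 * m + 2) (p_ne_two' hp) (by omega)
  obtain ⟨w6, g6, e6⟩ := harmonic_reflect p (2 * m + 1) (p_ne_two' hp) (by omega)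
  obtain ⟨w7, g7, e7⟩ := harmonic_reflect p 0 (p_ne_two' hp) (by omega)
  obtain ⟨w8, g8, e8⟩ := harmonic_reflect p (3 * m + 1) (p_ne_two' hp) (by omega)
  obtain ⟨w9, g9, e9⟩ := harmonic_reflect p m (p_ne_two' hp) (by omega)
  obtain ⟨w10, g10, e10⟩ := harmonic_reflect p (5 * m + 2) (p_ne_two' hp) (by omega)
  obtain ⟨w11, g11, e11⟩ := odd_harmonic (p := p) (2 * m + 1) h6 (m + 1) (by omega)
  rw [show 2 * (2 * m + 1) = 4 * m + 2 by ring] at e2
  rw [show 3 * (2 * m + 1) = 6 * m + 3 by ring] at e3 e11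
  rw [show p / 4 = 3 * m + 1 by omega] at e4
  rw [show p - 1 - (4 * m + 2) = 8 * m + 4 by omega] at e5
  rw [show p - 1 - (2 * m + 1) = 10 * m + 5 by omega] at e6
  rw [show p - 1 - 0 = 12 * m + 6 by omega, harmonic_zero] at e7
  rw [show p - 1 - (3 * m + 1) = 9 * m + 5 by omega] at e8
  rw [show p - 1 - m = 11 * m + 6 by omega] at e9
  rw [show p - 1 - (5 * m + 2) = 7 * m + 4 by omega] at e10
  rw [show 6 * m + 3 - (m + 1) = 5 * m + 2 by omega, sum_range_succ] at e11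
  have h2m := harmonic_two_mul m
  have h2m1 := harmonic_succ' (2 * m)
  push_cast at h2m1
  refine ⟨w1, w2, w3, w4, w5, w6, w7, w8, w9, w10, -w11, g1, g2, g3, g4, g5, g6, g7, g8, g9, g10,
    (O p).neg_mem g11, ?_, ?_, ?_, ?_, ?_, ?_, ?_, ?_, ?_, ?_, ?_⟩
  · linear_combination e1
  · linear_combination e2
  · linear_combination e3
  · linear_combination e4
  · linear_combination e5
  · linear_combination e6
  · linear_combination e7
  · linear_combination e8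
  · linear_combination e9
  · linear_combination e10
  · linear_combination (-1 : ℚ) * e11 - 2 * h2m - 2 * h2m1

/-- the quotient of `binom(2r,r)` by `binom(3r,r)` -/
theorem K_seven : ∃ E : ℚ, (((4 * m + 2).factorial : ℚ)) ^ 2 * (16 * ((2 : ℚ) ^ m) ^ 8) =
      -((2 * m + 1).factorial * (6 * m + 3).factorial) * E ∧
      Lg p E (-(1 / 2) * harmonic (6 * m + 3) - (1 / 2) * harmonic (2 * m + 1) +
        harmonic (4 * m + 2)) := by
  have hc := coprime12 (hp6' hp)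
  obtain ⟨E17, h17, l17⟩ := poch_neg (p := p) (1 / 2) (mem12 hc 6 (by norm_num)) (6 * m + 3)
    (4 * m + 2) (by omega) (by omega)
  obtain ⟨E18, h18, l18⟩ := factorial_reflect (p := p) (4 * m + 2) (by omega)
  obtain ⟨E19, h19, l19⟩ := factorial_reflect (p := p) (6 * m + 3) (by omega)
  have e0 : (1 / 2 : ℚ) * p - ((6 * m + 3 : ℕ) : ℚ) = 1 / 2 := by rw [hp]; push_cast; ring
  have ev : (-1 : ℚ) ^ (4 * m + 2) = 1 := Even.neg_one_pow ⟨2 * m + 1, by ring⟩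
  have od : (-1 : ℚ) ^ (6 * m + 3) = -1 := Odd.neg_one_pow ⟨3 * m + 1, by ring⟩
  rw [e0, show 6 * m + 3 - (4 * m + 2) = 2 * m + 1 by omega, ev] at h17
  rw [show 6 * m + 3 - (4 * m + 2) = 2 * m + 1 by omega] at l17
  rw [show p - 1 - (4 * m + 2) = 8 * m + 4 by omega, ev] at h18
  rw [show p - 1 - (6 * m + 3) = 6 * m + 3 by omega, od, h18] at h19
  have h8 := two_factorial (4 * m + 2)
  rw [h17, show 2 * (4 * m + 2) = 8 * m + 4 by ring] at h8
  have n2 : ((2 * m + 1).factorial : ℚ) ≠ 0 := by positivity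
  have n4 : ((4 * m + 2).factorial : ℚ) ≠ 0 := by positivity
  have n6 : ((6 * m + 3).factorial : ℚ) ≠ 0 := by positivity
  have m17 := l17.ne_zero
  have m18 := l18.ne_zero
  have m19 := l19.ne_zero
  refine ⟨E19 / (E17 * E18), ?_, (l19.div (l17.mul l18)).eq rfl (by ring)⟩
  rw [h8] at h19
  have e4 : (4 : ℚ) ^ (4 * m + 2) = 16 * (2 ^ m) ^ 8 := by
    rw [show (4 : ℚ) = 2 ^ 2 by norm_num, ← pow_mul, ← pow_mul]
    ring_nf
  rw [e4] at h19
  have nx : (2 : ℚ) ^ m ≠ 0 := by positivity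
  field_simp at h19 ⊢
  linear_combination h19

/-- the quotient of `binom(4r,r)` by `binom(3r,r)` -/
theorem R_seven : ∃ E : ℚ, ((8 * m + 4).factorial : ℚ) * (4 * m + 2).factorial =
      -((6 * m + 3).factorial) ^ 2 * E ∧
      Lg p E (-harmonic (6 * m + 3) + harmonic (4 * m + 2)) := by
  have hc := coprime12 (hp6' hp)
  obtain ⟨E3, h3, l3⟩ := poch_neg (p := p) 1 (O p).one_mem (6 * m + 3) (2 * m + 1)
    (by omega) (by omega)
  have e0 : (1 : ℚ) * p - ((6 * m + 3 : ℕ) : ℚ) = ((6 * m + 3 : ℕ) : ℚ) + 1 := by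
    rw [hp]; push_cast; ring
  have od : (-1 : ℚ) ^ (2 * m + 1) = -1 := Odd.neg_one_pow ⟨m, by ring⟩
  rw [e0, show 6 * m + 3 - (2 * m + 1) = 4 * m + 2 by omega, od] at h3
  rw [show 6 * m + 3 - (2 * m + 1) = 4 * m + 2 by omega] at l3
  have h8 := factorial_poch (6 * m + 3) (2 * m + 1)
  rw [h3, show 6 * m + 3 + (2 * m + 1) = 8 * m + 4 by ring] at h8
  have n4 : ((4 * m + 2).factorial : ℚ) ≠ 0 := by positivity
  refine ⟨E3, ?_, l3.eq rfl (by ring)⟩
  rw [h8]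
  field_simp

/-- common core of the evaluations of `T_A` -/
theorem X_seven (h3 : cg p 1 ((3 : ℚ) ^ (6 * m + 3)) (-1)) :
    ∃ E : ℚ, (27 / 16) ^ (3 * m + 1) * poch (5 / 3) (2 * (3 * m + 1)) /
        poch (3 / 2) (2 * (3 * m + 1)) =
      (3 : ℚ) ^ (3 * m + 2) *
        (((6 * m + 3).factorial : ℚ) / ((2 * m + 1).factorial * (4 * m + 2).factorial)) * E / 3 ∧
      Lg p E (-(4 / 3) * fq p 2 - fq p 3) := by
  have hc := coprime12 (hp6' hp)
  obtain ⟨w1, w2, w3, w4, w5, w6, w7, w8, w9, w10, w11, g1, g2, g3, g4, g5, g6, g7, g8, g9, g10,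
    g11, q1, q2, q3, q4, q5, q6, q7, q8, q9, q10, q11⟩ := harm_seven hp
  have l3 := pow3_seven hp h3
  have l2 := pow2_seven hp
  obtain ⟨R, hR, lR⟩ := R_seven hp
  obtain ⟨E1, h1, l1⟩ := poch_neg (p := p) (2 / 3) (mem12 hc 8 (by norm_num)) (8 * m + 4)
    (6 * m + 3) (by omega) (by omega)
  obtain ⟨E2, h2, l2'⟩ := poch_neg (p := p) (1 / 2) (mem12 hc 6 (by norm_num)) (6 * m + 3)
    (6 * m + 3) (by omega) (by omega)
  have e1 : (2 / 3 : ℚ) * p - ((8 * m + 4 : ℕ) : ℚ) = 2 / 3 := by rw [hp]; push_cast; ring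
  have e2 : (1 / 2 : ℚ) * p - ((6 * m + 3 : ℕ) : ℚ) = 1 / 2 := by rw [hp]; push_cast; ring
  have od : (-1 : ℚ) ^ (6 * m + 3) = -1 := Odd.neg_one_pow ⟨3 * m + 1, by ring⟩
  rw [e1, show 8 * m + 4 - (6 * m + 3) = 2 * m + 1 by omega, od] at h1
  rw [show 8 * m + 4 - (6 * m + 3) = 2 * m + 1 by omega] at l1
  rw [e2, Nat.sub_self, od, Nat.factorial_zero] at h2
  rw [Nat.sub_self, harmonic_zero] at l2'
  have s1 : poch (5 / 3) (6 * m + 2) = 3 / 2 * poch (2 / 3) (6 * m + 3) := by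
    have := poch_succ' (2 / 3) (6 * m + 2)
    rw [show (2 / 3 : ℚ) + 1 = 5 / 3 by norm_num] at this
    rw [this]; ring
  have s2 : poch (3 / 2) (6 * m + 2) = 2 * poch (1 / 2) (6 * m + 3) := by
    have := poch_succ' (1 / 2) (6 * m + 2)
    rw [show (1 / 2 : ℚ) + 1 = 3 / 2 by norm_num] at this
    rw [this]; ring
  have n2 : ((2 * m + 1).factorial : ℚ) ≠ 0 := by positivity
  have n4 : ((4 * m + 2).factorial : ℚ) ≠ 0 := by positivity
  have n6 : ((6 * m + 3).factorial : ℚ) ≠ 0 := by positivity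
  have m2 := l2'.ne_zero
  have nx : (2 : ℚ) ^ m ≠ 0 := by positivity
  have ny : (3 : ℚ) ^ m ≠ 0 := by positivity
  have hpw : ((27 : ℚ) / 16) ^ (3 * m + 1) = 27 * (3 ^ m) ^ 9 / (16 * (2 ^ m) ^ 12) := by
    rw [pw1, ← pow_mul (3 : ℚ) m 9, ← pow_mul (2 : ℚ) m 12,
      show 3 * (3 * m + 1) = m * 9 + 3 by ring, show 4 * (3 * m + 1) = m * 12 + 4 by ring, pow_add,
      pow_add]
    norm_num
    ring
  have hth : (3 : ℚ) ^ (3 * m + 2) = 9 * (3 ^ m) ^ 3 := by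
    rw [pow_add, mul_comm 3 m, pow_mul]; norm_num; ring
  refine ⟨(-27 * ((3 : ℚ) ^ m) ^ 6) * E1 * R / ((64 * ((2 : ℚ) ^ m) ^ 12) * E2), ?_,
    ((((l3.mul l1).mul lR).div (l2.mul l2'))).congr ?_⟩
  · rw [show 2 * (3 * m + 1) = 6 * m + 2 by ring, s1, s2, h1, h2, hpw, hth]
    push_cast
    field_simp
    linear_combination (576 * E1) * hR
  · refine ⟨(1 / 12) * (12 * w2 - 6 * w3 + 8 * w1 - 8 * w2 - 8 * w5), ?_, ?_⟩
    · refine (O p).mul_mem (mem12 hc 1 (by norm_num)) ?_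
      repeat' first
        | assumption
        | exact ofNat_mem' _
        | with_reducible apply (O p).add_mem
        | with_reducible apply (O p).sub_mem
        | with_reducible apply (O p).mul_mem
    · linear_combination (1 / 3 : ℚ) * q2 - (1 / 2 : ℚ) * q3 + (2 / 3 : ℚ) * q1 - (2 / 3 : ℚ) * q5

/-- `T_B` for the argument 4 -/
theorem TB1_seven (h3 : cg p 1 ((3 : ℚ) ^ (6 * m + 3)) (-1)) :
    ∃ E : ℚ, (-(27 / 16)) ^ (9 * m + 5) * poch (2 / 3) (2 * (9 * m + 5)) /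
        poch (1 / 2) (2 * (9 * m + 5)) =
      (-1) ^ m * ((3 : ℚ) ^ (3 * m + 2) *
        (((6 * m + 3).factorial : ℚ) / ((2 * m + 1).factorial * (4 * m + 2).factorial))) * E ∧
      Lg p E (-(16 / 3) * fq p 2 - fq p 3) := by
  have hc := coprime12 (hp6' hp)
  obtain ⟨w1, w2, w3, w4, w5, w6, w7, w8, w9, w10, w11, g1, g2, g3, g4, g5, g6, g7, g8, g9, g10,
    g11, q1, q2, q3, q4, q5, q6, q7, q8, q9, q10, q11⟩ := harm_seven hp
  have l3 := pow3_seven hp h3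
  have l2 := pow2_seven hp
  obtain ⟨R, hR, lR⟩ := R_seven hp
  obtain ⟨E4, h4, l4⟩ := poch_cross (p := p) (2 / 3) (mem12 hc 8 (by norm_num)) (8 * m + 4)
    (10 * m + 5) (by omega) (by omega)
  obtain ⟨E5, h5, l5⟩ := poch_cross (p := p) (1 / 2) (mem12 hc 6 (by norm_num)) (6 * m + 3)
    (12 * m + 6) (by omega) (by omega)
  obtain ⟨E6, h6, l6⟩ := factorial_reflect (p := p) (2 * m + 1) (by omega)
  have e4 : (2 / 3 : ℚ) * p - ((8 * m + 4 : ℕ) : ℚ) = 2 / 3 := by rw [hp]; push_cast; ring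
  have e5 : (1 / 2 : ℚ) * p - ((6 * m + 3 : ℕ) : ℚ) = 1 / 2 := by rw [hp]; push_cast; ring
  have ev : (-1 : ℚ) ^ (8 * m + 4) = 1 := Even.neg_one_pow ⟨4 * m + 2, by ring⟩
  have od : (-1 : ℚ) ^ (6 * m + 3) = -1 := Odd.neg_one_pow ⟨3 * m + 1, by ring⟩
  have od2 : (-1 : ℚ) ^ (2 * m + 1) = -1 := Odd.neg_one_pow ⟨m, by ring⟩
  rw [e4, ev, show 8 * m + 4 + 1 + (10 * m + 5) = 18 * m + 10 by ring] at h4
  rw [e5, od, show 6 * m + 3 + 1 + (12 * m + 6) = 18 * m + 10 by ring] at h5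
  rw [show p - 1 - (2 * m + 1) = 10 * m + 5 by omega, show p - 1 = 12 * m + 6 by omega, od2] at h6
  have n2 : ((2 * m + 1).factorial : ℚ) ≠ 0 := by positivity
  have n4 : ((4 * m + 2).factorial : ℚ) ≠ 0 := by positivity
  have n6 : ((6 * m + 3).factorial : ℚ) ≠ 0 := by positivity
  have n10 : ((10 * m + 5).factorial : ℚ) ≠ 0 := by positivity
  have np : (p : ℚ) ≠ 0 := by
    have := (Fact.out : p.Prime).pos
    positivity
  have m5 := l5.ne_zero
  have m6 := l6.ne_zero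
  have nx : (2 : ℚ) ^ m ≠ 0 := by positivity
  have ny : (3 : ℚ) ^ m ≠ 0 := by positivity
  have hpw : (-((27 : ℚ) / 16)) ^ (9 * m + 5) =
      (-1) ^ m * (-(3 ^ 15 * (3 ^ m) ^ 27) / (2 ^ 20 * (2 ^ m) ^ 36)) := by
    rw [pw2, ← pow_mul (3 : ℚ) m 27, ← pow_mul (2 : ℚ) m 36,
      show 3 * (9 * m + 5) = m * 27 + 15 by ring, show 4 * (9 * m + 5) = m * 36 + 20 by ring,
      pow_add (3 : ℚ), pow_add (2 : ℚ), pow_add (-1 : ℚ), pow_mul (-1 : ℚ) 9 m]
    norm_num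
    ring
  have hth : (3 : ℚ) ^ (3 * m + 2) = 9 * (3 ^ m) ^ 3 := by
    rw [pow_add, mul_comm 3 m, pow_mul]; norm_num; ring
  refine ⟨(-27 * ((3 : ℚ) ^ m) ^ 6) ^ 4 * E4 * R / ((64 * ((2 : ℚ) ^ m) ^ 12) ^ 3 * (E5 * E6)), ?_,
    (((((l3.pow 4).mul l4).mul lR).div ((l2.pow 3).mul (l5.mul l6)))).congr ?_⟩
  · rw [show 2 * (9 * m + 5) = 18 * m + 10 by ring, h4, h5, hpw, hth, h6]
    generalize (-1 : ℚ) ^ m = s at *
    generalize (2 : ℚ) ^ m = x at *
    generalize (3 : ℚ) ^ m = y at *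
    field_simp
    linear_combination (-(s * 3 ^ 14 * 64 ^ 3 * E4)) * hR
  · refine ⟨(1 / 12) * (12 * w2 - 6 * w3 + 8 * w6 + 20 * w1 - 8 * w5 - 8 * w2 - 6 * w7), ?_, ?_⟩
    · refine (O p).mul_mem (mem12 hc 1 (by norm_num)) ?_
      repeat' first
        | assumption
        | exact ofNat_mem' _
        | with_reducible apply (O p).add_mem
        | with_reducible apply (O p).sub_mem
        | with_reducible apply (O p).mul_mem
    · push_cast
      linear_combination (1 / 3 : ℚ) * q2 - (1 / 2 : ℚ) * q3 + (2 / 3 : ℚ) * q6 +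
        (5 / 3 : ℚ) * q1 - (2 / 3 : ℚ) * q5 - (1 / 2 : ℚ) * q7

/-- `T_B` for the argument 1/4 -/
theorem TB3_seven (h3 : cg p 1 ((3 : ℚ) ^ (6 * m + 3)) (-1)) :
    ∃ E : ℚ, (16 / 27) ^ (9 * m + 5) * poch (3 / 2) (2 * (9 * m + 5)) /
        poch (4 / 3) (2 * (9 * m + 5)) =
      ((3 : ℚ) ^ (3 * m + 2) *
        (((6 * m + 3).factorial : ℚ) / ((2 * m + 1).factorial * (4 * m + 2).factorial))) / 2 * E ∧
      Lg p E ((20 / 3) * fq p 2 - fq p 3) := by
  have hc := coprime12 (hp6' hp)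
  obtain ⟨w1, w2, w3, w4, w5, w6, w7, w8, w9, w10, w11, g1, g2, g3, g4, g5, g6, g7, g8, g9, g10,
    g11, q1, q2, q3, q4, q5, q6, q7, q8, q9, q10, q11⟩ := harm_seven hp
  have l3 := pow3_seven hp h3
  have l2 := pow2_seven hp
  obtain ⟨E5, h5, l5⟩ := poch_cross (p := p) (1 / 2) (mem12 hc 6 (by norm_num)) (6 * m + 3)
    (12 * m + 6) (by omega) (by omega)
  obtain ⟨E7, h7, l7⟩ := poch_cross (p := p) (1 / 3) (mem12 hc 4 (by norm_num)) (4 * m + 2)
    (12 * m + 6) (by omega) (by omega)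
  obtain ⟨E9, h9, l9⟩ := poch_pos (p := p) (4 / 3) (mem12 hc 16 (by norm_num)) (2 * m + 1)
    (by omega)
  have e5 : (1 / 2 : ℚ) * p - ((6 * m + 3 : ℕ) : ℚ) = 1 / 2 := by rw [hp]; push_cast; ring
  have e7 : (1 / 3 : ℚ) * p - ((4 * m + 2 : ℕ) : ℚ) = 1 / 3 := by rw [hp]; push_cast; ring
  have ev : (-1 : ℚ) ^ (4 * m + 2) = 1 := Even.neg_one_pow ⟨2 * m + 1, by ring⟩
  have od : (-1 : ℚ) ^ (6 * m + 3) = -1 := Odd.neg_one_pow ⟨3 * m + 1, by ring⟩
  rw [e5, od, show 6 * m + 3 + 1 + (12 * m + 6) = 18 * m + 10 by ring] at h5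
  rw [e7, ev, show 4 * m + 2 + 1 + (12 * m + 6) = 16 * m + 9 by ring] at h7
  have s1 : poch (3 / 2) (18 * m + 10) = 3 * p * poch (1 / 2) (18 * m + 10) := by
    have := poch_shift (1 / 2) (18 * m + 10)
    rw [show (1 / 2 : ℚ) + 1 = 3 / 2 by norm_num] at this
    have e : (1 / 2 : ℚ) + ((18 * m + 10 : ℕ) : ℚ) = 3 * p / 2 := by rw [hp]; push_cast; ring
    rw [e] at this
    linear_combination 2 * this
  have s2 : poch (4 / 3) (18 * m + 10) = 3 * (poch (1 / 3) (16 * m + 9) *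
      ((4 / 3 * p) * poch (4 / 3 * p + 1) (2 * m + 1))) := by
    have := poch_succ' (1 / 3) (18 * m + 10)
    rw [show (1 / 3 : ℚ) + 1 = 4 / 3 by norm_num] at this
    rw [show 18 * m + 10 + 1 = (16 * m + 9) + (2 * m + 1 + 1) by ring, poch_add,
      poch_succ' _ (2 * m + 1)] at this
    have e : (1 / 3 : ℚ) + ((16 * m + 9 : ℕ) : ℚ) = 4 / 3 * p := by rw [hp]; push_cast; ring
    rw [e] at this
    linear_combination (-3 : ℚ) * this
  have n2 : ((2 * m + 1).factorial : ℚ) ≠ 0 := by positivity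
  have n4 : ((4 * m + 2).factorial : ℚ) ≠ 0 := by positivity
  have n6 : ((6 * m + 3).factorial : ℚ) ≠ 0 := by positivity
  have n12 : ((12 * m + 6).factorial : ℚ) ≠ 0 := by positivity
  have np : (p : ℚ) ≠ 0 := by
    have := (Fact.out : p.Prime).pos
    positivity
  have m7 := l7.ne_zero
  have m9 := l9.ne_zero
  have nx : (2 : ℚ) ^ m ≠ 0 := by positivity
  have ny : (3 : ℚ) ^ m ≠ 0 := by positivity
  have hpw : ((16 : ℚ) / 27) ^ (9 * m + 5) =
      (2 ^ 20 * (2 ^ m) ^ 36) / (3 ^ 15 * (3 ^ m) ^ 27) := by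
    rw [pw3, ← pow_mul (3 : ℚ) m 27, ← pow_mul (2 : ℚ) m 36,
      show 3 * (9 * m + 5) = m * 27 + 15 by ring, show 4 * (9 * m + 5) = m * 36 + 20 by ring,
      pow_add (3 : ℚ), pow_add (2 : ℚ)]
    ring
  have hth : (3 : ℚ) ^ (3 * m + 2) = 9 * (3 ^ m) ^ 3 := by
    rw [pow_add, mul_comm 3 m, pow_mul]; norm_num; ring
  refine ⟨(64 * ((2 : ℚ) ^ m) ^ 12) ^ 3 * E5 / ((-27 * ((3 : ℚ) ^ m) ^ 6) ^ 5 * (E7 * E9)), ?_,
    ((((l2.pow 3).mul l5).div ((l3.pow 5).mul (l7.mul l9)))).congr ?_⟩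
  · rw [show 2 * (9 * m + 5) = 18 * m + 10 by ring, s1, s2, h5, h7, h9, hpw, hth]
    field_simp
    try ring
  · refine ⟨(1 / 12) * (6 * w7 - 6 * w3 - 4 * w7 + 4 * w2 - 16 * w1), ?_, ?_⟩
    · refine (O p).mul_mem (mem12 hc 1 (by norm_num)) ?_
      repeat' first
        | assumption
        | exact ofNat_mem' _
        | with_reducible apply (O p).add_mem
        | with_reducible apply (O p).sub_mem
        | with_reducible apply (O p).mul_mem
    · push_cast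
      linear_combination (1 / 6 : ℚ) * q7 - (1 / 2 : ℚ) * q3 + (1 / 3 : ℚ) * q2 -
        (4 / 3 : ℚ) * q1

/-- `T_a` for the argument -8 -/
theorem Ta_seven (h3 : cg p 1 ((3 : ℚ) ^ (6 * m + 3)) (-1)) :
    ∃ E : ℚ, (27 / 4) ^ (9 * m + 5) * (poch (1 / 3) (9 * m + 5) * poch (5 / 12) (9 * m + 5)) /
        (poch (1 / 4) (9 * m + 5) * poch (1 / 2) (9 * m + 5)) =
      (-1) ^ m * ((3 : ℚ) ^ (3 * m + 2) *
        (((6 * m + 3).factorial : ℚ) / ((2 * m + 1).factorial * (4 * m + 2).factorial))) * E ∧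
      Lg p E (2 * fq p 3 - 2 * fq p 2 + 5 / 6 * harmonic (5 * m + 2) + 1 / 12 * harmonic m +
        2 / 3 * harmonic (4 * m + 2) + 5 / 12 * harmonic (2 * m + 1) -
        3 / 4 * harmonic (3 * m + 1) - 1 / 2 * harmonic (6 * m + 3)) := by
  have hc := coprime12 (hp6' hp)
  obtain ⟨w1, w2, w3, w4, w5, w6, w7, w8, w9, w10, w11, g1, g2, g3, g4, g5, g6, g7, g8, g9, g10,
    g11, q1, q2, q3, q4, q5, q6, q7, q8, q9, q10, q11⟩ := harm_seven hp
  have l3 := pow3_seven hp h3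
  have l2 := pow2_seven hp
  obtain ⟨K, hK, lK⟩ := K_seven hp
  obtain ⟨E10, h10, l10⟩ := poch_cross (p := p) (1 / 3) (mem12 hc 4 (by norm_num)) (4 * m + 2)
    (5 * m + 2) (by omega) (by omega)
  obtain ⟨E11, h11, l11⟩ := poch_neg (p := p) (11 / 12) (mem12 hc 11 (by norm_num)) (11 * m + 6)
    (9 * m + 5) (by omega) (by omega)
  obtain ⟨E12, h12, l12⟩ := poch_neg (p := p) (3 / 4) (mem12 hc 9 (by norm_num)) (9 * m + 5)
    (9 * m + 5) (by omega) (by omega)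
  obtain ⟨E13, h13, l13⟩ := poch_cross (p := p) (1 / 2) (mem12 hc 6 (by norm_num)) (6 * m + 3)
    (3 * m + 1) (by omega) (by omega)
  obtain ⟨E14, h14, l14⟩ := factorial_reflect (p := p) (3 * m + 1) (by omega)
  obtain ⟨E15, h15, l15⟩ := factorial_reflect (p := p) m (by omega)
  obtain ⟨E16, h16, l16⟩ := poch_neg (p := p) (1 / 2) (mem12 hc 6 (by norm_num)) (6 * m + 3)
    (m + 1) (by omega) (by omega)
  have e10 : (1 / 3 : ℚ) * p - ((4 * m + 2 : ℕ) : ℚ) = 1 / 3 := by rw [hp]; push_cast; ring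
  have e11 : (11 / 12 : ℚ) * p - ((11 * m + 6 : ℕ) : ℚ) = 5 / 12 := by rw [hp]; push_cast; ring
  have e12 : (3 / 4 : ℚ) * p - ((9 * m + 5 : ℕ) : ℚ) = 1 / 4 := by rw [hp]; push_cast; ring
  have e13 : (1 / 2 : ℚ) * p - ((6 * m + 3 : ℕ) : ℚ) = 1 / 2 := by rw [hp]; push_cast; ring
  have ev : (-1 : ℚ) ^ (4 * m + 2) = 1 := Even.neg_one_pow ⟨2 * m + 1, by ring⟩
  have od : (-1 : ℚ) ^ (6 * m + 3) = -1 := Odd.neg_one_pow ⟨3 * m + 1, by ring⟩
  have s5 : (-1 : ℚ) ^ (9 * m + 5) = -(-1) ^ m := by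
    rw [pow_add, pow_mul]; norm_num
  have s1 : (-1 : ℚ) ^ (3 * m + 1) = -(-1) ^ m := by
    rw [pow_add, pow_mul]; norm_num
  have s16 : (-1 : ℚ) ^ (m + 1) = -(-1) ^ m := by
    rw [pow_add]; norm_num
  have esq : ((-1 : ℚ) ^ m) ^ 2 = 1 := by rw [← pow_mul, mul_comm, pow_mul]; norm_num
  have hs0 : ((-1 : ℚ) ^ m) ≠ 0 := by positivity
  rw [e10, ev, show 4 * m + 2 + 1 + (5 * m + 2) = 9 * m + 5 + 0 by ring, add_zero] at h10
  rw [e11, s5, show 11 * m + 6 - (9 * m + 5) = 2 * m + 1 by omega] at h11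
  rw [show 11 * m + 6 - (9 * m + 5) = 2 * m + 1 by omega] at l11
  rw [e12, s5, Nat.sub_self, Nat.factorial_zero] at h12
  rw [Nat.sub_self, harmonic_zero] at l12
  rw [e13, od, show 6 * m + 3 + 1 + (3 * m + 1) = 9 * m + 5 by ring] at h13
  rw [show p - 1 - (3 * m + 1) = 9 * m + 5 by omega, s1] at h14
  rw [show p - 1 - m = 11 * m + 6 by omega, h14] at h15
  rw [e13, s16, show 6 * m + 3 - (m + 1) = 5 * m + 2 by omega] at h16
  rw [show 6 * m + 3 - (m + 1) = 5 * m + 2 by omega] at l16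
  have hd := two_factorial (m + 1)
  rw [h16, show 2 * (m + 1) = 2 * m + 1 + 1 by ring, Nat.factorial_succ m,
    Nat.factorial_succ (2 * m + 1)] at hd
  have n0 : (m.factorial : ℚ) ≠ 0 := by positivity
  have n1 : ((3 * m + 1).factorial : ℚ) ≠ 0 := by positivity
  have n2 : ((2 * m + 1).factorial : ℚ) ≠ 0 := by positivity
  have n4 : ((4 * m + 2).factorial : ℚ) ≠ 0 := by positivity
  have n5 : ((5 * m + 2).factorial : ℚ) ≠ 0 := by positivity
  have n6 : ((6 * m + 3).factorial : ℚ) ≠ 0 := by positivity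
  have n9 : ((9 * m + 5).factorial : ℚ) ≠ 0 := by positivity
  have n11 : ((11 * m + 6).factorial : ℚ) ≠ 0 := by positivity
  have np : (p : ℚ) ≠ 0 := by
    have := (Fact.out : p.Prime).pos
    positivity
  have m12 := l12.ne_zero
  have m13 := l13.ne_zero
  have m15 := l15.ne_zero
  have nx : (2 : ℚ) ^ m ≠ 0 := by positivity
  have ny : (3 : ℚ) ^ m ≠ 0 := by positivity
  have nm1 : ((m : ℚ) + 1) ≠ 0 := by positivity
  have hpw : ((27 : ℚ) / 4) ^ (9 * m + 5) =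
      (3 ^ 15 * (3 ^ m) ^ 27) / (2 ^ 10 * (2 ^ m) ^ 18) := by
    rw [pw4, ← pow_mul (3 : ℚ) m 27, ← pow_mul (2 : ℚ) m 18,
      show 3 * (9 * m + 5) = m * 27 + 15 by ring, show 2 * (9 * m + 5) = m * 18 + 10 by ring,
      pow_add (3 : ℚ), pow_add (2 : ℚ)]
    ring
  have hth : (3 : ℚ) ^ (3 * m + 2) = 9 * (3 ^ m) ^ 3 := by
    rw [pow_add, mul_comm 3 m, pow_mul]; norm_num; ring
  have x4 : (4 : ℚ) ^ (m + 1) = 4 * (2 ^ m) ^ 2 := by
    rw [pow_succ, ← pow_mul, mul_comm m 2, pow_mul]; norm_num; ring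
  rw [x4] at hd
  refine ⟨(-27 * ((3 : ℚ) ^ m) ^ 6) ^ 4 * E10 * E11 * E14 * E16 * K /
    ((64 * ((2 : ℚ) ^ m) ^ 12) ^ 2 * E12 * E13 * E15), ?_,
    (((((((l3.pow 4).mul l10).mul l11).mul l14).mul l16).mul lK).div
      ((((l2.pow 2).mul l12).mul l13).mul l15)).congr ?_⟩
  · rw [h10, h11, h12, h13, hpw, hth]
    generalize (-1 : ℚ) ^ m = s at *
    generalize (2 : ℚ) ^ m = x at *
    generalize (3 : ℚ) ^ m = y at *
    have hd' : ((2 * m + 1).factorial : ℚ) * (5 * m + 2).factorial =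
        -(2 * x ^ 2 * m.factorial * s * (6 * m + 3).factorial * E16) := by
      push_cast at hd
      have nm2 : (2 * (m : ℚ) + 1 + 1) ≠ 0 := by positivity
      apply mul_left_cancel₀ nm2
      rw [← mul_assoc, hd]
      field_simp
      ring
    push_cast
    field_simp
    have n16 : (16 : ℚ) * x ^ 2 ≠ 0 := by positivity
    apply mul_left_cancel₀ n16
    linear_combination (-(3 ^ 14 * 64 ^ 2 * E10 * E11 * (5 * m + 2).factorial *
        (11 * m + 6).factorial * E15)) * hK +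
      (3 ^ 14 * 64 ^ 2 * E10 * E11 * (6 * m + 3).factorial * K * (11 * m + 6).factorial * E15) *
        hd' +
      (2 * x ^ 2 * 3 ^ 14 * 64 ^ 2 * E10 * E11 * ((6 * m + 3).factorial : ℚ) ^ 2 * K * E16) * h15
  · refine ⟨(1 / 12) * (9 * w8 - 11 * w9), ?_, ?_⟩
    · refine (O p).mul_mem (mem12 hc 1 (by norm_num)) ?_
      repeat' first
        | assumption
        | exact ofNat_mem' _
        | with_reducible apply (O p).add_mem
        | with_reducible apply (O p).sub_mem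
        | with_reducible apply (O p).mul_mem
    · push_cast
      linear_combination (3 / 4 : ℚ) * q8 - (11 / 12 : ℚ) * q9

/-- `T_b` for the argument -8 -/
theorem Tb_seven (h3 : cg p 1 ((3 : ℚ) ^ (6 * m + 3)) (-1)) :
    ∃ E : ℚ, (27 / 4) ^ (2 * m + 1) * (poch (1 / 4) (2 * m + 1) * poch (1 / 3) (2 * m + 1)) /
        (poch (1 / 6) (2 * m + 1) * poch (5 / 12) (2 * m + 1)) =
      (-1) ^ m * ((3 : ℚ) ^ (3 * m + 2) *
        (((6 * m + 3).factorial : ℚ) / ((2 * m + 1).factorial * (4 * m + 2).factorial))) * E ∧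
      Lg p E (-fq p 2 + 1 / 12 * (harmonic (5 * m + 2) - harmonic m) +
        2 / 3 * harmonic (4 * m + 2) - 1 / 2 * harmonic (6 * m + 3)) := by
  have hc := coprime12 (hp6' hp)
  obtain ⟨w1, w2, w3, w4, w5, w6, w7, w8, w9, w10, w11, g1, g2, g3, g4, g5, g6, g7, g8, g9, g10,
    g11, q1, q2, q3, q4, q5, q6, q7, q8, q9, q10, q11⟩ := harm_seven hp
  have l2 := pow2_seven hp
  obtain ⟨K, hK, lK⟩ := K_seven hp
  obtain ⟨E21, h21, l21⟩ := poch_neg (p := p) (3 / 4) (mem12 hc 9 (by norm_num)) (9 * m + 5)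
    (2 * m + 1) (by omega) (by omega)
  obtain ⟨E22, h22, l22⟩ := poch_neg (p := p) (1 / 3) (mem12 hc 4 (by norm_num)) (4 * m + 2)
    (2 * m + 1) (by omega) (by omega)
  obtain ⟨E23, h23, l23⟩ := poch_neg (p := p) (1 / 6) (mem12 hc 2 (by norm_num)) (2 * m + 1)
    (2 * m + 1) (by omega) (by omega)
  obtain ⟨E24, h24, l24⟩ := poch_neg (p := p) (11 / 12) (mem12 hc 11 (by norm_num)) (11 * m + 6)
    (2 * m + 1) (by omega) (by omega)
  obtain ⟨E25, h25, l25⟩ := factorial_reflect (p := p) (5 * m + 2) (by omega)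
  obtain ⟨E26, h26, l26⟩ := poch_neg (p := p) (1 / 3) (mem12 hc 4 (by norm_num)) (4 * m + 2)
    (m + 1) (by omega) (by omega)
  obtain ⟨E27, h27, l27⟩ := poch_neg (p := p) (2 / 3) (mem12 hc 8 (by norm_num)) (8 * m + 4)
    m (by omega) (by omega)
  obtain ⟨E14, h14, l14⟩ := factorial_reflect (p := p) (3 * m + 1) (by omega)
  obtain ⟨E15, h15, l15⟩ := factorial_reflect (p := p) m (by omega)
  obtain ⟨E18, h18, l18⟩ := factorial_reflect (p := p) (4 * m + 2) (by omega)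
  have e21 : (3 / 4 : ℚ) * p - ((9 * m + 5 : ℕ) : ℚ) = 1 / 4 := by rw [hp]; push_cast; ring
  have e22 : (1 / 3 : ℚ) * p - ((4 * m + 2 : ℕ) : ℚ) = 1 / 3 := by rw [hp]; push_cast; ring
  have e23 : (1 / 6 : ℚ) * p - ((2 * m + 1 : ℕ) : ℚ) = 1 / 6 := by rw [hp]; push_cast; ring
  have e24 : (11 / 12 : ℚ) * p - ((11 * m + 6 : ℕ) : ℚ) = 5 / 12 := by rw [hp]; push_cast; ring
  have e27 : (2 / 3 : ℚ) * p - ((8 * m + 4 : ℕ) : ℚ) = 2 / 3 := by rw [hp]; push_cast; ring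
  have ev : (-1 : ℚ) ^ (4 * m + 2) = 1 := Even.neg_one_pow ⟨2 * m + 1, by ring⟩
  have od : (-1 : ℚ) ^ (2 * m + 1) = -1 := Odd.neg_one_pow ⟨m, by ring⟩
  have s1 : (-1 : ℚ) ^ (3 * m + 1) = -(-1) ^ m := by
    rw [pow_add, pow_mul]; norm_num
  have s2 : (-1 : ℚ) ^ (5 * m + 2) = (-1) ^ m := by
    rw [pow_add, pow_mul]; norm_num
  have s16 : (-1 : ℚ) ^ (m + 1) = -(-1) ^ m := by
    rw [pow_add]; norm_num
  have esq : ((-1 : ℚ) ^ m) ^ 2 = 1 := by rw [← pow_mul, mul_comm, pow_mul]; norm_num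
  have hs0 : ((-1 : ℚ) ^ m) ≠ 0 := by positivity
  rw [e21, od, show 9 * m + 5 - (2 * m + 1) = 7 * m + 4 by omega] at h21
  rw [show 9 * m + 5 - (2 * m + 1) = 7 * m + 4 by omega] at l21
  rw [e22, od, show 4 * m + 2 - (2 * m + 1) = 2 * m + 1 by omega] at h22
  rw [show 4 * m + 2 - (2 * m + 1) = 2 * m + 1 by omega] at l22
  rw [e23, od, Nat.sub_self, Nat.factorial_zero] at h23
  rw [Nat.sub_self, harmonic_zero] at l23
  rw [e24, od, show 11 * m + 6 - (2 * m + 1) = 9 * m + 5 by omega] at h24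
  rw [show 11 * m + 6 - (2 * m + 1) = 9 * m + 5 by omega] at l24
  rw [show p - 1 - (5 * m + 2) = 7 * m + 4 by omega, s2] at h25
  rw [e22, s16, show 4 * m + 2 - (m + 1) = 3 * m + 1 by omega] at h26
  rw [show 4 * m + 2 - (m + 1) = 3 * m + 1 by omega] at l26
  rw [e27, show 8 * m + 4 - m = 7 * m + 4 by omega] at h27
  rw [show 8 * m + 4 - m = 7 * m + 4 by omega] at l27
  rw [show p - 1 - (3 * m + 1) = 9 * m + 5 by omega, s1] at h14
  rw [show p - 1 - m = 11 * m + 6 by omega] at h15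
  rw [show p - 1 - (4 * m + 2) = 8 * m + 4 by omega, ev] at h18
  have ht := three_factorial (m + 1)
  rw [h26, poch_succ, h27, show 3 * (m + 1) = 3 * m + 1 + 1 + 1 by ring, Nat.factorial_succ m,
    Nat.factorial_succ (3 * m + 1 + 1), Nat.factorial_succ (3 * m + 1)] at ht
  have n0 : (m.factorial : ℚ) ≠ 0 := by positivity
  have n1 : ((3 * m + 1).factorial : ℚ) ≠ 0 := by positivity
  have n2 : ((2 * m + 1).factorial : ℚ) ≠ 0 := by positivity
  have n4 : ((4 * m + 2).factorial : ℚ) ≠ 0 := by positivity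
  have n5 : ((5 * m + 2).factorial : ℚ) ≠ 0 := by positivity
  have n6 : ((6 * m + 3).factorial : ℚ) ≠ 0 := by positivity
  have n7 : ((7 * m + 4).factorial : ℚ) ≠ 0 := by positivity
  have n8 : ((8 * m + 4).factorial : ℚ) ≠ 0 := by positivity
  have n9 : ((9 * m + 5).factorial : ℚ) ≠ 0 := by positivity
  have n11 : ((11 * m + 6).factorial : ℚ) ≠ 0 := by positivity
  have m14 := l14.ne_zero
  have m15 := l15.ne_zero
  have m18 := l18.ne_zero
  have m23 := l23.ne_zero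
  have m24 := l24.ne_zero
  have m25 := l25.ne_zero
  have m26 := l26.ne_zero
  have m27 := l27.ne_zero
  have nx : (2 : ℚ) ^ m ≠ 0 := by positivity
  have ny : (3 : ℚ) ^ m ≠ 0 := by positivity
  have nm1 : ((m : ℚ) + 1) ≠ 0 := by positivity
  have nm2 : (3 * (m : ℚ) + 2) ≠ 0 := by positivity
  have hpw : ((27 : ℚ) / 4) ^ (2 * m + 1) = 27 * (3 ^ m) ^ 6 / (4 * (2 ^ m) ^ 4) := by
    rw [pw4, ← pow_mul (3 : ℚ) m 6, ← pow_mul (2 : ℚ) m 4,
      show 3 * (2 * m + 1) = m * 6 + 3 by ring, show 2 * (2 * m + 1) = m * 4 + 2 by ring,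
      pow_add (3 : ℚ), pow_add (2 : ℚ)]
    ring
  have hth : (3 : ℚ) ^ (3 * m + 2) = 9 * (3 ^ m) ^ 3 := by
    rw [pow_add, mul_comm 3 m, pow_mul]; norm_num; ring
  have x27 : (27 : ℚ) ^ (m + 1) = 27 * (3 ^ m) ^ 3 := by
    rw [pow_succ, ← pow_mul, mul_comm m 3, pow_mul]; norm_num; ring
  rw [x27] at ht
  refine ⟨E15 * E18 * K * E21 * E22 /
    ((64 * ((2 : ℚ) ^ m) ^ 12) * E14 ^ 2 * E23 * E24 * E26 * E27), ?_,
    ((((((l15.mul l18).mul lK).mul l21).mul l22).div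
      (((((l2.mul (l14.pow 2)).mul l23).mul l24).mul l26).mul l27))).congr ?_⟩
  · rw [h21, h22, h23, h24, hpw, hth]
    generalize (-1 : ℚ) ^ m = s at *
    generalize (2 : ℚ) ^ m = x at *
    generalize (3 : ℚ) ^ m = y at *
    have ht' : ((3 * m + 1).factorial : ℚ) ^ 2 * (7 * m + 4).factorial =
        -(3 * y ^ 3 * m.factorial * (4 * m + 2).factorial * (8 * m + 4).factorial * s ^ 2 *
          E26 * E27) := by
      push_cast at ht
      field_simp at ht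
      have nm3 : (3 * (m : ℚ) + 1 + 1 + 1) * (3 * m + 1 + 1) ≠ 0 := by positivity
      apply mul_left_cancel₀ nm3
      linear_combination (1 / 3 : ℚ) * ht
    have a1 : (m.factorial : ℚ) * (4 * m + 2).factorial * (8 * m + 4).factorial *
        (y ^ 3 * E26 * E27) * 3 = -((3 * m + 1).factorial : ℚ) ^ 2 * (7 * m + 4).factorial := by
      linear_combination ht' - (3 * y ^ 3 * m.factorial * (4 * m + 2).factorial *
        (8 * m + 4).factorial * E26 * E27) * esq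
    have a2 : ((9 * m + 5).factorial : ℚ) ^ 2 * ((3 * m + 1).factorial : ℚ) ^ 2 * E14 ^ 2 =
        ((p - 1).factorial : ℚ) ^ 2 := by
      rw [h14]
      linear_combination (-(((9 * m + 5).factorial : ℚ) ^ 2 * ((3 * m + 1).factorial : ℚ) ^ 2 *
        E14 ^ 2)) * esq
    have a3 : (11 * m + 6).factorial * s * m.factorial * E15 *
        ((8 * m + 4).factorial * (4 * m + 2).factorial * E18) = ((p - 1).factorial : ℚ) ^ 2 := by
      have b1 : ((p - 1).factorial : ℚ) = (11 * m + 6).factorial * s * m.factorial * E15 := by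
        rw [h15]; ring
      have b2 : ((p - 1).factorial : ℚ) =
          (8 * m + 4).factorial * (4 * m + 2).factorial * E18 := by
        rw [h18]; ring
      rw [← b1, ← b2]; ring
    push_cast
    field_simp
    have nz : (m.factorial : ℚ) * (4 * m + 2).factorial * (8 * m + 4).factorial ≠ 0 := by
      positivity
    apply mul_left_cancel₀ nz
    linear_combination (576 * x ^ 8 * ((4 * m + 2).factorial : ℚ) ^ 2 *
        ((9 * m + 5).factorial : ℚ) ^ 2 * E14 ^ 2 * E21 * E22) * a1 -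
      (36 * ((9 * m + 5).factorial : ℚ) ^ 2 * E14 ^ 2 * ((3 * m + 1).factorial : ℚ) ^ 2 *
        (7 * m + 4).factorial * E21 * E22) * hK +
      (36 * (2 * m + 1).factorial * (6 * m + 3).factorial * K * (7 * m + 4).factorial *
        E21 * E22) * (a2 - a3)
  · refine ⟨(1 / 12) * (11 * w9 - 20 * w8 + w10 + 8 * w5), ?_, ?_⟩
    · refine (O p).mul_mem (mem12 hc 1 (by norm_num)) ?_
      repeat' first
        | assumption
        | exact ofNat_mem' _
        | with_reducible apply (O p).add_mem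
        | with_reducible apply (O p).sub_mem
        | with_reducible apply (O p).mul_mem
    · push_cast
      linear_combination (11 / 12 : ℚ) * q9 - (5 / 3 : ℚ) * q8 + (1 / 12 : ℚ) * q10 +
        (2 / 3 : ℚ) * q5

end Pool.Agent.SC
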