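import Pool.Agent.Work.MP_5b0587_nt.Base

/-!
Interpolation: the truncated hypergeometric sum is affine modulo `p ^ 2` in perturbations of its
parameters by multiples of `p`.
-/

namespace Pool.Agent.SC

open Finset

variable {p : ℕ}

theorem poch_affine (a : ℚ) (ha : a ∈ O p) (k : ℕ) :
    ∃ u v : ℚ, u ∈ O p ∧ v ∈ O p ∧ ∀ t ∈ O p, cg p 2 (poch (a + t * p) k) (u + p * (v * t)) := by
  induction k with
  | zero =>
    exact ⟨1, 0, (O p).one_mem, (O p).zero_mem, fun t _ => cg.of_eq (by simp)⟩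
  | succ k ih =>
    obtain ⟨u, v, hu, hv, h⟩ := ih
    have hak : a + k ∈ O p := (O p).add_mem ha (natCast_mem k)
    refine ⟨u * (a + k), v * (a + k) + u, (O p).mul_mem hu hak,
      (O p).add_mem ((O p).mul_mem hv hak) hu, fun t ht => ?_⟩
    rw [poch_succ]
    have h1 : a + t * p + k ∈ O p :=
      (O p).add_mem ((O p).add_mem ha ((O p).mul_mem ht (natCast_mem p))) (natCast_mem k)
    refine ((h t ht).mul_const h1).trans ⟨v * t * t, (O p).mul_mem ((O p).mul_mem hv ht) ht, ?_⟩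
    ring

theorem inv_poch_affine [Fact p.Prime] (k : ℕ) (hk : k < p) :
    ∃ u v : ℚ, u ∈ O p ∧ v ∈ O p ∧
      ∀ t ∈ O p, cg p 2 ((poch (1 + t * p) k * k.factorial)⁻¹) (u + p * (v * t)) := by
  have hp : p.Prime := Fact.out
  have hfac : IsU p (k.factorial : ℚ) := by
    apply isU_natCast
    · exact (Nat.coprime_comm.mp ((Nat.Prime.coprime_iff_not_dvd hp).mpr
        (fun h => by have := (Nat.Prime.dvd_factorial hp).mp h; omega)))
    · exact Nat.factorial_ne_zero k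
  have key : ∃ s ∈ O p, ∀ t ∈ O p, Lg p (poch (1 + t * p) k / k.factorial) (s * t) := by
    clear hfac
    induction k with
    | zero => exact ⟨0, (O p).zero_mem, fun t _ => by simpa using Lg.one⟩
    | succ k ih =>
      obtain ⟨s, hs, h⟩ := ih (by omega)
      have hk1 : IsU p ((k + 1 : ℕ) : ℚ) := isU_natCast
        (Nat.coprime_comm.mp (Nat.coprime_of_lt_prime (by omega) hk hp)) (by omega)
      refine ⟨s + ((k + 1 : ℕ) : ℚ)⁻¹, (O p).add_mem hs hk1.2.1, fun t ht => ?_⟩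
      have h2 : Lg p (1 + p * (t * ((k + 1 : ℕ) : ℚ)⁻¹)) (t * ((k + 1 : ℕ) : ℚ)⁻¹) :=
        Lg.mk ((O p).mul_mem ht hk1.2.1)
      refine ((h t ht).mul h2).eq ?_ (by ring)
      have hne := hk1.2.2
      have hne2 : (k.factorial : ℚ) ≠ 0 := by positivity
      rw [poch_succ, Nat.factorial_succ]
      push_cast at hne ⊢
      field_simp
      ring
  obtain ⟨s, hs, h⟩ := key
  have hi := hfac.inv
  refine ⟨(k.factorial : ℚ)⁻¹ ^ 2, -s * (k.factorial : ℚ)⁻¹ ^ 2, (O p).pow_mem hi.1 2,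
    (O p).mul_mem ((O p).neg_mem hs) ((O p).pow_mem hi.1 2), fun t ht => ?_⟩
  have h1 := (h t ht).inv
  have h2 := h1.2.const_mul ((O p).pow_mem hi.1 2)
  have hne := (h t ht).ne_zero
  have hne2 : (k.factorial : ℚ) ≠ 0 := hfac.2.2
  have hne3 : poch (1 + t * p) k ≠ 0 := by
    intro h0; rw [h0] at hne; simp at hne
  convert h2 using 1
  · field_simp
  · ring

theorem term_affine [Fact p.Prime] (a b z : ℚ) (ha : a ∈ O p) (hb : b ∈ O p) (hz : z ∈ O p)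
    (k : ℕ) (hk : k < p) :
    ∃ X Y1 Y2 Z : ℚ, X ∈ O p ∧ Y1 ∈ O p ∧ Y2 ∈ O p ∧ Z ∈ O p ∧
      ∀ α ∈ O p, ∀ β ∈ O p, ∀ γ ∈ O p,
        cg p 2 (term (a + α * p) (b + β * p) (1 + γ * p) z k)
          (X + p * (Y1 * α + Y2 * β + Z * γ)) := by
  obtain ⟨u1, v1, hu1, hv1, h1⟩ := poch_affine a ha k
  obtain ⟨u2, v2, hu2, hv2, h2⟩ := poch_affine b hb k
  obtain ⟨u3, v3, hu3, hv3, h3⟩ := inv_poch_affine (p := p) k hk
  have hzk : z ^ k ∈ O p := (O p).pow_mem hz k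
  refine ⟨u1 * u2 * u3 * z ^ k, v1 * u2 * u3 * z ^ k, u1 * v2 * u3 * z ^ k, u1 * u2 * v3 * z ^ k,
    ?_, ?_, ?_, ?_, ?_⟩
  · exact (O p).mul_mem ((O p).mul_mem ((O p).mul_mem hu1 hu2) hu3) hzk
  · exact (O p).mul_mem ((O p).mul_mem ((O p).mul_mem hv1 hu2) hu3) hzk
  · exact (O p).mul_mem ((O p).mul_mem ((O p).mul_mem hu1 hv2) hu3) hzk
  · exact (O p).mul_mem ((O p).mul_mem ((O p).mul_mem hu1 hu2) hv3) hzk
  intro α hα β hβ γ hγ
  have hpO : (p : ℚ) ∈ O p := natCast_mem p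
  have m1 : u1 + p * (v1 * α) ∈ O p :=
    (O p).add_mem hu1 ((O p).mul_mem hpO ((O p).mul_mem hv1 hα))
  have m2 : u2 + p * (v2 * β) ∈ O p :=
    (O p).add_mem hu2 ((O p).mul_mem hpO ((O p).mul_mem hv2 hβ))
  have m3 : u3 + p * (v3 * γ) ∈ O p :=
    (O p).add_mem hu3 ((O p).mul_mem hpO ((O p).mul_mem hv3 hγ))
  have n2 := (h2 β hβ).mem m2
  have n3 := (h3 γ hγ).mem m3
  have h12 := cg.mul n2 m1 (h1 α hα) (h2 β hβ)
  have h123 := cg.mul n3 ((O p).mul_mem m1 m2) h12 (h3 γ hγ)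
  have h4 := h123.mul_const hzk
  rw [term, div_eq_mul_inv]
  refine h4.trans ⟨(v1 * α * (v2 * β) * u3 + v1 * α * u2 * (v3 * γ) + u1 * (v2 * β) * (v3 * γ)
    + p * (v1 * α * (v2 * β) * (v3 * γ))) * z ^ k, ?_, by ring⟩
  refine (O p).mul_mem ?_ hzk
  have q1 : v1 * α ∈ O p := (O p).mul_mem hv1 hα
  have q2 : v2 * β ∈ O p := (O p).mul_mem hv2 hβ
  have q3 : v3 * γ ∈ O p := (O p).mul_mem hv3 hγ
  refine (O p).add_mem ((O p).add_mem ((O p).add_mem ?_ ?_) ?_) ?_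
  · exact (O p).mul_mem ((O p).mul_mem q1 q2) hu3
  · exact (O p).mul_mem ((O p).mul_mem q1 hu2) q3
  · exact (O p).mul_mem ((O p).mul_mem hu1 q2) q3
  · exact (O p).mul_mem hpO ((O p).mul_mem ((O p).mul_mem q1 q2) q3)

theorem hyp_affine [Fact p.Prime] (a b z : ℚ) (ha : a ∈ O p) (hb : b ∈ O p) (hz : z ∈ O p) :
    ∃ X Y1 Y2 Z : ℚ, X ∈ O p ∧ Y1 ∈ O p ∧ Y2 ∈ O p ∧ Z ∈ O p ∧
      ∀ α ∈ O p, ∀ β ∈ O p, ∀ γ ∈ O p,
        cg p 2 (hyp (a + α * p) (b + β * p) (1 + γ * p) z p)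
          (X + p * (Y1 * α + Y2 * β + Z * γ)) := by
  have key : ∀ n ≤ p, ∃ X Y1 Y2 Z : ℚ, X ∈ O p ∧ Y1 ∈ O p ∧ Y2 ∈ O p ∧ Z ∈ O p ∧
      ∀ α ∈ O p, ∀ β ∈ O p, ∀ γ ∈ O p,
        cg p 2 (hyp (a + α * p) (b + β * p) (1 + γ * p) z n)
          (X + p * (Y1 * α + Y2 * β + Z * γ)) := by
    intro n hn
    induction n with
    | zero =>
      refine ⟨0, 0, 0, 0, (O p).zero_mem, (O p).zero_mem, (O p).zero_mem, (O p).zero_mem, ?_⟩
      intro α _ β _ γ _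
      exact cg.of_eq (by simp [hyp])
    | succ n ih =>
      obtain ⟨X, Y1, Y2, Z, hX, hY1, hY2, hZ, h⟩ := ih (by omega)
      obtain ⟨X', Y1', Y2', Z', hX', hY1', hY2', hZ', h'⟩ := term_affine a b z ha hb hz n (by omega)
      refine ⟨X + X', Y1 + Y1', Y2 + Y2', Z + Z', (O p).add_mem hX hX', (O p).add_mem hY1 hY1',
        (O p).add_mem hY2 hY2', (O p).add_mem hZ hZ', ?_⟩
      intro α hα β hβ γ hγ
      rw [hyp, sum_range_succ, ← hyp]
      refine ((h α hα β hβ γ hγ).add (h' α hα β hβ γ hγ)).trans (cg.of_eq (by ring))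
  exact key p le_rfl

/-- Interpolation, general form. -/
theorem interp [Fact p.Prime] (a b z α β γ α' β' γ' w w' : ℚ) (ha : a ∈ O p) (hb : b ∈ O p)
    (hz : z ∈ O p) (hα : α ∈ O p) (hβ : β ∈ O p) (hγ : γ ∈ O p) (hα' : α' ∈ O p)
    (hβ' : β' ∈ O p) (hγ' : γ' ∈ O p) (hw : w ∈ O p) (hw' : w' ∈ O p) (h1 : w + w' = 1)
    (h2 : w * α + w' * α' = 0) (h3 : w * β + w' * β' = 0) (h4 : w * γ + w' * γ' = 0) :
    cg p 2 (hyp a b 1 z p) (w * hyp (a + α * p) (b + β * p) (1 + γ * p) z p +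
      w' * hyp (a + α' * p) (b + β' * p) (1 + γ' * p) z p) := by
  obtain ⟨X, Y1, Y2, Z, hX, hY1, hY2, hZ, h⟩ := hyp_affine a b z ha hb hz
  have h0 := h 0 (O p).zero_mem 0 (O p).zero_mem 0 (O p).zero_mem
  simp only [zero_mul, add_zero, mul_zero] at h0
  have h6 := (((h α hα β hβ γ hγ).const_mul hw).add
    ((h α' hα' β' hβ' γ' hγ').const_mul hw')).symm
  refine h0.trans (cg.trans ?_ h6)
  refine cg.of_eq ?_
  linear_combination (-X) * h1 - p * Y1 * h2 - p * Y2 * h3 - p * Z * h4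

/-- Interpolation, symmetric form. -/
theorem interp_sym [Fact p.Prime] (a z α β γ α' β' γ' w w' : ℚ) (ha : a ∈ O p)
    (hz : z ∈ O p) (hα : α ∈ O p) (hβ : β ∈ O p) (hγ : γ ∈ O p) (hα' : α' ∈ O p)
    (hβ' : β' ∈ O p) (hγ' : γ' ∈ O p) (hw : w ∈ O p) (hw' : w' ∈ O p) (h1 : w + w' = 1)
    (h2 : w * (α + β) + w' * (α' + β') = 0) (h4 : w * γ + w' * γ' = 0) :
    cg p 2 (hyp a a 1 z p) (w * hyp (a + α * p) (a + β * p) (1 + γ * p) z p +
      w' * hyp (a + α' * p) (a + β' * p) (1 + γ' * p) z p) := by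
  obtain ⟨X, Y1, Y2, Z, hX, hY1, hY2, hZ, h⟩ := hyp_affine a a z ha ha hz
  have h0 := h 0 (O p).zero_mem 0 (O p).zero_mem 0 (O p).zero_mem
  simp only [zero_mul, add_zero, mul_zero] at h0
  have hsw : cg p 2 (X + p * Y1) (X + p * Y2) := by
    have e1 := h 1 (O p).one_mem 0 (O p).zero_mem 0 (O p).zero_mem
    have e2 := h 0 (O p).zero_mem 1 (O p).one_mem 0 (O p).zero_mem
    rw [hyp_swap] at e2
    simp only [mul_one, mul_zero, add_zero, zero_add] at e1 e2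
    exact e1.symm.trans e2
  have hsw' : cg p 2 (p * Y1) (p * Y2) := by
    obtain ⟨c, hc, e⟩ := hsw
    exact ⟨c, hc, by linear_combination e⟩
  have hδ : w * β + w' * β' ∈ O p := (O p).add_mem ((O p).mul_mem hw hβ) ((O p).mul_mem hw' hβ')
  have h5 := (hsw'.const_mul hδ)
  have h6 := (((h α hα β hβ γ hγ).const_mul hw).add
    ((h α' hα' β' hβ' γ' hγ').const_mul hw')).symm
  refine h0.trans (cg.trans ?_ h6)
  obtain ⟨c, hc, e⟩ := h5
  refine ⟨c, hc, ?_⟩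
  rw [← e]
  linear_combination (-X) * h1 - p * Y1 * h2 - p * Z * h4

end Pool.Agent.SC
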