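import Pool.Agent.Work.MP_5b0587_nt.JacFinal
import Pool.Agent.Work.MP_5b0587_nt.Interp

/-!
The congruences for primes `p = 12 m + 1`.
-/

namespace Pool.Agent.SC

open Finset

variable {p : ℕ}

theorem G_one [Fact p.Prime] (r : ℕ) (hp : p = 6 * r + 1) (A B : ℤ)
    (hAB : (p : ℤ) = A ^ 2 + 3 * B ^ 2) (hA : A % 3 = 1) :
    cg p 2 (((3 * r).factorial : ℚ) / (r.factorial * (2 * r).factorial) *
      (1 + p * (2 / 3 * fq p 2 - 3 / 4 * fq p 3))) (2 * A - p / (2 * A)) := by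
  have h := binom_cg r hp A B hAB hA
  have hc := coprime12 hp
  have m1 : fq p 2 ∈ O p := fq_mem p 2 (coprime_lit hp (by norm_num))
  have m2 : fq p 3 ∈ O p := fq_mem p 3 (coprime_lit hp (by norm_num))
  have hs : 2 / 3 * fq p 2 - 3 / 4 * fq p 3 ∈ O p :=
    (O p).sub_mem ((O p).mul_mem (mem12 hc 8 (by norm_num)) m1)
      ((O p).mul_mem (mem12 hc 9 (by norm_num)) m2)
  have h2 := (h.mul (Lg.mk hs)).eq (b := _) (t := -(1 / (4 * (A : ℚ) ^ 2))) rfl (by ring)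
  have hA0 : A ≠ 0 := by rintro rfl; norm_num at hA
  have hAq : (A : ℚ) ≠ 0 := by exact_mod_cast hA0
  have hAO : (2 * (A : ℚ)) ∈ O p := (O p).mul_mem (ofNat_mem' 2) (intCast_mem A)
  have h3 : Lg p (((3 * r).factorial : ℚ) / (r.factorial * (2 * r).factorial) *
      (1 + p * (2 / 3 * fq p 2 - 3 / 4 * fq p 3)) / (2 * A)) (-(1 / (4 * (A : ℚ) ^ 2))) :=
    h2.eq (by ring) rfl
  have h4 := h3.cg_mul hAO (by positivity)
  refine h4.trans (cg.of_eq ?_)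
  field_simp
  ring

theorem Cmem [Fact p.Prime] (r : ℕ) :
    ((3 * r).factorial : ℚ) / (r.factorial * (2 * r).factorial) ∈ O p := by
  have : (((3 * r).choose r : ℕ) : ℚ) ∈ O p := natCast_mem _
  rw [Nat.cast_choose ℚ (by omega : r ≤ 3 * r), show 3 * r - r = 2 * r by omega] at this
  exact this

/-- combining two evaluations -/
theorem combine [Fact p.Prime] {S T1 T2 u C E1 E2 s1 s2 w1 w2 t : ℚ}
    (hw1 : w1 ∈ O p) (hw2 : w2 ∈ O p) (hu : u ∈ O p) (hC : C ∈ O p)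
    (hS : cg p 2 S (w1 * T1 + w2 * T2))
    (h1 : T1 = u * C * E1) (l1 : Lg p E1 s1) (h2 : T2 = u * C * E2) (l2 : Lg p E2 s2)
    (hw : w1 + w2 = 1) (ht : cg p 1 (w1 * s1 + w2 * s2) t) :
    cg p 2 S (u * (C * (1 + p * t))) := by
  have huC : u * C ∈ O p := (O p).mul_mem hu hC
  have a1 : cg p 2 T1 (u * C * (1 + p * s1)) := by rw [h1]; exact l1.2.const_mul huC
  have a2 : cg p 2 T2 (u * C * (1 + p * s2)) := by rw [h2]; exact l2.2.const_mul huC
  refine hS.trans (((a1.const_mul hw1).add (a2.const_mul hw2)).trans ?_)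
  have h3 := (ht.p_mul).const_mul huC
  obtain ⟨w, hwO, e⟩ := h3
  refine ⟨w, hwO, ?_⟩
  linear_combination e + u * C * hw

theorem pow_parity {n : ℕ} {z : ℤ} (h : z.natAbs = n) : ((-1 : ℚ)) ^ z = (-1) ^ n := by
  rcases Int.natAbs_eq z with h0 | h0
  · rw [h0, h, zpow_natCast]
  · rw [h0, h, zpow_neg, zpow_natCast, ← inv_pow]; norm_num

section

variable [Fact p.Prime] {m : ℕ} (hp : p = 12 * m + 1) (A B : ℤ)
    (hAB : (p : ℤ) = A ^ 2 + 3 * B ^ 2) (hA : A % 3 = 1)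

include hp hAB hA

theorem eps_one : cg p 1 ((3 : ℚ) ^ (3 * m)) ((-1) ^ ((A - 1) / 2).natAbs) := by
  have h := sgn_one p (by omega) A B hAB hA
  rw [show (p - 1) / 4 = 3 * m by omega] at h
  have h2 : (((3 : ℤ) ^ (3 * m) : ℤ) : ZMod p) = (((-1 : ℤ) ^ ((A - 1) / 2).natAbs : ℤ) : ZMod p) := by
    push_cast
    exact h
  have := zmod_cg h2
  push_cast at this
  exact this

theorem S3_one : cg p 2 (hyp (1 / 4) (1 / 4) 1 (1 / 4) p)
    ((-1) ^ ((A - 1) / 2).natAbs * (2 * A - p / (2 * A))) := by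
  have hc := coprime12 (hp6 hp)
  set ε : ℚ := (-1) ^ ((A - 1) / 2).natAbs with hε
  have hε1 : ε = 1 ∨ ε = -1 := neg_one_pow_eq_or ℚ _
  have hεO : ε ∈ O p := by
    rcases hε1 with h | h <;> rw [h]
    · exact (O p).one_mem
    · exact (O p).neg_mem (O p).one_mem
  have h3 := eps_one hp A B hAB hA
  obtain ⟨E1, t1, l1⟩ := TA3_one hp ε hε1 h3
  obtain ⟨E2, t2, l2⟩ := TB3_one hp ε hε1 h3
  have hG := G_one (2 * m) (hp6 hp) A B hAB hA
  rw [show 3 * (2 * m) = 6 * m by ring, show 2 * (2 * m) = 4 * m by ring] at hG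
  have hC := Cmem (p := p) (2 * m)
  rw [show 3 * (2 * m) = 6 * m by ring, show 2 * (2 * m) = 4 * m by ring] at hC
  have hI := interp_sym (p := p) (1 / 4) (1 / 4) (-1 / 4) (1 / 12) (-1 / 6) (-1 / 4) (3 / 4) (1 / 2)
    (3 / 4) (1 / 4) (mem12 hc 3 (by norm_num)) (mem12 hc 3 (by norm_num))
    (mem12 hc (-3) (by norm_num)) (mem12 hc 1 (by norm_num)) (mem12 hc (-2) (by norm_num))
    (mem12 hc (-3) (by norm_num)) (mem12 hc 9 (by norm_num)) (mem12 hc 6 (by norm_num))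
    (mem12 hc 9 (by norm_num)) (mem12 hc 3 (by norm_num)) (by norm_num) (by norm_num)
    (by norm_num)
  have hA1 := S3A0 m p (by omega)
  have hB1 := S3B (3 * m) p (by omega)
  have pq : (p : ℚ) = 12 * m + 1 := by exact_mod_cast hp
  rw [show (1 / 4 : ℚ) + -1 / 4 * p = -((3 * m : ℕ) : ℚ) by rw [pq]; push_cast; ring,
    show (1 / 4 : ℚ) + 1 / 12 * p = 1 / 3 + m by rw [pq]; ring,
    show (1 : ℚ) + -1 / 6 * p = (5 - 12 * m) / 6 by rw [pq]; ring,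
    show (1 / 4 : ℚ) + 3 / 4 * p = 1 + 3 * ((3 * m : ℕ) : ℚ) by rw [pq]; push_cast; ring,
    show (1 : ℚ) + 1 / 2 * p = 3 / 2 + 2 * ((3 * m : ℕ) : ℚ) by rw [pq]; push_cast; ring] at hI
  have := combine (mem12 hc 9 (by norm_num)) (mem12 hc 3 (by norm_num)) hεO hC hI
    (hA1.trans t1) l1 (hB1.trans t2) l2 (by norm_num)
    (cg.of_eq (show (3 / 4 : ℚ) * (-(3 / 4) * fq p 3) + 1 / 4 * (-(3 / 4) * fq p 3 +
      8 / 3 * fq p 2) = 2 / 3 * fq p 2 - 3 / 4 * fq p 3 by ring))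
  exact this.trans (hG.const_mul hεO)

theorem S1_one : cg p 2 (hyp (1 / 4) (1 / 4) 1 4 p)
    ((-1) ^ m * (-1) ^ ((A - 1) / 2).natAbs * (2 * A - p / (2 * A))) := by
  have hc := coprime12 (hp6 hp)
  set ε : ℚ := (-1) ^ ((A - 1) / 2).natAbs with hε
  have hε1 : ε = 1 ∨ ε = -1 := neg_one_pow_eq_or ℚ _
  have hs1 : ((-1 : ℚ) ^ m) = 1 ∨ ((-1 : ℚ) ^ m) = -1 := neg_one_pow_eq_or ℚ _
  have hεO : ε ∈ O p := by
    rcases hε1 with h | h <;> rw [h]
    · exact (O p).one_mem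
    · exact (O p).neg_mem (O p).one_mem
  have hsO : ((-1 : ℚ) ^ m) ∈ O p := by
    rcases hs1 with h | h <;> rw [h]
    · exact (O p).one_mem
    · exact (O p).neg_mem (O p).one_mem
  have h3 := eps_one hp A B hAB hA
  obtain ⟨E1, t1, l1⟩ := TA3_one hp ε hε1 h3
  obtain ⟨E2, t2, l2⟩ := TB1_one hp ε hε1 h3
  have hG := G_one (2 * m) (hp6 hp) A B hAB hA
  rw [show 3 * (2 * m) = 6 * m by ring, show 2 * (2 * m) = 4 * m by ring] at hG
  have hC := Cmem (p := p) (2 * m)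
  rw [show 3 * (2 * m) = 6 * m by ring, show 2 * (2 * m) = 4 * m by ring] at hC
  have hI := interp_sym (p := p) (1 / 4) 4 (-1 / 4) (-1 / 12) (-1 / 3) (-1 / 4) (-3 / 4) (-1)
    (3 / 2) (-1 / 2) (mem12 hc 3 (by norm_num)) (ofNat_mem' 4)
    (mem12 hc (-3) (by norm_num)) (mem12 hc (-1) (by norm_num)) (mem12 hc (-4) (by norm_num))
    (mem12 hc (-3) (by norm_num)) (mem12 hc (-9) (by norm_num)) (mem12 hc (-12) (by norm_num))
    (mem12 hc 18 (by norm_num)) (mem12 hc (-6) (by norm_num)) (by norm_num) (by norm_num)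
    (by norm_num)
  have hA1 := S1A0 m p (by omega)
  have hB1 := S1B (3 * m) p (by omega)
  have pq : (p : ℚ) = 12 * m + 1 := by exact_mod_cast hp
  rw [show (1 / 4 : ℚ) + -1 / 4 * p = -((3 * m : ℕ) : ℚ) by rw [pq]; push_cast; ring,
    show (1 / 4 : ℚ) + -1 / 12 * p = (1 - 6 * m) / 6 by rw [pq]; ring,
    show (1 : ℚ) + -1 / 3 * p = (2 - 12 * m) / 3 by rw [pq]; ring,
    show (1 / 4 : ℚ) + -3 / 4 * p = -3 * ((3 * m : ℕ) : ℚ) - 1 / 2 by rw [pq]; push_cast; ring,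
    show (1 : ℚ) + -1 * p = -4 * ((3 * m : ℕ) : ℚ) by rw [pq]; push_cast; ring] at hI
  have t1' : (-(27 / 16 : ℚ)) ^ m * poch (1 / 3) (2 * m) / poch (1 / 6) (2 * m) =
      ((-1) ^ m * ε) * (((6 * m).factorial : ℚ) / ((2 * m).factorial * (4 * m).factorial)) * E1 := by
    have : (-(27 / 16 : ℚ)) ^ m = (-1) ^ m * (27 / 16) ^ m := by rw [← mul_pow]; norm_num
    rw [this]
    linear_combination ((-1 : ℚ) ^ m) * t1
  have t2' : (-(27 / 16 : ℚ)) ^ (3 * m) * poch (2 / 3) (2 * (3 * m)) / poch (1 / 2) (2 * (3 * m)) =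
      ((-1) ^ m * ε) * (((6 * m).factorial : ℚ) / ((2 * m).factorial * (4 * m).factorial)) * E2 := by
    rw [t2]; ring
  have := combine (mem12 hc 18 (by norm_num)) (mem12 hc (-6) (by norm_num))
    ((O p).mul_mem hsO hεO) hC hI
    (hA1.trans t1') l1 (hB1.trans t2') l2 (by norm_num)
    (cg.of_eq (show (3 / 2 : ℚ) * (-(3 / 4) * fq p 3) + -1 / 2 * (-(3 / 4) * fq p 3 -
      4 / 3 * fq p 2) = 2 / 3 * fq p 2 - 3 / 4 * fq p 3 by ring))
  exact this.trans (hG.const_mul ((O p).mul_mem hsO hεO))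

theorem S2_one : cg p 2 (hyp (1 / 4) (1 / 2) 1 (-8) p)
    ((-1) ^ m * (-1) ^ ((A - 1) / 2).natAbs * (2 * A - p / (2 * A))) := by
  have hc := coprime12 (hp6 hp)
  set ε : ℚ := (-1) ^ ((A - 1) / 2).natAbs with hε
  have hε1 : ε = 1 ∨ ε = -1 := neg_one_pow_eq_or ℚ _
  have hs1 : ((-1 : ℚ) ^ m) = 1 ∨ ((-1 : ℚ) ^ m) = -1 := neg_one_pow_eq_or ℚ _
  have hεO : ε ∈ O p := by
    rcases hε1 with h | h <;> rw [h]
    · exact (O p).one_mem
    · exact (O p).neg_mem (O p).one_mem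
  have hsO : ((-1 : ℚ) ^ m) ∈ O p := by
    rcases hs1 with h | h <;> rw [h]
    · exact (O p).one_mem
    · exact (O p).neg_mem (O p).one_mem
  have h3 := eps_one hp A B hAB hA
  obtain ⟨E1, t1, l1⟩ := Tb_one hp ε hε1 h3
  obtain ⟨E2, t2, l2⟩ := Ta_one hp ε hε1 h3
  have hG := G_one (2 * m) (hp6 hp) A B hAB hA
  rw [show 3 * (2 * m) = 6 * m by ring, show 2 * (2 * m) = 4 * m by ring] at hG
  have hC := Cmem (p := p) (2 * m)
  rw [show 3 * (2 * m) = 6 * m by ring, show 2 * (2 * m) = 4 * m by ring] at hC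
  have hI := interp (p := p) (1 / 4) (1 / 2) (-8) (-1 / 6) (-1 / 2) (-2 / 3) (-1 / 4) (-3 / 4) (-1)
    3 (-2) (mem12 hc 3 (by norm_num)) (mem12 hc 6 (by norm_num)) (mem12 hc (-96) (by norm_num))
    (mem12 hc (-2) (by norm_num)) (mem12 hc (-6) (by norm_num)) (mem12 hc (-8) (by norm_num))
    (mem12 hc (-3) (by norm_num)) (mem12 hc (-9) (by norm_num)) (mem12 hc (-12) (by norm_num))
    (mem12 hc 36 (by norm_num)) (mem12 hc (-24) (by norm_num)) (by norm_num) (by norm_num)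
    (by norm_num) (by norm_num)
  have hB1 := IIb (2 * m) p (by omega)
  have hA1 := IIa (3 * m) p (by omega)
  have pq : (p : ℚ) = 12 * m + 1 := by exact_mod_cast hp
  rw [hyp_swap (1 / 4 + -1 / 6 * (p : ℚ)),
    show (1 / 2 : ℚ) + -1 / 2 * p = -((3 * (2 * m) : ℕ) : ℚ) by rw [pq]; push_cast; ring,
    show (1 / 4 : ℚ) + -1 / 6 * p = 1 / 12 - ((2 * m : ℕ) : ℚ) by rw [pq]; push_cast; ring,
    show (1 : ℚ) + -2 / 3 * p = (1 - 12 * ((2 * m : ℕ) : ℚ)) / 3 by rw [pq]; push_cast; ring,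
    show (1 / 4 : ℚ) + -1 / 4 * p = -((3 * m : ℕ) : ℚ) by rw [pq]; push_cast; ring,
    show (1 / 2 : ℚ) + -3 / 4 * p = -3 * ((3 * m : ℕ) : ℚ) - 1 / 4 by rw [pq]; push_cast; ring,
    show (1 : ℚ) + -1 * p = -4 * ((3 * m : ℕ) : ℚ) by rw [pq]; push_cast; ring] at hI
  rw [← mul_assoc ((-1 : ℚ) ^ m) ε] at t1 t2
  obtain ⟨w2, w3, w4, w6, w7, w8, w5, g2, g3, g4, g6, g7, g8, g5, q2, q3, q4, q6, q7, q8, q5⟩ :=
    harm_one hp
  have := combine (mem12 hc 36 (by norm_num)) (mem12 hc (-24) (by norm_num))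
    ((O p).mul_mem hsO hεO) hC hI
    (hB1.trans t1) l1 (hA1.trans t2) l2 (by norm_num)
    (t := 2 / 3 * fq p 2 - 3 / 4 * fq p 3) ?_
  · exact this.trans (hG.const_mul ((O p).mul_mem hsO hεO))
  · refine ⟨(1 / 12) * (w5 + 4 * w2 - 6 * w3 + 8 * w4 - 5 * w6), ?_, ?_⟩
    · refine (O p).mul_mem (mem12 hc 1 (by norm_num)) ?_
      repeat' first
        | assumption
        | exact ofNat_mem' _
        | with_reducible apply (O p).add_mem
        | with_reducible apply (O p).sub_mem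
        | with_reducible apply (O p).mul_mem
    · linear_combination (1 / 12 : ℚ) * q5 + (1 / 3 : ℚ) * q2 - (1 / 2 : ℚ) * q3 +
        (2 / 3 : ℚ) * q4 - (5 / 12 : ℚ) * q6

end

end Pool.Agent.SC
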