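import Pool.Agent.Work.MP_5b0587_nt.Final1

/-!
The congruences for primes `p = 12 m + 7`.
-/

namespace Pool.Agent.SC

open Finset

variable {p : ℕ} [Fact p.Prime] {m : ℕ} (hp : p = 12 * m + 7) (A B : ℤ)
    (hAB : (p : ℤ) = A ^ 2 + 3 * B ^ 2) (hA : A % 3 = 1)

include hp hAB hA

theorem three_pow_zmod : (3 : ZMod p) ^ (6 * m + 3) = -1 := by
  have hA0 : A ≠ 0 := by rintro rfl; norm_num at hA
  have hB0 : B ≠ 0 := B_ne_zero A B hAB
  have hAz : (A : ZMod p) ≠ 0 := by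
    intro h
    exact ndvd_A A B hAB hA0 ((ZMod.intCast_zmod_eq_zero_iff_dvd _ _).mp h)
  have hBz : (B : ZMod p) ≠ 0 := by
    intro h
    exact ndvd_B A B hAB hB0 ((ZMod.intCast_zmod_eq_zero_iff_dvd _ _).mp h)
  have h0 : (A : ZMod p) ^ 2 = -3 * (B : ZMod p) ^ 2 := by
    have : ((p : ℤ) : ZMod p) = ((A ^ 2 + 3 * B ^ 2 : ℤ) : ZMod p) := by rw [hAB]
    push_cast at this
    rw [ZMod.natCast_self] at this
    linear_combination -this
  have h1 : ((A : ZMod p) ^ 2) ^ (6 * m + 3) = (-3 * (B : ZMod p) ^ 2) ^ (6 * m + 3) := by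
    rw [h0]
  have hp1 : 2 * (6 * m + 3) = p - 1 := by omega
  rw [mul_pow, ← pow_mul, ← pow_mul, hp1, ZMod.pow_card_sub_one_eq_one hAz,
    ZMod.pow_card_sub_one_eq_one hBz, mul_one] at h1
  have h2 : (-3 : ZMod p) ^ (6 * m + 3) = -(3 : ZMod p) ^ (6 * m + 3) :=
    Odd.neg_pow ⟨3 * m + 1, by ring⟩ 3
  rw [h2] at h1
  linear_combination h1

theorem three_pow_cg : cg p 1 ((3 : ℚ) ^ (6 * m + 3)) (-1) := by
  have h := three_pow_zmod hp A B hAB hA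
  have h2 : (((3 : ℤ) ^ (6 * m + 3) : ℤ) : ZMod p) = ((-1 : ℤ) : ZMod p) := by
    push_cast
    exact h
  have := zmod_cg h2
  push_cast at this
  exact this

/-- the choice of the sign of `B` -/
theorem exists_B : ∃ B1 : ℤ, (B1 = B ∨ B1 = -B) ∧ B1 % 4 = 1 ∧
    (3 : ZMod p) ^ (3 * m + 2) * (B1 : ZMod p) = -(A : ZMod p) := by
  have h3 := three_pow_zmod hp A B hAB hA
  have h0 : (A : ZMod p) ^ 2 = -3 * (B : ZMod p) ^ 2 := by
    have : ((p : ℤ) : ZMod p) = ((A ^ 2 + 3 * B ^ 2 : ℤ) : ZMod p) := by rw [hAB]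
    push_cast at this
    rw [ZMod.natCast_self] at this
    linear_combination -this
  have h1 : ((3 : ZMod p) ^ (3 * m + 2)) ^ 2 = -3 := by
    rw [← pow_mul, show (3 * m + 2) * 2 = (6 * m + 3) + 1 by ring, pow_succ, h3]
    ring
  have h2 : ((3 : ZMod p) ^ (3 * m + 2) * (B : ZMod p) + A) *
      ((3 : ZMod p) ^ (3 * m + 2) * (B : ZMod p) - A) = 0 := by
    linear_combination (B : ZMod p) ^ 2 * h1 - h0
  have hexp : (p + 1) / 4 = 3 * m + 2 := by omega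
  rcases mul_eq_zero.mp h2 with h | h
  · refine ⟨B, Or.inl rfl, ?_, by linear_combination h⟩
    apply sgn_seven p (by omega) A B hAB hA
    rw [hexp]
    linear_combination h
  · have h' : (3 : ZMod p) ^ (3 * m + 2) * ((-B : ℤ) : ZMod p) = -(A : ZMod p) := by
      push_cast
      linear_combination -h
    refine ⟨-B, Or.inr rfl, ?_, h'⟩
    apply sgn_seven p (by omega) A (-B) (by rw [hAB]; ring) hA
    rw [hexp]
    exact h'

theorem G_seven (h : (3 : ZMod p) ^ (3 * m + 2) * (B : ZMod p) = -(A : ZMod p)) :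
    cg p 2 ((3 : ℚ) ^ (3 * m + 2) * (((6 * m + 3).factorial : ℚ) /
      ((2 * m + 1).factorial * (4 * m + 2).factorial)) *
      (1 + p * (2 / 3 * fq p 2 - fq p 3))) (6 * B - p / (2 * B)) := by
  have h6 := hp6' hp
  have hc := coprime12 h6
  have hb := binom_cg (2 * m + 1) h6 A B hAB hA
  rw [show 3 * (2 * m + 1) = 6 * m + 3 by ring, show 2 * (2 * m + 1) = 4 * m + 2 by ring] at hb
  have m1 : fq p 2 ∈ O p := fq_mem p 2 (coprime_lit h6 (by norm_num))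
  have m2 : fq p 3 ∈ O p := fq_mem p 3 (coprime_lit h6 (by norm_num))
  have hA0 : A ≠ 0 := by rintro rfl; norm_num at hA
  have hB0 : B ≠ 0 := B_ne_zero A B hAB
  have hAu : IsU p (A : ℚ) := isU_int (ndvd_A A B hAB hA0)
  have hBu : IsU p (B : ℚ) := isU_int (ndvd_B A B hAB hB0)
  have h3u : IsU p (3 : ℚ) := by
    have : IsU p ((3 : ℕ) : ℚ) := isU_natCast (coprime_lit h6 (by norm_num)) (by norm_num)
    exact_mod_cast this
  have h2u : IsU p (2 : ℚ) := isU_two (by omega)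
  have hAne := hAu.2.2
  have hBne := hBu.2.2
  have l3 := pow3_seven hp (three_pow_cg hp A B hAB hA)
  have hABq : (p : ℚ) = (A : ℚ) ^ 2 + 3 * (B : ℚ) ^ 2 := by exact_mod_cast hAB
  have hth : (3 : ℚ) ^ (3 * m + 2) = 9 * (3 ^ m) ^ 3 := by
    rw [pow_add, mul_comm 3 m, pow_mul]; norm_num; ring
  -- the unit u
  set u : ℚ := (3 : ℚ) ^ (3 * m + 2) * A / (3 * B) with hu
  have hB3 : IsU p (3 * (B : ℚ)) := h3u.mul hBu
  have hiB : (1 / (3 * (B : ℚ) ^ 2)) ∈ O p := by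
    rw [show 1 / (3 * (B : ℚ) ^ 2) = (3 : ℚ)⁻¹ * ((B : ℚ)⁻¹) ^ 2 by field_simp]
    exact (O p).mul_mem h3u.2.1 ((O p).pow_mem hBu.2.1 2)
  have hu2 : Lg p (u ^ 2) (fq p 3 / 2 - 1 / (3 * (B : ℚ) ^ 2)) := by
    have l4 : Lg p (1 + p * (-(1 / (3 * (B : ℚ) ^ 2)))) (-(1 / (3 * (B : ℚ) ^ 2))) :=
      Lg.mk ((O p).neg_mem hiB)
    refine (l3.mul l4).eq ?_ (by ring)
    rw [hu, hth]
    field_simp
    rw [hABq]
    ring
  have hu1 : cg p 1 u 1 := by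
    -- theta * A = 3 B mod p
    have z1 : (((3 : ℤ) ^ (3 * m + 2) * A : ℤ) : ZMod p) = ((3 * B : ℤ) : ZMod p) := by
      push_cast
      have h3 := three_pow_zmod hp A B hAB hA
      have h1 : ((3 : ZMod p) ^ (3 * m + 2)) ^ 2 = -3 := by
        rw [← pow_mul, show (3 * m + 2) * 2 = (6 * m + 3) + 1 by ring, pow_succ, h3]
        ring
      linear_combination ((3 : ZMod p) ^ (3 * m + 2)) * h - (B : ZMod p) * h1
    have z2 := (zmod_cg z1).mul_const hB3.2.1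
    push_cast at z2
    rw [mul_inv_cancel₀ hB3.2.2] at z2
    rw [hu, div_eq_mul_inv]
    exact z2
  have h2n : IsU p ((2 : ℕ) : ℚ) := by exact_mod_cast h2u
  have hul := Lg.root h2n hu1 hu2
  have hs : 2 / 3 * fq p 2 - fq p 3 ∈ O p :=
    (O p).sub_mem ((O p).mul_mem (mem12 hc 8 (by norm_num)) m1) m2
  have hprod := (hul.mul hb).mul (Lg.mk hs)
  -- simplify the exponent
  have hexp : cg p 1 ((fq p 3 / 2 - 1 / (3 * (B : ℚ) ^ 2)) / ((2 : ℕ) : ℚ) +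
      (-(1 / (4 * (A : ℚ) ^ 2)) - (2 / 3) * fq p 2 + (3 / 4) * fq p 3) +
      (2 / 3 * fq p 2 - fq p 3)) (-(1 / (12 * (B : ℚ) ^ 2))) := by
    refine ⟨-((12 : ℚ)⁻¹ * ((A : ℚ)⁻¹) ^ 2 * ((B : ℚ)⁻¹) ^ 2), ?_, ?_⟩
    · exact (O p).neg_mem ((O p).mul_mem ((O p).mul_mem (mem12 hc 1 (by norm_num))
        ((O p).pow_mem hAu.2.1 2)) ((O p).pow_mem hBu.2.1 2))
    · push_cast
      rw [hABq]
      field_simp
      ring
  have hfin := hprod.congr hexp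
  have hfin2 : Lg p ((3 : ℚ) ^ (3 * m + 2) * (((6 * m + 3).factorial : ℚ) /
      ((2 * m + 1).factorial * (4 * m + 2).factorial)) *
      (1 + p * (2 / 3 * fq p 2 - fq p 3)) / (6 * B)) (-(1 / (12 * (B : ℚ) ^ 2))) := by
    refine hfin.eq ?_ rfl
    rw [hu]
    field_simp
    ring
  have h4 := hfin2.cg_mul ((O p).mul_mem (ofNat_mem' 6) (intCast_mem B)) (by positivity)
  refine h4.trans (cg.of_eq ?_)
  field_simp
  ring

section

variable (B1 : ℤ) (hB1 : (p : ℤ) = A ^ 2 + 3 * B1 ^ 2)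
    (h : (3 : ZMod p) ^ (3 * m + 2) * (B1 : ZMod p) = -(A : ZMod p))

include hB1 h

omit hAB in
theorem S3_seven : cg p 2 (hyp (1 / 4) (1 / 4) 1 (1 / 4) p) ((6 * B1 - p / (2 * B1)) / 2) := by
  have h6 := hp6' hp
  have hc := coprime12 h6
  have h3 := three_pow_cg hp A B1 hB1 hA
  obtain ⟨E1, t1, l1⟩ := X_seven hp h3
  obtain ⟨E2, t2, l2⟩ := TB3_seven hp h3
  have hG := G_seven hp A B1 hB1 hA h
  have hC := Cmem (p := p) (2 * m + 1)
  rw [show 3 * (2 * m + 1) = 6 * m + 3 by ring, show 2 * (2 * m + 1) = 4 * m + 2 by ring] at hC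
  have hθ : (3 : ℚ) ^ (3 * m + 2) ∈ O p := (O p).pow_mem (ofNat_mem' 3) _
  have hI := interp_sym (p := p) (1 / 4) (1 / 4) (-3 / 4) (1 / 4) (-1 / 2) (-3 / 4) (9 / 4) (3 / 2)
    (3 / 4) (1 / 4) (mem12 hc 3 (by norm_num)) (mem12 hc 3 (by norm_num))
    (mem12 hc (-9) (by norm_num)) (mem12 hc 3 (by norm_num)) (mem12 hc (-6) (by norm_num))
    (mem12 hc (-9) (by norm_num)) (mem12 hc 27 (by norm_num)) (mem12 hc 18 (by norm_num))
    (mem12 hc 9 (by norm_num)) (mem12 hc 3 (by norm_num)) (by norm_num) (by norm_num)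
    (by norm_num)
  have hA1 := S3A2 (3 * m + 1) p (by omega)
  have hB1' := S3B (9 * m + 5) p (by omega)
  have pq : (p : ℚ) = 12 * m + 7 := by exact_mod_cast hp
  rw [show (1 / 4 : ℚ) + -3 / 4 * p = -((3 * (3 * m + 1) + 2 : ℕ) : ℚ) by rw [pq]; push_cast; ring,
    show (1 / 4 : ℚ) + 1 / 4 * p = 1 + ((3 * m + 1 : ℕ) : ℚ) by rw [pq]; push_cast; ring,
    show (1 : ℚ) + -1 / 2 * p = -1 / 2 - 2 * ((3 * m + 1 : ℕ) : ℚ) by rw [pq]; push_cast; ring,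
    show (1 / 4 : ℚ) + 9 / 4 * p = 1 + 3 * ((9 * m + 5 : ℕ) : ℚ) by rw [pq]; push_cast; ring,
    show (1 : ℚ) + 3 / 2 * p = 3 / 2 + 2 * ((9 * m + 5 : ℕ) : ℚ) by rw [pq]; push_cast; ring] at hI
  have hx : hyp (-((3 * (3 * m + 1) + 2 : ℕ) : ℚ)) (1 + 3 * ((9 * m + 5 : ℕ) : ℚ))
      (3 / 2 + 2 * ((9 * m + 5 : ℕ) : ℚ)) (1 / 4) p =
      hyp (-((9 * m + 5 : ℕ) : ℚ)) (1 + 3 * ((9 * m + 5 : ℕ) : ℚ))
      (3 / 2 + 2 * ((9 * m + 5 : ℕ) : ℚ)) (1 / 4) p := by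
    rw [show 3 * (3 * m + 1) + 2 = 9 * m + 5 by ring]
  rw [hx] at hI
  have t1' : 3 / 2 * (27 / 16 : ℚ) ^ (3 * m + 1) * poch (5 / 3) (2 * (3 * m + 1)) /
      poch (3 / 2) (2 * (3 * m + 1)) = (3 : ℚ) ^ (3 * m + 2) / 2 *
        (((6 * m + 3).factorial : ℚ) / ((2 * m + 1).factorial * (4 * m + 2).factorial)) * E1 := by
    linear_combination (3 / 2 : ℚ) * t1
  have t2' : (16 / 27 : ℚ) ^ (9 * m + 5) * poch (3 / 2) (2 * (9 * m + 5)) /
      poch (4 / 3) (2 * (9 * m + 5)) = (3 : ℚ) ^ (3 * m + 2) / 2 *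
        (((6 * m + 3).factorial : ℚ) / ((2 * m + 1).factorial * (4 * m + 2).factorial)) * E2 := by
    rw [t2]; ring
  have h2O : (1 / 2 : ℚ) ∈ O p := mem12 hc 6 (by norm_num)
  have := combine (mem12 hc 9 (by norm_num)) (mem12 hc 3 (by norm_num))
    (u := (3 : ℚ) ^ (3 * m + 2) / 2)
    (by rw [div_eq_mul_one_div]; exact (O p).mul_mem hθ h2O) hC hI
    (hA1.trans t1') l1 (hB1'.trans t2') l2 (by norm_num)
    (cg.of_eq (show (3 / 4 : ℚ) * (-(4 / 3) * fq p 2 - fq p 3) + 1 / 4 * (20 / 3 * fq p 2 -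
      fq p 3) = 2 / 3 * fq p 2 - fq p 3 by ring))
  have h5 := hG.const_mul h2O
  exact this.trans ((cg.of_eq (by ring)).trans (h5.trans (cg.of_eq (by ring))))

omit hAB in
theorem S1_seven : cg p 2 (hyp (1 / 4) (1 / 4) 1 4 p)
    ((-1) ^ m * (6 * B1 - p / (2 * B1))) := by
  have h6 := hp6' hp
  have hc := coprime12 h6
  have h3 := three_pow_cg hp A B1 hB1 hA
  obtain ⟨E1, t1, l1⟩ := X_seven hp h3
  obtain ⟨E2, t2, l2⟩ := TB1_seven hp h3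
  have hG := G_seven hp A B1 hB1 hA h
  have hC := Cmem (p := p) (2 * m + 1)
  rw [show 3 * (2 * m + 1) = 6 * m + 3 by ring, show 2 * (2 * m + 1) = 4 * m + 2 by ring] at hC
  have hθ : (3 : ℚ) ^ (3 * m + 2) ∈ O p := (O p).pow_mem (ofNat_mem' 3) _
  have hs1 : ((-1 : ℚ) ^ m) = 1 ∨ ((-1 : ℚ) ^ m) = -1 := neg_one_pow_eq_or ℚ _
  have hsO : ((-1 : ℚ) ^ m) ∈ O p := by
    rcases hs1 with h | h <;> rw [h]
    · exact (O p).one_mem
    · exact (O p).neg_mem (O p).one_mem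
  have hI := interp_sym (p := p) (1 / 4) 4 (-3 / 4) (-1 / 4) (-1) (-3 / 4) (-9 / 4) (-3)
    (3 / 2) (-1 / 2) (mem12 hc 3 (by norm_num)) (ofNat_mem' 4)
    (mem12 hc (-9) (by norm_num)) (mem12 hc (-3) (by norm_num)) (mem12 hc (-12) (by norm_num))
    (mem12 hc (-9) (by norm_num)) (mem12 hc (-27) (by norm_num)) (mem12 hc (-36) (by norm_num))
    (mem12 hc 18 (by norm_num)) (mem12 hc (-6) (by norm_num)) (by norm_num) (by norm_num)
    (by norm_num)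
  have hA1 := S1A2 (3 * m + 1) p (by omega)
  have hB1' := S1B (9 * m + 5) p (by omega)
  have pq : (p : ℚ) = 12 * m + 7 := by exact_mod_cast hp
  rw [show (1 / 4 : ℚ) + -3 / 4 * p = -((3 * (3 * m + 1) + 2 : ℕ) : ℚ) by rw [pq]; push_cast; ring,
    show (1 / 4 : ℚ) + -1 / 4 * p = -1 / 2 - ((3 * m + 1 : ℕ) : ℚ) by rw [pq]; push_cast; ring,
    show (1 : ℚ) + -1 * p = -2 - 4 * ((3 * m + 1 : ℕ) : ℚ) by rw [pq]; push_cast; ring,
    show (1 / 4 : ℚ) + -9 / 4 * p = -3 * ((9 * m + 5 : ℕ) : ℚ) - 1 / 2 by rw [pq]; push_cast; ring,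
    show (1 : ℚ) + -3 * p = -4 * ((9 * m + 5 : ℕ) : ℚ) by rw [pq]; push_cast; ring] at hI
  have hx : hyp (-((3 * (3 * m + 1) + 2 : ℕ) : ℚ)) (-3 * ((9 * m + 5 : ℕ) : ℚ) - 1 / 2)
      (-4 * ((9 * m + 5 : ℕ) : ℚ)) 4 p =
      hyp (-((9 * m + 5 : ℕ) : ℚ)) (-3 * ((9 * m + 5 : ℕ) : ℚ) - 1 / 2)
      (-4 * ((9 * m + 5 : ℕ) : ℚ)) 4 p := by
    rw [show 3 * (3 * m + 1) + 2 = 9 * m + 5 by ring]
  rw [hx] at hI
  have t1' : -3 * (-(27 / 16 : ℚ)) ^ (3 * m + 1) * poch (5 / 3) (2 * (3 * m + 1)) /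
      poch (3 / 2) (2 * (3 * m + 1)) = ((-1) ^ m * (3 : ℚ) ^ (3 * m + 2)) *
        (((6 * m + 3).factorial : ℚ) / ((2 * m + 1).factorial * (4 * m + 2).factorial)) * E1 := by
    have : (-(27 / 16 : ℚ)) ^ (3 * m + 1) = -((-1) ^ m * (27 / 16) ^ (3 * m + 1)) := by
      rw [neg_pow, pow_add (-1 : ℚ), pow_mul (-1 : ℚ)]; norm_num
    rw [this]
    linear_combination (3 * (-1 : ℚ) ^ m) * t1
  have t2' : (-(27 / 16 : ℚ)) ^ (9 * m + 5) * poch (2 / 3) (2 * (9 * m + 5)) /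
      poch (1 / 2) (2 * (9 * m + 5)) = ((-1) ^ m * (3 : ℚ) ^ (3 * m + 2)) *
        (((6 * m + 3).factorial : ℚ) / ((2 * m + 1).factorial * (4 * m + 2).factorial)) * E2 := by
    rw [t2]; ring
  have := combine (mem12 hc 18 (by norm_num)) (mem12 hc (-6) (by norm_num))
    ((O p).mul_mem hsO hθ) hC hI
    (hA1.trans t1') l1 (hB1'.trans t2') l2 (by norm_num)
    (cg.of_eq (show (3 / 2 : ℚ) * (-(4 / 3) * fq p 2 - fq p 3) + -1 / 2 * (-(16 / 3) * fq p 2 -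
      fq p 3) = 2 / 3 * fq p 2 - fq p 3 by ring))
  have h5 := hG.const_mul hsO
  exact this.trans ((cg.of_eq (by ring)).trans h5)

omit hAB in
theorem S2_seven (hm : 0 < m) : cg p 2 (hyp (1 / 4) (1 / 2) 1 (-8) p)
    ((-1) ^ m * (6 * B1 - p / (2 * B1))) := by
  have h6 := hp6' hp
  have hc := coprime12 h6
  have h3 := three_pow_cg hp A B1 hB1 hA
  obtain ⟨E1, t1, l1⟩ := Tb_seven hp h3
  obtain ⟨E2, t2, l2⟩ := Ta_seven hp h3
  have hG := G_seven hp A B1 hB1 hA h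
  have hC := Cmem (p := p) (2 * m + 1)
  rw [show 3 * (2 * m + 1) = 6 * m + 3 by ring, show 2 * (2 * m + 1) = 4 * m + 2 by ring] at hC
  have hθ : (3 : ℚ) ^ (3 * m + 2) ∈ O p := (O p).pow_mem (ofNat_mem' 3) _
  have hs1 : ((-1 : ℚ) ^ m) = 1 ∨ ((-1 : ℚ) ^ m) = -1 := neg_one_pow_eq_or ℚ _
  have hsO : ((-1 : ℚ) ^ m) ∈ O p := by
    rcases hs1 with h | h <;> rw [h]
    · exact (O p).one_mem
    · exact (O p).neg_mem (O p).one_mem
  have h7 : IsU p ((7 : ℕ) : ℚ) := isU_of_lt (by norm_num) (by omega)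
  have h7m : ((7 : ℚ))⁻¹ ∈ O p := by exact_mod_cast h7.2.1
  have hw1 : (9 / 7 : ℚ) ∈ O p := by
    rw [div_eq_mul_inv]; exact (O p).mul_mem (ofNat_mem' 9) h7m
  have hw2 : (-2 / 7 : ℚ) ∈ O p := by
    rw [div_eq_mul_inv]; exact (O p).mul_mem ((O p).neg_mem (ofNat_mem' 2)) h7m
  have hI := interp (p := p) (1 / 4) (1 / 2) (-8) (-1 / 6) (-1 / 2) (-2 / 3) (-3 / 4) (-9 / 4) (-3)
    (9 / 7) (-2 / 7) (mem12 hc 3 (by norm_num)) (mem12 hc 6 (by norm_num))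
    (mem12 hc (-96) (by norm_num))
    (mem12 hc (-2) (by norm_num)) (mem12 hc (-6) (by norm_num)) (mem12 hc (-8) (by norm_num))
    (mem12 hc (-9) (by norm_num)) (mem12 hc (-27) (by norm_num)) (mem12 hc (-36) (by norm_num))
    hw1 hw2 (by norm_num) (by norm_num) (by norm_num) (by norm_num)
  have hB1' := IIb (2 * m + 1) p (by omega)
  have hA1 := IIa (9 * m + 5) p (by omega)
  have pq : (p : ℚ) = 12 * m + 7 := by exact_mod_cast hp
  rw [hyp_swap (1 / 4 + -1 / 6 * (p : ℚ)),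
    show (1 / 2 : ℚ) + -1 / 2 * p = -((3 * (2 * m + 1) : ℕ) : ℚ) by rw [pq]; push_cast; ring,
    show (1 / 4 : ℚ) + -1 / 6 * p = 1 / 12 - ((2 * m + 1 : ℕ) : ℚ) by rw [pq]; push_cast; ring,
    show (1 : ℚ) + -2 / 3 * p = (1 - 12 * ((2 * m + 1 : ℕ) : ℚ)) / 3 by rw [pq]; push_cast; ring,
    show (1 / 4 : ℚ) + -3 / 4 * p = -((9 * m + 5 : ℕ) : ℚ) by rw [pq]; push_cast; ring,
    show (1 / 2 : ℚ) + -9 / 4 * p = -3 * ((9 * m + 5 : ℕ) : ℚ) - 1 / 4 by rw [pq]; push_cast; ring,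
    show (1 : ℚ) + -3 * p = -4 * ((9 * m + 5 : ℕ) : ℚ) by rw [pq]; push_cast; ring] at hI
  rw [← mul_assoc ((-1 : ℚ) ^ m)] at t1 t2
  obtain ⟨w1, w2, w3, w4, w5, w6, w7, w8, w9, w10, w11, g1, g2, g3, g4, g5, g6, g7, g8, g9, g10,
    g11, q1, q2, q3, q4, q5, q6, q7, q8, q9, q10, q11⟩ := harm_seven hp
  have := combine hw1 hw2 ((O p).mul_mem hsO hθ) hC hI
    (hB1'.trans t1) l1 (hA1.trans t2) l2 (by norm_num)
    (t := 2 / 3 * fq p 2 - fq p 3) ?_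
  · have h5 := hG.const_mul hsO
    exact this.trans ((cg.of_eq (by ring)).trans h5)
  · refine ⟨(7 : ℚ)⁻¹ * ((1 / 12) * (-(11 * w11) - 32 * w1 + 56 * w2 - 53 * w3 + 18 * w4)),
      ?_, ?_⟩
    · refine (O p).mul_mem h7m ((O p).mul_mem (mem12 hc 1 (by norm_num)) ?_)
      repeat' first
        | assumption
        | exact ofNat_mem' _
        | with_reducible apply (O p).add_mem
        | with_reducible apply (O p).sub_mem
        | with_reducible apply (O p).mul_mem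
        | with_reducible apply (O p).neg_mem
    · linear_combination (1 / 7 : ℚ) * (-(11 / 12) * q11 - (8 / 3) * q1 + (14 / 3) * q2 -
        (53 / 12) * q3 + (3 / 2) * q4)

end

end Pool.Agent.SC
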