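import Pool.Agent.Work.MP_5b0587_nt.Defs

/-!
Harmonic numbers modulo p through Fermat quotients.
-/

namespace Pool.Agent.SC

open Finset

theorem coprime_of_lt {p k : ℕ} [Fact p.Prime] (h0 : 0 < k) (hk : k < p) : k.Coprime p :=
  Nat.Coprime.symm ((Fact.out : p.Prime).coprime_iff_not_dvd.2 (Nat.not_dvd_of_pos_of_lt h0 hk))

theorem isU_of_lt {p k : ℕ} [Fact p.Prime] (h0 : 0 < k) (hk : k < p) : IsU p (k : ℚ) :=
  isU_natCast (coprime_of_lt h0 hk) (by omega)

theorem isU_two {p : ℕ} [Fact p.Prime] (hp : p ≠ 2) : IsU p (2 : ℚ) := by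
  have h := isU_natCast (p := p) (n := 2) (by
    rw [Nat.coprime_primes Nat.prime_two (Fact.out : p.Prime)]; exact fun h => hp h.symm) (by norm_num)
  exact_mod_cast h

theorem fq_mem (p a : ℕ) [Fact p.Prime] (ha : a.Coprime p) : fq p a ∈ O p := by
  have hp : p.Prime := Fact.out
  have h := Int.ModEq.pow_card_sub_one_eq_one hp (n := (a : ℤ)) (by
    rw [Nat.isCoprime_iff_coprime]; exact ha)
  obtain ⟨c, hc⟩ := (Int.modEq_iff_dvd.1 h.symm)
  have hp0 : (p : ℚ) ≠ 0 := by exact_mod_cast hp.ne_zero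
  have : fq p a = (c : ℚ) := by
    unfold fq
    rw [div_eq_iff hp0]
    have := congrArg (fun z : ℤ => (z : ℚ)) hc
    push_cast at this
    rw [this]; ring
  rw [this]
  exact intCast_mem c

theorem fq_eq (p a : ℕ) [Fact p.Prime] : (a : ℚ) ^ (p - 1) = 1 + p * fq p a := by
  have hp : p.Prime := Fact.out
  have hp0 : (p : ℚ) ≠ 0 := by exact_mod_cast hp.ne_zero
  unfold fq
  field_simp
  ring

theorem fq_mul (p a b : ℕ) [Fact p.Prime] (ha : a.Coprime p) (hb : b.Coprime p) :
    cg p 1 (fq p (a * b)) (fq p a + fq p b) := by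
  have hp : p.Prime := Fact.out
  have hp0 : (p : ℚ) ≠ 0 := by exact_mod_cast hp.ne_zero
  refine ⟨fq p a * fq p b, (O p).mul_mem (fq_mem p a ha) (fq_mem p b hb), ?_⟩
  have h1 := fq_eq p a
  have h2 := fq_eq p b
  have h3 := fq_eq p (a * b)
  push_cast at h3
  rw [mul_pow, h1, h2] at h3
  have h4 : (p : ℚ) * (fq p (a * b) - (fq p a + fq p b)) = p * (p ^ 1 * (fq p a * fq p b)) := by
    rw [pow_one]
    linear_combination -h3
  exact mul_left_cancel₀ hp0 h4

theorem harmonic_mem (p k : ℕ) [Fact p.Prime] (hk : k < p) : harmonic k ∈ O p := by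
  unfold harmonic
  refine (O p).sum_mem (fun i hi => ?_)
  rw [mem_range] at hi
  have := (isU_of_lt (p := p) (k := i + 1) (by omega) (by omega)).2.1
  exact_mod_cast this

/-- the full harmonic number -/
theorem harmonic_full (p : ℕ) [Fact p.Prime] (hp : p ≠ 2) : cg p 1 (harmonic (p - 1)) 0 := by
  have hpp : p.Prime := Fact.out
  have h2 := isU_two hp
  have h1 : (2 : ℚ) * harmonic (p - 1)
      = ∑ i ∈ range (p - 1), (((i : ℚ) + 1)⁻¹ + ((p : ℚ) - 1 - i)⁻¹) := by
    rw [sum_add_distrib, two_mul]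
    congr 1
    · unfold harmonic; exact sum_congr rfl (fun i _ => by push_cast; rfl)
    · rw [← sum_range_reflect]
      unfold harmonic
      refine sum_congr rfl (fun i hi => ?_)
      rw [mem_range] at hi
      congr 1
      have : ((p - 1 - 1 - i : ℕ) : ℚ) = (p : ℚ) - 1 - 1 - i := by
        rw [Nat.cast_sub (by omega), Nat.cast_sub (by omega), Nat.cast_sub (by omega)]
        simp
      rw [this]; push_cast; ring
  have h3 : cg p 1 ((2 : ℚ) * harmonic (p - 1)) 0 := by
    rw [h1]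
    have : (0 : ℚ) = ∑ i ∈ range (p - 1), (0 : ℚ) := by simp
    rw [this]
    refine cg.sum (fun i hi => ?_)
    rw [mem_range] at hi
    have u1 := isU_of_lt (p := p) (k := i + 1) (by omega) (by omega)
    have u2 := isU_of_lt (p := p) (k := p - 1 - i) (by omega) (by omega)
    have e2 : ((p - 1 - i : ℕ) : ℚ) = (p : ℚ) - 1 - i := by
      rw [Nat.cast_sub (by omega), Nat.cast_sub (by omega)]; simp
    have e1 : ((i + 1 : ℕ) : ℚ) = (i : ℚ) + 1 := by push_cast; rfl
    rw [e1] at u1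
    rw [e2] at u2
    refine ⟨((i : ℚ) + 1)⁻¹ * ((p : ℚ) - 1 - i)⁻¹, (O p).mul_mem u1.2.1 u2.2.1, ?_⟩
    have n1 := u1.2.2
    have n2 := u2.2.2
    field_simp
    ring
  have h4 := h3.const_mul h2.2.1
  rwa [mul_zero, ← mul_assoc, inv_mul_cancel₀ h2.2.2, one_mul] at h4

theorem harmonic_reflect (p k : ℕ) [Fact p.Prime] (hp : p ≠ 2) (hk : k < p) :
    cg p 1 (harmonic (p - 1 - k)) (harmonic k) := by
  have hpp : p.Prime := Fact.out
  induction k with
  | zero => rw [Nat.sub_zero, harmonic_zero]; exact harmonic_full p hp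
  | succ k ih =>
    have h1 := ih (by omega)
    have e : p - 1 - k = (p - 1 - (k + 1)) + 1 := by omega
    rw [e, harmonic_succ] at h1
    rw [harmonic_succ]
    have u1 := isU_of_lt (p := p) (k := k + 1) (by omega) (by omega)
    have u2 := isU_of_lt (p := p) (k := p - 1 - (k + 1) + 1) (by omega) (by omega)
    have e2 : ((p - 1 - (k + 1) + 1 : ℕ) : ℚ) = (p : ℚ) - ((k + 1 : ℕ) : ℚ) := by
      rw [← Nat.cast_sub (by omega)]; congr 1; omega
    have h2 : cg p 1 ((((p - 1 - (k + 1) + 1 : ℕ)) : ℚ)⁻¹) (-((k + 1 : ℕ) : ℚ)⁻¹) := by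
      refine ⟨(((p - 1 - (k + 1) + 1 : ℕ)) : ℚ)⁻¹ * ((k + 1 : ℕ) : ℚ)⁻¹,
        (O p).mul_mem u2.2.1 u1.2.1, ?_⟩
      have n1 := u1.2.2
      have n2 := u2.2.2
      rw [e2] at n2 ⊢
      field_simp
      ring
    have h3 := h1.sub h2
    rwa [add_sub_cancel_right, sub_neg_eq_add] at h3

theorem Lg.prod {p : ℕ} {ι : Type*} {s : Finset ι} {f g : ι → ℚ}
    (h : ∀ i ∈ s, Lg p (f i) (g i)) : Lg p (∏ i ∈ s, f i) (∑ i ∈ s, g i) := by
  classical
  induction s using Finset.induction_on with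
  | empty => simpa using Lg.one
  | insert a s ha ih =>
    rw [prod_insert ha, sum_insert ha]
    exact (h a (mem_insert_self a s)).mul (ih fun i hi => h i (mem_insert_of_mem hi))

/-- multiplication by `a` permutes the residues -/
theorem prod_residues (p a : ℕ) [Fact p.Prime] (ha : a.Coprime p) :
    ∏ k ∈ Icc 1 (p - 1), ((a * k % p : ℕ) : ℚ) = ∏ k ∈ Icc 1 (p - 1), (k : ℚ) := by
  have hp : p.Prime := Fact.out
  have hinj : Set.InjOn (fun k => a * k % p) (Icc 1 (p - 1) : Finset ℕ) := by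
    intro x hx y hy hxy
    rw [mem_coe, mem_Icc] at hx hy
    have h1 : a * x ≡ a * y [MOD p] := hxy
    have h2 : x ≡ y [MOD p] := Nat.ModEq.cancel_left_of_coprime (Nat.Coprime.symm ha) h1
    have := hp.pos
    exact Nat.ModEq.eq_of_lt_of_lt h2 (by omega) (by omega)
  have himg : (Icc 1 (p - 1)).image (fun k => a * k % p) = Icc 1 (p - 1) := by
    refine eq_of_subset_of_card_le ?_ ?_
    · intro y hy
      rw [mem_image] at hy
      obtain ⟨x, hx, rfl⟩ := hy
      rw [mem_Icc] at hx ⊢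
      have hlt := Nat.mod_lt (a * x) hp.pos
      refine ⟨?_, by omega⟩
      rw [Nat.one_le_iff_ne_zero]
      intro h0
      have hd := Nat.dvd_of_mod_eq_zero h0
      rcases (hp.dvd_mul).1 hd with h | h
      · have := Nat.Coprime.eq_one_of_dvd (Nat.Coprime.symm ha) h
        exact hp.one_lt.ne' this
      · have := Nat.le_of_dvd (by omega) h
        omega
    · rw [card_image_of_injOn hinj]
  conv_rhs => rw [← himg]
  rw [prod_image hinj]

theorem fq_first (p a : ℕ) [Fact p.Prime] (ha : a.Coprime p) (ha0 : 0 < a) :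
    cg p 1 (a * fq p a) (∑ k ∈ Icc 1 (p - 1), ((a * k / p : ℕ) : ℚ) / k) := by
  have hp : p.Prime := Fact.out
  have hp0 : (p : ℚ) ≠ 0 := by exact_mod_cast hp.ne_zero
  have hr : ∀ k ∈ Icc 1 (p - 1), IsU p ((a * k % p : ℕ) : ℚ) := by
    intro k hk
    rw [mem_Icc] at hk
    have hlt := Nat.mod_lt (a * k) hp.pos
    refine isU_of_lt (Nat.pos_of_ne_zero ?_) hlt
    intro h0
    have hd := Nat.dvd_of_mod_eq_zero h0
    rcases (hp.dvd_mul).1 hd with h | h
    · have := Nat.Coprime.eq_one_of_dvd (Nat.Coprime.symm ha) h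
      exact hp.one_lt.ne' this
    · have := Nat.le_of_dvd (by omega) h
      omega
  have hk' : ∀ k ∈ Icc 1 (p - 1), IsU p (k : ℚ) := by
    intro k hk
    rw [mem_Icc] at hk
    have := hp.pos
    exact isU_of_lt (by omega) (by omega)
  have hdiv : ∀ k : ℕ, (a : ℚ) * k = ((a * k % p : ℕ) : ℚ) + p * ((a * k / p : ℕ) : ℚ) := by
    intro k
    have := Nat.mod_add_div (a * k) p
    exact_mod_cast this.symm
  have hL : Lg p (∏ k ∈ Icc 1 (p - 1), (1 + p * (((a * k / p : ℕ) : ℚ) / ((a * k % p : ℕ) : ℚ))))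
      (∑ k ∈ Icc 1 (p - 1), ((a * k / p : ℕ) : ℚ) / ((a * k % p : ℕ) : ℚ)) :=
    Lg.prod (fun k hk => Lg.mk (div_mem (natCast_mem _) (hr k hk)))
  have hprod : ∏ k ∈ Icc 1 (p - 1), (1 + p * (((a * k / p : ℕ) : ℚ) / ((a * k % p : ℕ) : ℚ)))
      = (a : ℚ) ^ (p - 1) := by
    have h1 : ∀ k ∈ Icc 1 (p - 1), (1 + p * (((a * k / p : ℕ) : ℚ) / ((a * k % p : ℕ) : ℚ)))
        = (a * k) / ((a * k % p : ℕ) : ℚ) := by
      intro k hk
      have := (hr k hk).2.2
      rw [hdiv k]
      field_simp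
    rw [prod_congr rfl h1, prod_div_distrib, prod_mul_distrib, prod_residues p a ha, prod_const,
      Nat.card_Icc, Nat.add_sub_cancel]
    have : ∏ k ∈ Icc 1 (p - 1), (k : ℚ) ≠ 0 := prod_ne_zero_iff.2 (fun k hk => (hk' k hk).2.2)
    field_simp
  rw [hprod] at hL
  obtain ⟨w, hw, e⟩ := hL.2
  rw [fq_eq] at e
  have h2 : cg p 1 (fq p a)
      (∑ k ∈ Icc 1 (p - 1), ((a * k / p : ℕ) : ℚ) / ((a * k % p : ℕ) : ℚ)) := by
    refine ⟨w, hw, ?_⟩
    have h3 : (p : ℚ) * (fq p a - ∑ k ∈ Icc 1 (p - 1),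
        ((a * k / p : ℕ) : ℚ) / ((a * k % p : ℕ) : ℚ)) = p * (p ^ 1 * w) := by
      rw [pow_one]; linear_combination e
    exact mul_left_cancel₀ hp0 h3
  have h4 := h2.const_mul (natCast_mem (p := p) a)
  refine h4.trans ?_
  rw [mul_sum]
  refine cg.sum (fun k hk => ?_)
  have n1 := (hr k hk).2.2
  have n2 := (hk' k hk).2.2
  refine ⟨((a * k / p : ℕ) : ℚ) * ((a * k / p : ℕ) : ℚ) / (((a * k % p : ℕ) : ℚ) * k),
    div_mem ((O p).mul_mem (natCast_mem _) (natCast_mem _)) ((hr k hk).mul (hk' k hk)), ?_⟩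
  have h5 := hdiv k
  rw [pow_one]
  field_simp
  linear_combination ((a * k / p : ℕ) : ℚ) * h5

theorem floor_eq_sum (p a k : ℕ) (hp : 0 < p) (hk : k < p) (ha0 : 0 < a) :
    ((a * k / p : ℕ) : ℚ) = ∑ j ∈ range (a - 1), (if (j + 1) * p ≤ a * k then (1 : ℚ) else 0) := by
  rw [sum_ite, sum_const_zero, add_zero, sum_const, nsmul_eq_mul, mul_one]
  congr 1
  have : (range (a - 1)).filter (fun j => (j + 1) * p ≤ a * k) = range (a * k / p) := by
    ext j
    rw [mem_filter, mem_range, mem_range, ← Nat.le_div_iff_mul_le hp]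
    constructor
    · rintro ⟨-, h⟩; omega
    · intro h
      refine ⟨?_, by omega⟩
      have : a * k / p < a := by
        rw [Nat.div_lt_iff_lt_mul hp]
        exact Nat.mul_lt_mul_of_pos_left hk ha0
      omega
  rw [this, card_range]

theorem harmonic_sub (n m : ℕ) (h : m ≤ n) :
    ∑ k ∈ Icc 1 n, (if m < k then (1 : ℚ) / k else 0) = harmonic n - harmonic m := by
  induction n with
  | zero =>
    have : m = 0 := by omega
    subst this; simp
  | succ n ih =>
    rw [sum_Icc_succ_top (by omega), harmonic_succ]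
    rcases Nat.lt_or_ge m (n + 1) with h1 | h1
    · rw [ih (by omega), if_pos h1]; push_cast; ring
    · have hm : m = n + 1 := by omega
      subst hm
      rw [if_neg (by omega), add_zero, harmonic_succ]
      have : ∑ k ∈ Icc 1 n, (if n + 1 < k then (1 : ℚ) / k else 0) = 0 := by
        refine sum_eq_zero (fun k hk => ?_)
        rw [mem_Icc] at hk
        rw [if_neg (by omega)]
      rw [this]; ring

theorem fq_sum (p a : ℕ) [Fact p.Prime] (hp2 : p ≠ 2) (ha : a.Coprime p) (ha0 : 0 < a) :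
    cg p 1 (a * fq p a) (-∑ j ∈ range (a - 1), harmonic ((j + 1) * p / a)) := by
  have hp : p.Prime := Fact.out
  refine (fq_first p a ha ha0).trans ?_
  have h1 : ∑ k ∈ Icc 1 (p - 1), ((a * k / p : ℕ) : ℚ) / k
      = ∑ j ∈ range (a - 1), (harmonic (p - 1) - harmonic ((j + 1) * p / a)) := by
    have h2 : ∀ k ∈ Icc 1 (p - 1), ((a * k / p : ℕ) : ℚ) / k
        = ∑ j ∈ range (a - 1), (if (j + 1) * p / a < k then (1 : ℚ) / k else 0) := by
      intro k hk
      rw [mem_Icc] at hk
      have := hp.pos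
      rw [floor_eq_sum p a k hp.pos (by omega) ha0, sum_div]
      refine sum_congr rfl (fun j hj => ?_)
      rw [mem_range] at hj
      have hiff : (j + 1) * p ≤ a * k ↔ (j + 1) * p / a < k := by
        rw [Nat.div_lt_iff_lt_mul ha0, mul_comm k a]
        refine ⟨fun h => lt_of_le_of_ne h ?_, fun h => h.le⟩
        intro he
        have hd : a ∣ (j + 1) * p := ⟨k, he⟩
        have hd2 := Nat.Coprime.dvd_of_dvd_mul_right ha hd
        have := Nat.le_of_dvd (by omega) hd2
        omega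
      by_cases hc : (j + 1) * p ≤ a * k
      · rw [if_pos hc, if_pos (hiff.1 hc)]
      · rw [if_neg hc, if_neg (fun h => hc (hiff.2 h)), zero_div]
    rw [sum_congr rfl h2, sum_comm]
    refine sum_congr rfl (fun j hj => ?_)
    rw [mem_range] at hj
    refine harmonic_sub _ _ ?_
    have : (j + 1) * p / a < p := by
      rw [Nat.div_lt_iff_lt_mul ha0, mul_comm p a]
      exact Nat.mul_lt_mul_of_pos_right (by omega) hp.pos
    omega
  rw [h1, ← sum_neg_distrib]
  refine cg.sum (fun j hj => ?_)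
  have := (harmonic_full p hp2).sub (cg.refl (p := p) (n := 1) (harmonic ((j + 1) * p / a)))
  rwa [zero_sub] at this

theorem coprime_lit {p r a : ℕ} [Fact p.Prime] (hp : p = 6 * r + 1) (ha : a ∣ 6) : a.Coprime p := by
  refine Nat.Coprime.coprime_dvd_left ha ?_
  rw [hp]
  simp

theorem half_mul {p : ℕ} [Fact p.Prime] (hp2 : p ≠ 2) {x y : ℚ} (h : cg p 1 (2 * x) y) :
    cg p 1 x (y / 2) := by
  have h2 := isU_two (p := p) hp2
  have h3 := h.const_mul h2.2.1
  rw [← mul_assoc, inv_mul_cancel₀ h2.2.2, one_mul] at h3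
  rwa [div_eq_inv_mul]

/-- the half for every odd prime -/
theorem harmonic_half' (p : ℕ) [Fact p.Prime] (hp : p ≠ 2) :
    cg p 1 (harmonic (p / 2)) (-2 * fq p 2) := by
  have h := fq_sum p 2 hp ((Nat.coprime_primes Nat.prime_two Fact.out).2 (fun h => hp h.symm))
    (by norm_num)
  simp only [show 2 - 1 = 1 from rfl, sum_range_one, zero_add, one_mul, Nat.cast_ofNat] at h
  have := h.symm.neg
  rw [neg_neg] at this
  exact this.trans (cg.of_eq (by ring))

theorem harmonic_half (p r : ℕ) [Fact p.Prime] (hp : p = 6 * r + 1) :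
    cg p 1 (harmonic (3 * r)) (-2 * fq p 2) := by
  have h := harmonic_half' p (by omega)
  have e : p / 2 = 3 * r := by omega
  rwa [e] at h

theorem harmonic_third (p r : ℕ) [Fact p.Prime] (hp : p = 6 * r + 1) :
    cg p 1 (harmonic (2 * r)) (-(3 / 2) * fq p 3) := by
  have hp2 : p ≠ 2 := by omega
  have hr : 0 < r := by
    rcases Nat.eq_zero_or_pos r with h | h
    · subst h; exact absurd (hp ▸ (Fact.out : p.Prime)) (by norm_num)
    · exact h
  have h := fq_sum p 3 hp2 (coprime_lit hp (by norm_num)) (by norm_num)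
  simp only [show 3 - 1 = 2 from rfl, sum_range_succ, sum_range_zero, zero_add, one_mul,
    Nat.cast_ofNat] at h
  have e1 : p / 3 = 2 * r := by omega
  have e2 : (1 + 1) * p / 3 = p - 1 - 2 * r := by omega
  rw [e1, e2] at h
  have h2 := harmonic_reflect p (2 * r) hp2 (by omega)
  have h3 : cg p 1 (2 * harmonic (2 * r)) (-(3 * fq p 3)) := by
    have h4 := h.neg.symm
    rw [neg_neg] at h4
    refine cg.trans ?_ h4
    rw [two_mul]
    exact (cg.refl _).add h2.symm
  exact (half_mul hp2 h3).trans (cg.of_eq (by ring))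

theorem harmonic_sixth (p r : ℕ) [Fact p.Prime] (hp : p = 6 * r + 1) :
    cg p 1 (harmonic r) (-2 * fq p 2 - (3 / 2) * fq p 3) := by
  have hp2 : p ≠ 2 := by omega
  have h := fq_sum p 6 hp2 (coprime_lit hp (by norm_num)) (by norm_num)
  simp only [show 6 - 1 = 5 from rfl, sum_range_succ, sum_range_zero, zero_add, one_mul,
    Nat.cast_ofNat] at h
  have e1 : p / 6 = r := by omega
  have e2 : (1 + 1) * p / 6 = 2 * r := by omega
  have e3 : (2 + 1) * p / 6 = 3 * r := by omega
  have e4 : (3 + 1) * p / 6 = p - 1 - 2 * r := by omega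
  have e5 : (4 + 1) * p / 6 = p - 1 - r := by omega
  rw [e1, e2, e3, e4, e5] at h
  have r2 := harmonic_reflect p (2 * r) hp2 (by omega)
  have r1 := harmonic_reflect p r hp2 (by omega)
  have t1 := harmonic_half p r hp
  have t2 := harmonic_third p r hp
  have q := fq_mul p 2 3 (coprime_lit hp (by norm_num)) (coprime_lit hp (by norm_num))
  rw [show 2 * 3 = 6 from rfl] at q
  have q6 := q.const_mul (c := 6) (by exact_mod_cast natCast_mem (p := p) 6)
  -- 2 H_r = - 6 q6 - H_{2r} - H_{3r} - H_{4r} + (H_r - H_{5r})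
  have h3 : cg p 1 (2 * harmonic r)
      (-(6 * (fq p 2 + fq p 3)) - -(3 / 2) * fq p 3 - -2 * fq p 2 - -(3 / 2) * fq p 3 + 0) := by
    have a1 := h.neg.symm
    rw [neg_neg] at a1
    have a2 := a1.trans q6.neg
    have a3 : cg p 1 (harmonic r - harmonic (p - 1 - r)) 0 := by
      have := (cg.refl (p := p) (n := 1) (harmonic r)).sub r1
      rwa [sub_self] at this
    have a4 := (((a2.sub t2).sub t1).sub (r2.trans t2)).add a3
    exact (cg.of_eq (by ring)).trans a4
  exact (half_mul hp2 h3).trans (cg.of_eq (by ring))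

theorem harmonic_quarter (p : ℕ) [Fact p.Prime] (hp : p ≠ 2) :
    cg p 1 (harmonic (p / 4)) (-3 * fq p 2) := by
  have hodd : p % 2 = 1 := by
    rcases (Fact.out : p.Prime).eq_two_or_odd with h | h
    · exact absurd h hp
    · exact h
  have h2c : Nat.Coprime 2 p := (Nat.coprime_primes Nat.prime_two Fact.out).2 (fun h => hp h.symm)
  have h4c : Nat.Coprime 4 p := by
    have := Nat.Coprime.pow_left 2 h2c
    exact this
  have h := fq_sum p 4 hp h4c (by norm_num)
  simp only [show 4 - 1 = 3 from rfl, sum_range_succ, sum_range_zero, zero_add, one_mul,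
    Nat.cast_ofNat] at h
  have e2 : (1 + 1) * p / 4 = p / 2 := by omega
  have e3 : (2 + 1) * p / 4 = p - 1 - p / 4 := by omega
  rw [e2, e3] at h
  have r1 := harmonic_reflect p (p / 4) hp (by
    have := (Fact.out : p.Prime).pos
    omega)
  have t1 := harmonic_half' p hp
  have q := fq_mul p 2 2 h2c h2c
  rw [show 2 * 2 = 4 from rfl] at q
  have q4 := q.const_mul (c := 4) (by exact_mod_cast natCast_mem (p := p) 4)
  have h3 : cg p 1 (2 * harmonic (p / 4)) (-(4 * (fq p 2 + fq p 2)) - -2 * fq p 2 + 0) := by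
    have a1 := h.neg.symm
    rw [neg_neg] at a1
    have a2 := a1.trans q4.neg
    have a3 : cg p 1 (harmonic (p / 4) - harmonic (p - 1 - p / 4)) 0 := by
      have := (cg.refl (p := p) (n := 1) (harmonic (p / 4))).sub r1
      rwa [sub_self] at this
    have a4 := (a2.sub t1).add a3
    exact (cg.of_eq (by ring)).trans a4
  exact (half_mul hp h3).trans (cg.of_eq (by ring))

end Pool.Agent.SC
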