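import Pool.Agent.Work.MP_5b0587_nt.Defs
import Pool.Agent.Work.MP_5b0587_nt.Harmonic

/-! MP_5b0587_nt: evaluation modulo p squared of the Jacobi sum of the cubic and quadratic characters. -/

namespace Pool.Agent.SC

open Finset

namespace J1

section comb

theorem tele (b m : ℕ) : ∑ i ∈ range (m + 1), (-1 : ℚ) ^ (b + 1 + i) *
    ((b + m + 1).choose (b + 1 + i) : ℚ) = -((-1) ^ b * ((b + m).choose b : ℚ)) := by
  have h : ∀ i ∈ range (m + 1), (-1 : ℚ) ^ (b + 1 + i) * ((b + m + 1).choose (b + 1 + i) : ℚ)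
      = (-1) ^ (b + (i + 1)) * ((b + m).choose (b + (i + 1)) : ℚ)
        - (-1) ^ (b + i) * ((b + m).choose (b + i) : ℚ) := by
    intro i _
    have e : (b + m + 1).choose (b + 1 + i) =
        (b + m).choose (b + i) + (b + m).choose (b + (i + 1)) := by
      have e1 : b + 1 + i = (b + i) + 1 := by ring
      rw [e1, Nat.choose_succ_succ]; rfl
    rw [e]; push_cast; ring
  rw [sum_congr rfl h,
    sum_range_sub (fun i => (-1 : ℚ) ^ (b + i) * ((b + m).choose (b + i) : ℚ))]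
  have e2 : (b + m).choose (b + (m + 1)) = 0 := Nat.choose_eq_zero_of_lt (by omega)
  simp only [e2, add_zero]
  push_cast
  ring

theorem VV_closed (b m : ℕ) : ∑ i ∈ range m, (-1 : ℚ) ^ (b + 1 + i) *
    ((b + m).choose (b + 1 + i) : ℚ) / ((i : ℚ) + 1) =
      -((-1) ^ b * ((b + m).choose b : ℚ) * (harmonic (b + m) - harmonic b)) := by
  induction m with
  | zero => simp
  | succ m ih =>
    have key : ((m : ℚ) + 1) * ∑ i ∈ range (m + 1), (-1 : ℚ) ^ (b + 1 + i) *
        ((b + (m + 1)).choose (b + 1 + i) : ℚ) / ((i : ℚ) + 1) =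
        ((b : ℚ) + m + 1) * ∑ i ∈ range m, (-1 : ℚ) ^ (b + 1 + i) *
          ((b + m).choose (b + 1 + i) : ℚ) / ((i : ℚ) + 1)
        - (-1) ^ b * ((b + m).choose b : ℚ) := by
      have ext : ∑ i ∈ range m, (-1 : ℚ) ^ (b + 1 + i) *
          ((b + m).choose (b + 1 + i) : ℚ) / ((i : ℚ) + 1) =
          ∑ i ∈ range (m + 1), (-1 : ℚ) ^ (b + 1 + i) *
          ((b + m).choose (b + 1 + i) : ℚ) / ((i : ℚ) + 1) := by
        rw [sum_range_succ, Nat.choose_eq_zero_of_lt (show b + m < b + 1 + m by omega)]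
        simp
      rw [ext, sub_eq_add_neg, ← tele b m, mul_sum, mul_sum, ← sum_add_distrib]
      refine sum_congr rfl fun i hi => ?_
      have hi' : i < m + 1 := mem_range.mp hi
      have hc : ((b + m + 1 : ℕ) : ℚ) * ((b + m).choose (b + 1 + i) : ℚ) =
          ((b + m + 1).choose (b + 1 + i) : ℚ) * ((m : ℚ) - i) := by
        have h1 := Nat.choose_mul_succ_eq (b + m) (b + 1 + i)
        have h2 : b + m + 1 - (b + 1 + i) = m - i := by omega
        rw [h2] at h1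
        have h3 : ((m - i : ℕ) : ℚ) = (m : ℚ) - i := by
          rw [Nat.cast_sub (by omega)]
        rw [← h3]
        rw [mul_comm]
        exact_mod_cast h1
      have hi0 : (i : ℚ) + 1 ≠ 0 := by positivity
      have e3 : b + (m + 1) = b + m + 1 := rfl
      rw [e3]
      field_simp
      push_cast at hc
      linear_combination (-1 : ℚ) * hc
    have hm0 : (m : ℚ) + 1 ≠ 0 := by positivity
    have hC : ((b + (m + 1)).choose b : ℚ) * ((m : ℚ) + 1) =
        ((b : ℚ) + m + 1) * ((b + m).choose b : ℚ) := by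
      have h1 := Nat.choose_mul_succ_eq (b + m) b
      have h2 : b + m + 1 - b = m + 1 := by omega
      rw [h2] at h1
      have h4 : (((b + m).choose b * (b + m + 1) : ℕ) : ℚ) =
        (((b + m + 1).choose b * (m + 1) : ℕ) : ℚ) := by rw [h1]
      push_cast at h4
      have e3 : b + (m + 1) = b + m + 1 := rfl
      rw [e3]
      linear_combination -h4
    have hH : harmonic (b + (m + 1)) = harmonic (b + m) + ((b : ℚ) + m + 1)⁻¹ := by
      have e3 : b + (m + 1) = b + m + 1 := rfl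
      rw [e3, harmonic_succ]; push_cast; ring
    have hb0 : (b : ℚ) + m + 1 ≠ 0 := by positivity
    rw [ih] at key
    apply mul_left_cancel₀ hm0
    rw [key, hH]
    have e5 : ((b : ℚ) + m + 1) * ((b : ℚ) + m + 1)⁻¹ = 1 := mul_inv_cancel₀ hb0
    linear_combination (-1) ^ b * (harmonic (b + m) + ((b : ℚ) + m + 1)⁻¹ - harmonic b) * hC
      + (-1) ^ b * ((b + m).choose b : ℚ) * e5

theorem HH (b m : ℕ) : ((b : ℚ) + m + 1) * ∑ i ∈ range (m + 1), (-1 : ℚ) ^ i *
    ((b + m).choose (b + i) : ℚ) / ((i : ℚ) + 1) =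
      ((b + m).choose b : ℚ) + b * ((b + m + 1).choose b : ℚ) *
        (harmonic (b + m + 1) - harmonic b) := by
  have h1 := tele b m
  have h2 := VV_closed b (m + 1)
  have h3 : ((b : ℚ) + m + 1) * ∑ i ∈ range (m + 1), (-1 : ℚ) ^ i *
    ((b + m).choose (b + i) : ℚ) / ((i : ℚ) + 1) =
    -(-1) ^ b * (∑ i ∈ range (m + 1), (-1 : ℚ) ^ (b + 1 + i) *
    ((b + m + 1).choose (b + 1 + i) : ℚ) + b * ∑ i ∈ range (m + 1), (-1 : ℚ) ^ (b + 1 + i) *
    ((b + (m + 1)).choose (b + 1 + i) : ℚ) / ((i : ℚ) + 1)) := by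
    rw [mul_sum, mul_sum, ← sum_add_distrib, mul_sum]
    refine sum_congr rfl fun i hi => ?_
    have hi0 : (i : ℚ) + 1 ≠ 0 := by positivity
    have e3 : b + (m + 1) = b + m + 1 := rfl
    have hc : ((b : ℚ) + m + 1) * ((b + m).choose (b + i) : ℚ) =
        ((b + m + 1).choose (b + 1 + i) : ℚ) * ((b : ℚ) + i + 1) := by
      have h1 := Nat.add_one_mul_choose_eq (b + m) (b + i)
      have h2 : (((b + m + 1) * (b + m).choose (b + i) : ℕ) : ℚ) =
        (((b + m + 1).choose (b + i + 1) * (b + i + 1) : ℕ) : ℚ) := by rw [h1]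
      have e4 : b + 1 + i = (b + i) + 1 := by ring
      rw [e4]
      push_cast at h2
      linear_combination h2
    have hs : (-1 : ℚ) ^ b * (-1) ^ b = 1 := by
      rw [← pow_add, ← two_mul, pow_mul]; norm_num
    rw [e3]
    have e5 : (-1 : ℚ) ^ (b + 1 + i) = -((-1) ^ b * (-1) ^ i) := by
      rw [pow_add, pow_add]; ring
    rw [e5]
    field_simp
    linear_combination hc - ((b + m + 1).choose (b + 1 + i) : ℚ) *
      ((b : ℚ) + i + 1) * hs
  have hs : (-1 : ℚ) ^ b * (-1) ^ b = 1 := by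
    rw [← pow_add, ← two_mul, pow_mul]; norm_num
  rw [h3, h1, h2]
  have e3 : b + (m + 1) = b + m + 1 := rfl
  rw [e3]
  linear_combination (((b + m).choose b : ℚ) + b * ((b + m + 1).choose b : ℚ) *
        (harmonic (b + m + 1) - harmonic b)) * hs

end comb


section red

variable (p : ℕ) [Fact p.Prime]

theorem not_dvd_den {x : ℚ} (hx : x ∈ O p) : ¬ p ∣ x.den := by
  have h : x.den.Coprime p := hx
  exact (Nat.Prime.coprime_iff_not_dvd Fact.out).mp h.symm

noncomputable def toZ : O p →+* ℤ_[p] where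
  toFun x := ⟨((x : ℚ) : ℚ_[p]), Padic.norm_rat_le_one (not_dvd_den p x.2)⟩
  map_one' := by
    apply Subtype.ext; simp
  map_zero' := by
    apply Subtype.ext; simp
  map_mul' x y := by
    apply Subtype.ext
    show (((x * y : O p) : ℚ) : ℚ_[p]) = ((x : ℚ) : ℚ_[p]) * ((y : ℚ) : ℚ_[p])
    push_cast; rfl
  map_add' x y := by
    apply Subtype.ext
    show (((x + y : O p) : ℚ) : ℚ_[p]) = ((x : ℚ) : ℚ_[p]) + ((y : ℚ) : ℚ_[p])
    push_cast; rfl

noncomputable def phi : O p →+* ZMod (p ^ 2) := (PadicInt.toZModPow 2).comp (toZ p)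

open Classical in
noncomputable def ph (x : ℚ) : ZMod (p ^ 2) := if h : x ∈ O p then phi p ⟨x, h⟩ else 0

variable {p}

theorem ph_of {x : ℚ} (h : x ∈ O p) : ph p x = phi p ⟨x, h⟩ := by
  unfold ph; rw [dif_pos h]

theorem ph_add {x y : ℚ} (hx : x ∈ O p) (hy : y ∈ O p) : ph p (x + y) = ph p x + ph p y := by
  rw [ph_of hx, ph_of hy, ph_of ((O p).add_mem hx hy), ← map_add]; rfl

theorem ph_mul {x y : ℚ} (hx : x ∈ O p) (hy : y ∈ O p) : ph p (x * y) = ph p x * ph p y := by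
  rw [ph_of hx, ph_of hy, ph_of ((O p).mul_mem hx hy), ← map_mul]; rfl

theorem ph_int (n : ℤ) : ph p (n : ℚ) = (n : ZMod (p ^ 2)) := by
  rw [ph_of (intCast_mem n), ← map_intCast (phi p) n]; rfl

theorem ph_nat (n : ℕ) : ph p (n : ℚ) = (n : ZMod (p ^ 2)) := by
  exact_mod_cast ph_int (p := p) n

theorem ph_zero : ph p 0 = 0 := by simpa using ph_nat (p := p) 0

theorem ph_neg {x : ℚ} (hx : x ∈ O p) : ph p (-x) = -ph p x := by
  rw [ph_of hx, ph_of ((O p).neg_mem hx), ← map_neg]; rfl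

theorem ph_sum {ι : Type*} {s : Finset ι} {f : ι → ℚ} (h : ∀ i ∈ s, f i ∈ O p) :
    ph p (∑ i ∈ s, f i) = ∑ i ∈ s, ph p (f i) := by
  classical
  induction s using Finset.induction_on with
  | empty => simpa using ph_zero
  | insert a s ha ih =>
    rw [sum_insert ha, sum_insert ha, ph_add (h a (mem_insert_self a s))
      ((O p).sum_mem fun i hi => h i (mem_insert_of_mem hi)),
      ih fun i hi => h i (mem_insert_of_mem hi)]

omit [Fact p.Prime] in
theorem pp_zero : (p : ZMod (p ^ 2)) * (p : ZMod (p ^ 2)) = 0 := by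
  have h : ((p ^ 2 : ℕ) : ZMod (p ^ 2)) = 0 := ZMod.natCast_self _
  rw [← h]; push_cast; ring

theorem ph_cg2 {x y : ℚ} (h : cg p 2 x y) (hy : y ∈ O p) : ph p x = ph p y := by
  obtain ⟨w, hw, e⟩ := h
  have e' : x = y + ((p * p : ℕ) : ℚ) * w := by push_cast; linear_combination e
  rw [e', ph_add hy ((O p).mul_mem (natCast_mem _) hw), ph_mul (natCast_mem _) hw, ph_nat]
  push_cast
  rw [pp_zero]; ring

theorem ph_cg1 {x y : ℚ} (h : cg p 1 x y) (hy : y ∈ O p) :
    (p : ZMod (p ^ 2)) * ph p x = (p : ZMod (p ^ 2)) * ph p y := by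
  obtain ⟨w, hw, e⟩ := h
  have e' : x = y + (p : ℚ) * w := by linear_combination e
  rw [e', ph_add hy ((O p).mul_mem (natCast_mem _) hw), ph_mul (natCast_mem _) hw, ph_nat]
  linear_combination ph p w * pp_zero (p := p)

theorem choose_cg1 {k : ℕ} (hk : k < p) : ((p : ℤ) ^ 1) ∣ ((p - 1).choose k : ℤ) - (-1) ^ k := by
  induction k with
  | zero => simp
  | succ k ih =>
    have h1 := ih (by omega)
    have hp0 : 0 < p := (Fact.out : p.Prime).pos
    have h2 : p.choose (k + 1) = (p - 1).choose k + (p - 1).choose (k + 1) := by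
      conv_lhs => rw [show p = (p - 1) + 1 by omega]
      rw [Nat.choose_succ_succ]
    have h3 : p ∣ p.choose (k + 1) :=
      (Fact.out : p.Prime).dvd_choose_self (by omega) hk
    have h4 : (p : ℤ) ∣ (p.choose (k + 1) : ℤ) := by exact_mod_cast h3
    rw [h2] at h4
    push_cast at h4
    rw [pow_one] at h1 ⊢
    obtain ⟨a, ha⟩ := h1
    obtain ⟨b, hb⟩ := h4
    exact ⟨b - a, by rw [pow_succ]; linear_combination hb - ha⟩

theorem choose_ph {s : ℕ} (hs0 : 0 < s) (hs : s < p) :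
    (p.choose s : ZMod (p ^ 2)) = p * (-1) ^ (s - 1) * ph p ((s : ℚ)⁻¹) := by
  have hp0 : 0 < p := (Fact.out : p.Prime).pos
  have hinv : ((s : ℚ)⁻¹) ∈ O p := (isU_of_lt hs0 hs).2.1
  have hc : cg p 2 (p.choose s : ℚ) (((p : ℚ) * (((-1 : ℤ) ^ (s - 1) : ℤ) : ℚ)) * (s : ℚ)⁻¹) := by
    have h1 : cg p 1 (((p - 1).choose (s - 1) : ℤ) : ℚ) (((-1 : ℤ) ^ (s - 1) : ℤ) : ℚ) :=
      cg_of_dvd (choose_cg1 (by omega))
    have h2 := (h1.p_mul).mul_const hinv
    refine (cg.of_eq ?_).trans h2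
    have h3 := Nat.add_one_mul_choose_eq (p - 1) (s - 1)
    have h4 : p - 1 + 1 = p := by omega
    have h5 : s - 1 + 1 = s := by omega
    rw [h4, h5] at h3
    have hs' : (s : ℚ) ≠ 0 := by positivity
    have h6 : (p : ℚ) * ((p - 1).choose (s - 1) : ℚ) = (p.choose s : ℚ) * s := by exact_mod_cast h3
    push_cast
    rw [h6]
    field_simp
  have hm2 : (((p : ℚ) * (((-1 : ℤ) ^ (s - 1) : ℤ) : ℚ)) * (s : ℚ)⁻¹) ∈ O p :=
    (O p).mul_mem ((O p).mul_mem (natCast_mem _) (intCast_mem _)) hinv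
  rw [← ph_nat, ph_cg2 hc hm2, ph_mul ((O p).mul_mem (natCast_mem _) (intCast_mem _)) hinv,
    ph_mul (natCast_mem _) (intCast_mem _), ph_nat, ph_int]
  push_cast
  ring

/-- first order expansion of `(1 - t) ^ p` -/
theorem one_sub_pow (hp2 : p ≠ 2) (t : ZMod (p ^ 2)) :
    (1 - t) ^ p = 1 - t ^ p - (p : ZMod (p ^ 2)) * ∑ s ∈ range (p - 1), ph p (((s + 1 : ℕ) : ℚ)⁻¹) * t ^ (s + 1) := by
  have hp0 : 0 < p := (Fact.out : p.Prime).pos
  have hodd : Odd p := (Fact.out : p.Prime).odd_of_ne_two hp2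
  have e0 : (1 - t) ^ p = (-t + 1) ^ p := by ring
  rw [e0, add_pow]
  have e1 : p + 1 = (p - 1 + 1) + 1 := by omega
  rw [e1, sum_range_succ, sum_range_succ']
  have e2 : p - 1 + 1 = p := by omega
  rw [e2]
  have e3 : ∀ s ∈ range (p - 1), (-t) ^ (s + 1) * 1 ^ (p - (s + 1)) *
      (p.choose (s + 1) : ZMod (p ^ 2)) =
      -(p * (ph p (((s + 1 : ℕ) : ℚ)⁻¹) * t ^ (s + 1))) := by
    intro s hs
    have hs' : s < p - 1 := mem_range.mp hs
    rw [choose_ph (by omega) (by omega)]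
    have e4 : s + 1 - 1 = s := by omega
    rw [e4, neg_pow t, one_pow, pow_succ (-1 : ZMod (p ^ 2))]
    have hs2 : (-1 : ZMod (p ^ 2)) ^ s * (-1) ^ s = 1 := by
      rw [← pow_add, ← two_mul, pow_mul]; norm_num
    linear_combination (-(p : ZMod (p ^ 2)) * ph p (((s + 1 : ℕ) : ℚ)⁻¹) * t ^ (s + 1)) * hs2
  rw [sum_congr rfl e3, sum_neg_distrib, ← mul_sum, hodd.neg_pow]
  simp
  ring

end red

section tauf

variable {p : ℕ} [Fact p.Prime]

omit [Fact p.Prime] in
theorem pow_eq_of_dvd {u v : ZMod (p ^ 2)} (h : (p : ZMod (p ^ 2)) ∣ u - v) : u ^ p = v ^ p := by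
  have h1 := dvd_sub_pow_of_dvd_sub h 1
  have h2 : ((p : ZMod (p ^ 2)) ^ (1 + 1)) = 0 := by
    have h3 : ((p : ZMod (p ^ 2)) ^ (1 + 1)) = p * p := by ring
    rw [h3, pp_zero]
  rw [h2, zero_dvd_iff, pow_one] at h1
  exact sub_eq_zero.mp h1

def red (p : ℕ) : ZMod (p ^ 2) →+* ZMod p := ZMod.castHom (Dvd.intro_left (p ^ 1) rfl) (ZMod p)

instance : NeZero (p ^ 2) := ⟨pow_ne_zero 2 (Fact.out : p.Prime).ne_zero⟩

theorem red_nat (n : ℕ) : red p (n : ZMod (p ^ 2)) = n := map_natCast _ _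

theorem val_eq (u : ZMod (p ^ 2)) : ((u.val : ℕ) : ZMod (p ^ 2)) = u := ZMod.natCast_zmod_val u

theorem dvd_of_red {u : ZMod (p ^ 2)} (h : red p u = 0) : (p : ZMod (p ^ 2)) ∣ u := by
  rw [← val_eq u, red_nat, ZMod.natCast_eq_zero_iff] at h
  obtain ⟨c, hc⟩ := h
  exact ⟨c, by rw [← val_eq u, hc]; push_cast; rfl⟩

theorem isUnit_of_red {u : ZMod (p ^ 2)} (h : red p u ≠ 0) : IsUnit u := by
  rw [← val_eq u, red_nat, Ne, ZMod.natCast_eq_zero_iff] at h
  rw [← val_eq u]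
  rw [ZMod.isUnit_iff_coprime]
  exact (Nat.Coprime.pow_right 2 (((Fact.out : p.Prime).coprime_iff_not_dvd.mpr h).symm))

theorem red_tau (x : ZMod p) : red p (tau p x) = x := by
  unfold tau
  rw [map_pow, red_nat, ZMod.natCast_zmod_val, ZMod.pow_card]

theorem tau_eq {x : ZMod p} {u : ZMod (p ^ 2)} (h : red p u = x) : tau p x = u ^ p := by
  unfold tau
  apply pow_eq_of_dvd
  apply dvd_of_red
  rw [map_sub, red_nat, ZMod.natCast_zmod_val, h, sub_self]

theorem tau_pow_p (x : ZMod p) : tau p x ^ p = tau p x := (tau_eq (red_tau x)).symm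

theorem tau_mul (x y : ZMod p) : tau p (x * y) = tau p x * tau p y := by
  rw [tau_eq (u := tau p x * tau p y) (by rw [map_mul, red_tau, red_tau]), mul_pow, tau_pow_p,
    tau_pow_p]

theorem tau_one : tau p 1 = 1 := by
  rw [tau_eq (u := 1) (by rw [map_one]), one_pow]

theorem tau_zero : tau p 0 = 0 := by
  rw [tau_eq (u := 0) (by rw [map_zero]), zero_pow (Fact.out : p.Prime).ne_zero]

theorem tau_one_sub (x : ZMod p) : tau p (1 - x) = (1 - tau p x) ^ p :=
  tau_eq (by rw [map_sub, map_one, red_tau])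

theorem tau_pow (x : ZMod p) (k : ℕ) : tau p (x ^ k) = tau p x ^ k := by
  induction k with
  | zero => rw [pow_zero, pow_zero, tau_one]
  | succ k ih => rw [pow_succ x, tau_mul, ih, pow_succ (tau p x)]

theorem sum_tau {k : ℕ} (hk : 0 < k) : ∑ x : ZMod p, tau p x ^ k =
    if (p - 1) ∣ k then ((p : ZMod (p ^ 2)) - 1) else 0 := by
  split_ifs with h
  · have h1 : ∀ x : ZMod p, tau p x ^ k = if x = 0 then 0 else 1 := by
      intro x
      split_ifs with hx
      · rw [hx, tau_zero, zero_pow hk.ne']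
      · obtain ⟨c, hc⟩ := h
        rw [hc, pow_mul, ← tau_pow, ZMod.pow_card_sub_one_eq_one hx, tau_one, one_pow]
    rw [sum_congr rfl fun x _ => h1 x]
    have h2 : ∀ x : ZMod p, (if x = 0 then (0 : ZMod (p ^ 2)) else 1) =
      1 - (if x = 0 then 1 else 0) := by
      intro x; split_ifs <;> simp
    rw [sum_congr rfl fun x _ => h2 x, sum_sub_distrib]
    simp [ZMod.card]
  · obtain ⟨g, hg⟩ := IsCyclic.exists_generator (α := (ZMod p)ˣ)
    have ho : orderOf g = p - 1 := by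
      rw [orderOf_eq_card_of_forall_mem_zpowers hg, Nat.card_eq_fintype_card, ZMod.card_units p]
    have hgk : ((g : ZMod p)) ^ k ≠ 1 := by
      intro e
      apply h
      rw [← ho]
      apply orderOf_dvd_of_pow_eq_one
      apply Units.ext
      push_cast
      exact e
    have hu : IsUnit (tau p (g : ZMod p) ^ k - 1) := by
      apply isUnit_of_red
      rw [map_sub, map_pow, red_tau, map_one]
      exact sub_ne_zero.mpr hgk
    have hS : ∑ x : ZMod p, tau p ((g : ZMod p) * x) ^ k = ∑ x : ZMod p, tau p x ^ k :=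
      Fintype.sum_equiv (Equiv.mulLeft₀ (g : ZMod p) g.ne_zero) _ _ fun x => rfl
    have hS2 : (tau p (g : ZMod p) ^ k - 1) * ∑ x : ZMod p, tau p x ^ k = 0 := by
      rw [sub_mul, one_mul, mul_sum, sub_eq_zero]
      refine Eq.trans (sum_congr rfl fun x _ => ?_) hS
      rw [tau_mul, mul_pow]
    exact (hu.mul_right_eq_zero).mp hS2

omit [Fact p.Prime] in
theorem sub_pow_succ (a b : ZMod (p ^ 2)) (m : ℕ) :
    (a - (p : ZMod (p ^ 2)) * b) ^ (m + 1) =
      a ^ (m + 1) - ((m : ZMod (p ^ 2)) + 1) * (p : ZMod (p ^ 2)) * (a ^ m * b) := by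
  induction m with
  | zero => simp
  | succ m ih =>
    rw [pow_succ (a - (p : ZMod (p ^ 2)) * b), ih]
    push_cast
    linear_combination ((m : ZMod (p ^ 2)) + 1) * a ^ m * b * b * pp_zero (p := p)

omit [Fact p.Prime] in
theorem one_sub_pow' (t : ZMod (p ^ 2)) (n : ℕ) :
    (1 - t) ^ n = ∑ l ∈ range (n + 1), (-1) ^ l * (n.choose l : ZMod (p ^ 2)) * t ^ l := by
  have e0 : (1 - t) ^ n = (-t + 1) ^ n := by ring
  rw [e0, add_pow]
  refine sum_congr rfl fun l _ => ?_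
  rw [one_pow, neg_pow t]; ring

end tauf

section main

variable {p : ℕ} [Fact p.Prime]

/-- the exponent hit by the inner sum -/
def Qs (r l : ℕ) : ℕ := if l < 2 * r then 2 * r - l else 8 * r - l

theorem first_sum {r : ℕ} (hp : p = 6 * r + 1) (hr : 0 < r) :
    ∑ x : ZMod p, tau p x ^ (4 * r) * (1 - tau p x) ^ (3 * r) =
      ((p : ZMod (p ^ 2)) - 1) * ((3 * r).choose r : ZMod (p ^ 2)) := by
  have h1 : ∀ x : ZMod p, tau p x ^ (4 * r) * (1 - tau p x) ^ (3 * r) =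
      ∑ l ∈ range (3 * r + 1), (-1) ^ l * ((3 * r).choose l : ZMod (p ^ 2)) *
        tau p x ^ (4 * r + l) := by
    intro x
    rw [one_sub_pow', mul_sum]
    refine sum_congr rfl fun l _ => ?_
    rw [pow_add]; ring
  rw [sum_congr rfl fun x _ => h1 x, sum_comm]
  rw [sum_congr rfl fun l _ => (mul_sum _ _ _).symm]
  rw [sum_eq_single (2 * r)]
  · rw [sum_tau (by omega), if_pos (by rw [hp]; exact ⟨1, by omega⟩), pow_mul]
    have h2 : (3 * r).choose (2 * r) = (3 * r).choose r :=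
      Nat.choose_symm_of_eq_add (by omega)
    rw [h2]
    norm_num
    ring
  · intro l hl hne
    have hl' := mem_range.mp hl
    rw [sum_tau (by omega), if_neg, mul_zero]
    intro hd
    have h3 : p - 1 = 6 * r := by omega
    rw [h3] at hd
    obtain ⟨c, hc⟩ := hd
    have h4 : c = 0 ∨ c = 1 ∨ 2 ≤ c := by omega
    rcases h4 with h4 | h4 | h4
    · subst h4; omega
    · subst h4; omega
    · have : 6 * r * 2 ≤ 6 * r * c := Nat.mul_le_mul_left _ h4
      omega
  · intro h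
    exact absurd (mem_range.mpr (by omega)) h

theorem inner_sum {r l : ℕ} (hp : p = 6 * r + 1) (hr : 0 < r) (hl : l < 3 * r) :
    ∑ s ∈ range (p - 1), ph p (((s + 1 : ℕ) : ℚ)⁻¹) *
      ∑ x : ZMod p, tau p x ^ (4 * r + l + (s + 1)) =
      ((p : ZMod (p ^ 2)) - 1) * ph p (((Qs r l : ℕ) : ℚ)⁻¹) := by
  have hQ : Qs r l = if l < 2 * r then 2 * r - l else 8 * r - l := rfl
  have hQ1 : 0 < Qs r l := by rw [hQ]; split_ifs <;> omega
  have hQ2 : Qs r l ≤ 6 * r := by rw [hQ]; split_ifs <;> omega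
  have h3 : p - 1 = 6 * r := by omega
  rw [sum_eq_single (Qs r l - 1)]
  · have h4 : Qs r l - 1 + 1 = Qs r l := by omega
    rw [h4, sum_tau (by omega), if_pos, mul_comm]
    rw [h3]
    by_cases hc : l < 2 * r
    · rw [hQ, if_pos hc]; exact ⟨1, by omega⟩
    · rw [hQ, if_neg hc]; exact ⟨2, by omega⟩
  · intro s hs hne
    have hs' := mem_range.mp hs
    rw [sum_tau (by omega), if_neg, mul_zero]
    intro hd
    rw [h3] at hd hs'
    obtain ⟨c, hc⟩ := hd
    have h4 : c = 0 ∨ c = 1 ∨ c = 2 ∨ 3 ≤ c := by omega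
    rcases h4 with h4 | h4 | h4 | h4
    · subst h4; omega
    · subst h4
      apply hne
      rw [hQ]; split_ifs <;> omega
    · subst h4
      apply hne
      rw [hQ]; split_ifs <;> omega
    · have : 6 * r * 3 ≤ 6 * r * c := Nat.mul_le_mul_left _ h4
      omega
  · intro h
    exact absurd (mem_range.mpr (by omega)) h

/-- the rational number appearing in the first order term -/
def QQ (r : ℕ) : ℚ :=
  ∑ l ∈ range (3 * r), (-1) ^ l * ((3 * r - 1).choose l : ℚ) * ((Qs r l : ℕ) : ℚ)⁻¹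

theorem QQ_term_mem {r l : ℕ} (hp : p = 6 * r + 1) (hl : l < 3 * r) :
    (-1) ^ l * ((3 * r - 1).choose l : ℚ) * ((Qs r l : ℕ) : ℚ)⁻¹ ∈ O p := by
  have hQ : Qs r l = if l < 2 * r then 2 * r - l else 8 * r - l := rfl
  have hQ1 : 0 < Qs r l := by rw [hQ]; split_ifs <;> omega
  have hQ2 : Qs r l < p := by rw [hQ]; split_ifs <;> omega
  exact (O p).mul_mem ((O p).mul_mem ((O p).pow_mem ((O p).neg_mem (O p).one_mem) _)
    (natCast_mem _)) (isU_of_lt hQ1 hQ2).2.1

theorem QQ_mem {r : ℕ} (hp : p = 6 * r + 1) : QQ r ∈ O p :=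
  (O p).sum_mem fun _ hl => QQ_term_mem hp (mem_range.mp hl)

theorem second_sum {r : ℕ} (hp : p = 6 * r + 1) (hr : 0 < r) :
    ∑ x : ZMod p, tau p x ^ (4 * r) * ((1 - tau p x) ^ (3 * r - 1) *
      ∑ s ∈ range (p - 1), ph p (((s + 1 : ℕ) : ℚ)⁻¹) * tau p x ^ (s + 1)) =
      ((p : ZMod (p ^ 2)) - 1) * ph p (QQ r) := by
  have h1 : ∀ x : ZMod p, tau p x ^ (4 * r) * ((1 - tau p x) ^ (3 * r - 1) *
      ∑ s ∈ range (p - 1), ph p (((s + 1 : ℕ) : ℚ)⁻¹) * tau p x ^ (s + 1)) =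
      ∑ l ∈ range (3 * r), ∑ s ∈ range (p - 1), ((-1) ^ l * ((3 * r - 1).choose l : ZMod (p ^ 2)) *
        ph p (((s + 1 : ℕ) : ℚ)⁻¹)) * tau p x ^ (4 * r + l + (s + 1)) := by
    intro x
    rw [one_sub_pow', show 3 * r - 1 + 1 = 3 * r by omega, sum_mul, mul_sum]
    refine sum_congr rfl fun l _ => ?_
    rw [mul_sum, mul_sum]
    refine sum_congr rfl fun s _ => ?_
    rw [pow_add, pow_add]; ring
  rw [sum_congr rfl fun x _ => h1 x, sum_comm]
  have h2 : ∀ l ∈ range (3 * r), ∑ x : ZMod p, ∑ s ∈ range (p - 1),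
      ((-1) ^ l * ((3 * r - 1).choose l : ZMod (p ^ 2)) *
        ph p (((s + 1 : ℕ) : ℚ)⁻¹)) * tau p x ^ (4 * r + l + (s + 1)) =
      ((p : ZMod (p ^ 2)) - 1) *
        ph p ((-1) ^ l * ((3 * r - 1).choose l : ℚ) * ((Qs r l : ℕ) : ℚ)⁻¹) := by
    intro l hl
    have hl' := mem_range.mp hl
    have hQ : Qs r l = if l < 2 * r then 2 * r - l else 8 * r - l := rfl
    have hQ1 : 0 < Qs r l := by rw [hQ]; split_ifs <;> omega
    have hQ2 : Qs r l < p := by rw [hQ]; split_ifs <;> omega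
    rw [sum_comm]
    have h3 : ∑ s ∈ range (p - 1), ∑ x : ZMod p,
        ((-1) ^ l * ((3 * r - 1).choose l : ZMod (p ^ 2)) *
          ph p (((s + 1 : ℕ) : ℚ)⁻¹)) * tau p x ^ (4 * r + l + (s + 1)) =
        ((-1) ^ l * ((3 * r - 1).choose l : ZMod (p ^ 2))) *
          ∑ s ∈ range (p - 1), ph p (((s + 1 : ℕ) : ℚ)⁻¹) *
            ∑ x : ZMod p, tau p x ^ (4 * r + l + (s + 1)) := by
      rw [mul_sum]
      refine sum_congr rfl fun s _ => ?_
      rw [← mul_sum]; ring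
    rw [h3, inner_sum hp hr hl']
    have h4 : ph p ((-1) ^ l * ((3 * r - 1).choose l : ℚ) * ((Qs r l : ℕ) : ℚ)⁻¹) =
        (-1) ^ l * ((3 * r - 1).choose l : ZMod (p ^ 2)) * ph p (((Qs r l : ℕ) : ℚ)⁻¹) := by
      have h5 : ((-1 : ℚ) ^ l * ((3 * r - 1).choose l : ℚ)) =
          (((-1) ^ l * ((3 * r - 1).choose l : ℤ) : ℤ) : ℚ) := by push_cast; ring
      rw [h5, ph_mul (intCast_mem _) (isU_of_lt hQ1 hQ2).2.1, ph_int]
      push_cast
      ring
    rw [h4]; ring
  rw [sum_congr rfl h2, ← mul_sum]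
  unfold QQ
  rw [ph_sum fun l hl => QQ_term_mem hp (mem_range.mp hl)]

theorem QQ_cg {r : ℕ} (hp : p = 6 * r + 1) (hr : 0 < r) :
    cg p 1 ((3 * r : ℕ) * QQ r) (-(((3 * r).choose r : ℚ) *
      (1 + (3 * r * harmonic (3 * r) - r * harmonic r - 2 * r * harmonic (2 * r))))) := by
  have hsplit : QQ r = ∑ l ∈ range (2 * r), (-1) ^ l * ((3 * r - 1).choose l : ℚ) *
      ((Qs r l : ℕ) : ℚ)⁻¹ + ∑ i ∈ range r, (-1) ^ (2 * r + i) *
        ((3 * r - 1).choose (2 * r + i) : ℚ) * ((Qs r (2 * r + i) : ℕ) : ℚ)⁻¹ := by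
    unfold QQ
    rw [show 3 * r = 2 * r + r by ring]
    rw [sum_range_add]
  have hA : ∑ l ∈ range (2 * r), (-1) ^ l * ((3 * r - 1).choose l : ℚ) *
      ((Qs r l : ℕ) : ℚ)⁻¹ = -∑ i ∈ range (2 * r - 1 + 1), (-1 : ℚ) ^ i *
        ((r + (2 * r - 1)).choose (r + i) : ℚ) / ((i : ℚ) + 1) := by
    rw [← sum_range_reflect, show 2 * r - 1 + 1 = 2 * r by omega, ← sum_neg_distrib]
    refine sum_congr rfl fun i hi => ?_
    have hi' := mem_range.mp hi
    have h1 : Qs r (2 * r - 1 - i) = i + 1 := by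
      unfold Qs; rw [if_pos (by omega)]; omega
    have h2 : (3 * r - 1).choose (2 * r - 1 - i) = (r + (2 * r - 1)).choose (r + i) := by
      rw [show r + (2 * r - 1) = 3 * r - 1 by omega]
      exact Nat.choose_symm_of_eq_add (by omega)
    have h3 : (-1 : ℚ) ^ (2 * r - 1 - i) = -(-1) ^ i := by
      have h4 : (-1 : ℚ) ^ (2 * r - 1 - i) * ((-1) ^ (i + 1)) = 1 := by
        rw [← pow_add, show 2 * r - 1 - i + (i + 1) = 2 * r by omega, pow_mul]; norm_num
      have h5 : ((-1 : ℚ) ^ (i + 1)) * ((-1) ^ (i + 1)) = 1 := by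
        rw [← pow_add, ← two_mul, pow_mul]; norm_num
      have h6 : (-1 : ℚ) ^ (2 * r - 1 - i) = (-1) ^ (i + 1) := by
        have : (-1 : ℚ) ^ (i + 1) ≠ 0 := pow_ne_zero _ (by norm_num)
        exact mul_right_cancel₀ this (h4.trans h5.symm)
      rw [h6, pow_succ]; ring
    rw [h1, h2, h3]
    push_cast
    rw [div_eq_mul_inv]; ring
  have hB : cg p 1 (∑ i ∈ range r, (-1) ^ (2 * r + i) *
        ((3 * r - 1).choose (2 * r + i) : ℚ) * ((Qs r (2 * r + i) : ℕ) : ℚ)⁻¹)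
      (-∑ i ∈ range (r - 1 + 1), (-1 : ℚ) ^ i *
        ((2 * r + (r - 1)).choose (2 * r + i) : ℚ) / ((i : ℚ) + 1)) := by
    rw [show r - 1 + 1 = r by omega, ← sum_neg_distrib]
    refine cg.sum fun i hi => ?_
    have hi' := mem_range.mp hi
    have h1 : Qs r (2 * r + i) = 6 * r - i := by
      unfold Qs; rw [if_neg (by omega)]; omega
    have h2 : (-1 : ℚ) ^ (2 * r + i) = (-1) ^ i := by
      rw [pow_add, pow_mul]; norm_num
    rw [h1, h2, show 2 * r + (r - 1) = 3 * r - 1 by omega]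
    have hu1 : IsU p ((6 * r - i : ℕ) : ℚ) := isU_of_lt (by omega) (by omega)
    have hu2 : IsU p ((i + 1 : ℕ) : ℚ) := isU_of_lt (by omega) (by omega)
    have hsum : ((6 * r - i : ℕ) : ℚ) + ((i + 1 : ℕ) : ℚ) = p := by
      have : (6 * r - i) + (i + 1) = p := by omega
      exact_mod_cast this
    have h3 : cg p 1 (((6 * r - i : ℕ) : ℚ)⁻¹) (-((i + 1 : ℕ) : ℚ)⁻¹) := by
      refine ⟨((6 * r - i : ℕ) : ℚ)⁻¹ * ((i + 1 : ℕ) : ℚ)⁻¹, (O p).mul_mem hu1.2.1 hu2.2.1, ?_⟩
      rw [pow_one, ← hsum]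
      have := hu1.2.2
      have := hu2.2.2
      field_simp
      ring
    have h4 := h3.const_mul (c := (-1 : ℚ) ^ i * ((3 * r - 1).choose (2 * r + i) : ℚ))
      ((O p).mul_mem ((O p).pow_mem ((O p).neg_mem (O p).one_mem) _) (natCast_mem _))
    refine h4.trans (cg.of_eq ?_)
    push_cast
    rw [div_eq_mul_inv]; ring
  have hHA := HH r (2 * r - 1)
  have hHB := HH (2 * r) (r - 1)
  have e1 : ((r : ℚ) + ((2 * r - 1 : ℕ) : ℚ) + 1) = 3 * r := by
    have : r + (2 * r - 1) + 1 = 3 * r := by omega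
    exact_mod_cast this
  have e2 : (((2 * r : ℕ) : ℚ) + ((r - 1 : ℕ) : ℚ) + 1) = 3 * r := by
    have : 2 * r + (r - 1) + 1 = 3 * r := by omega
    exact_mod_cast this
  rw [e1, show r + (2 * r - 1) + 1 = 3 * r by omega] at hHA
  rw [e2, show 2 * r + (r - 1) + 1 = 3 * r by omega] at hHB
  have hP : ((3 * r).choose r : ℚ) = ((r + (2 * r - 1)).choose r : ℚ) +
      ((2 * r + (r - 1)).choose (2 * r) : ℚ) := by
    have h1 : (3 * r).choose r = (3 * r - 1).choose (r - 1) + (3 * r - 1).choose r := by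
      have h2 : (3 * r).choose r = ((3 * r - 1) + 1).choose ((r - 1) + 1) := by
        rw [show 3 * r - 1 + 1 = 3 * r by omega, show r - 1 + 1 = r by omega]
      rw [h2, Nat.choose_succ_succ, Nat.succ_eq_add_one, show r - 1 + 1 = r by omega]
    have h2 : (3 * r - 1).choose (r - 1) = (2 * r + (r - 1)).choose (2 * r) := by
      rw [show 2 * r + (r - 1) = 3 * r - 1 by omega]
      exact Nat.choose_symm_of_eq_add (by omega)
    rw [h1, h2, show r + (2 * r - 1) = 3 * r - 1 by omega]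
    push_cast; ring
  have hS : ((3 * r).choose (2 * r) : ℚ) = ((3 * r).choose r : ℚ) := by
    have : (3 * r).choose (2 * r) = (3 * r).choose r := Nat.choose_symm_of_eq_add (by omega)
    rw [this]
  rw [hS] at hHB
  rw [hsplit, hA, mul_add]
  refine ((cg.refl _).add (hB.const_mul (natCast_mem _))).trans (cg.of_eq ?_)
  push_cast at hHA hHB ⊢
  linear_combination -hHA - hHB + hP

end main

end J1

open J1 in
theorem jac_eval (p r : ℕ) [Fact p.Prime] (hp : p = 6 * r + 1) (M : ℤ)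
    (hM : cg p 2 (M : ℚ) (((3 * r).choose r : ℚ) *
      (1 + p * (3 * r * harmonic (3 * r) - r * harmonic r - 2 * r * harmonic (2 * r))))) :
    jac p r = -(M : ZMod (p ^ 2)) := by
  have hp1 := (Fact.out : p.Prime).one_lt
  have hr : 0 < r := by omega
  have hp2 : p ≠ 2 := by omega
  set X : ℚ := 3 * r * harmonic (3 * r) - r * harmonic r - 2 * r * harmonic (2 * r) with hX
  have hXm : X ∈ O p := by
    have h3 : harmonic (3 * r) ∈ O p := harmonic_mem p _ (by omega)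
    have h1 : harmonic r ∈ O p := harmonic_mem p _ (by omega)
    have h2 : harmonic (2 * r) ∈ O p := harmonic_mem p _ (by omega)
    have e : X = ((3 * r : ℕ) : ℚ) * harmonic (3 * r) - (r : ℚ) * harmonic r -
      ((2 * r : ℕ) : ℚ) * harmonic (2 * r) := by rw [hX]; push_cast; ring
    rw [e]
    exact (O p).sub_mem ((O p).sub_mem ((O p).mul_mem (natCast_mem _) h3)
      ((O p).mul_mem (natCast_mem _) h1)) ((O p).mul_mem (natCast_mem _) h2)
  have hpX : (p : ℚ) * X ∈ O p := (O p).mul_mem (natCast_mem _) hXm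
  have h1pX : 1 + (p : ℚ) * X ∈ O p := (O p).add_mem (O p).one_mem hpX
  have hM2 : (M : ZMod (p ^ 2)) = ((3 * r).choose r : ZMod (p ^ 2)) *
      (1 + (p : ZMod (p ^ 2)) * ph p X) := by
    rw [← ph_int, ph_cg2 hM ((O p).mul_mem (natCast_mem _) h1pX),
      ph_mul (natCast_mem _) h1pX, ph_add (O p).one_mem hpX, ph_mul (natCast_mem _) hXm, ph_nat,
      ph_nat]
    have : ph p 1 = 1 := by simpa using ph_nat (p := p) 1
    rw [this]
  have hJ : jac p r = ∑ x : ZMod p, tau p x ^ (4 * r) * (1 - tau p x) ^ (3 * r) -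
      (3 * r : ZMod (p ^ 2)) * (p : ZMod (p ^ 2)) *
      ∑ x : ZMod p, tau p x ^ (4 * r) * ((1 - tau p x) ^ (3 * r - 1) *
      ∑ s ∈ range (p - 1), ph p (((s + 1 : ℕ) : ℚ)⁻¹) * tau p x ^ (s + 1)) := by
    unfold jac
    rw [mul_sum, ← sum_sub_distrib]
    refine sum_congr rfl fun x _ => ?_
    rw [tau_one_sub, one_sub_pow hp2, tau_pow_p]
    have h3 : 3 * r = (3 * r - 1) + 1 := by omega
    have h4 : ((3 * r - 1 : ℕ) : ZMod (p ^ 2)) + 1 = 3 * r := by
      have : (((3 * r - 1) + 1 : ℕ) : ZMod (p ^ 2)) = ((3 * r : ℕ) : ZMod (p ^ 2)) := by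
        rw [← h3]
      push_cast at this
      exact this
    have h5 := sub_pow_succ (1 - tau p x)
      (∑ s ∈ range (p - 1), ph p (((s + 1 : ℕ) : ℚ)⁻¹) * tau p x ^ (s + 1)) (3 * r - 1)
    rw [← h3, h4] at h5
    rw [h5]
    ring
  have hQm := QQ_mem hp
  have hq := ph_cg1 (QQ_cg hp hr) ((O p).neg_mem ((O p).mul_mem (natCast_mem _)
    ((O p).add_mem (O p).one_mem hXm)))
  rw [ph_mul (natCast_mem _) hQm, ph_neg ((O p).mul_mem (natCast_mem _)
    ((O p).add_mem (O p).one_mem hXm)), ph_mul (natCast_mem _)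
    ((O p).add_mem (O p).one_mem hXm), ph_add (O p).one_mem hXm, ph_nat, ph_nat] at hq
  have h1 : ph p 1 = 1 := by simpa using ph_nat (p := p) 1
  rw [h1] at hq
  push_cast at hq
  rw [hJ, first_sum hp hr, second_sum hp hr, hM2]
  linear_combination hq - (3 * r : ZMod (p ^ 2)) * ph p (QQ r) * pp_zero (p := p)

end Pool.Agent.SC
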