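import Pool.Agent.Work.MP_5b0587_nt.Defs

/-!
The quadratic equation satisfied modulo `p ^ 2` by the Jacobi sum of a cubic and the quadratic
character.
-/

namespace Pool.Agent.SC

open Finset

theorem tau_of_intCast (p : ℕ) [Fact p.Prime] (x : ZMod p) (a : ℤ) (h : (a : ZMod p) = x) :
    tau p x = (a : ZMod (p ^ 2)) ^ p := by
  have h1 : (((x.val : ℕ) : ℤ) : ZMod p) = ((a : ℤ) : ZMod p) := by
    rw [Int.cast_natCast, ZMod.natCast_zmod_val, h]
  have h2 : (p : ℤ) ∣ a - ((x.val : ℕ) : ℤ) := (ZMod.intCast_eq_intCast_iff_dvd_sub _ _ _).1 h1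
  have h3 := dvd_sub_pow_of_dvd_sub h2 1
  rw [pow_one] at h3
  have h4 : (((((x.val : ℕ) : ℤ) ^ p : ℤ)) : ZMod (p ^ 2)) = ((a ^ p : ℤ) : ZMod (p ^ 2)) := by
    rw [ZMod.intCast_eq_intCast_iff_dvd_sub]
    have : ((p ^ 2 : ℕ) : ℤ) = (p : ℤ) ^ (1 + 1) := by push_cast; ring
    rw [this]
    exact h3
  unfold tau
  push_cast at h4
  exact h4

theorem tau_mul (p : ℕ) [Fact p.Prime] (x y : ZMod p) : tau p (x * y) = tau p x * tau p y := by
  have h : (((((x.val : ℕ) : ℤ) * ((y.val : ℕ) : ℤ)) : ℤ) : ZMod p) = x * y := by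
    push_cast
    rw [ZMod.natCast_zmod_val, ZMod.natCast_zmod_val]
  rw [tau_of_intCast p (x * y) _ h]
  unfold tau
  push_cast
  rw [mul_pow]

theorem tau_one (p : ℕ) [Fact p.Prime] : tau p 1 = 1 := by
  rw [tau_of_intCast p 1 1 (by simp)]
  simp

theorem tau_zero (p : ℕ) [Fact p.Prime] : tau p 0 = 0 := by
  have hp : p ≠ 0 := (Fact.out : p.Prime).ne_zero
  rw [tau_of_intCast p 0 0 (by simp)]
  simp [hp]

theorem tau_neg_one (p : ℕ) [Fact p.Prime] (h2 : p ≠ 2) : tau p (-1) = -1 := by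
  have hodd : Odd p := (Fact.out : p.Prime).odd_of_ne_two h2
  rw [tau_of_intCast p (-1) (-1) (by simp)]
  push_cast
  exact hodd.neg_one_pow

theorem tau_pow (p : ℕ) [Fact p.Prime] (x : ZMod p) (k : ℕ) : tau p (x ^ k) = tau p x ^ k := by
  induction k with
  | zero => rw [pow_zero, pow_zero, tau_one]
  | succ k ih => rw [pow_succ x k, pow_succ (tau p x) k, tau_mul, ih]

theorem tau_pow_half (p r : ℕ) [Fact p.Prime] (hp : p = 6 * r + 1) (x : ZMod p) :
    tau p x ^ (3 * r) = ((quadraticChar (ZMod p) x : ℤ) : ZMod (p ^ 2)) := by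
  have hpr : p.Prime := Fact.out
  have hr : r ≠ 0 := by
    rintro rfl
    subst hp
    exact absurd hpr (by norm_num)
  have hp2 : p ≠ 2 := by omega
  have hch : ringChar (ZMod p) ≠ 2 := by
    rw [ZMod.ringChar_zmod_n]; exact hp2
  have hE := quadraticChar_eq_pow_of_char_ne_two' hch x
  have hc : Fintype.card (ZMod p) / 2 = 3 * r := by
    rw [ZMod.card]; omega
  rw [hc] at hE
  rw [← tau_pow, ← hE]
  rcases eq_or_ne x 0 with h0 | h0
  · subst h0
    simp [tau_zero]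
  · rcases quadraticChar_dichotomy h0 with h | h
    · rw [h]; simp [tau_one]
    · rw [h]; simp [tau_neg_one p hp2]

/-- splitting a sum over `3 m` consecutive indices according to the residue modulo three -/
theorem sum_range_three {R : Type*} [CommRing R] (f : ℕ → R) (m : ℕ) :
    ∑ k ∈ range (3 * m), f k = ∑ j ∈ range m, f (3 * j) + ∑ j ∈ range m, f (3 * j + 1)
      + ∑ j ∈ range m, f (3 * j + 2) := by
  induction m with
  | zero => simp
  | succ m ih =>
    rw [show 3 * (m + 1) = 3 * m + 1 + 1 + 1 by ring, sum_range_succ, sum_range_succ,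
      sum_range_succ, ih, sum_range_succ, sum_range_succ, sum_range_succ]
    ring

/-- a sum over the field of a function vanishing at zero, in terms of a generator -/
theorem sum_gen {R : Type*} [CommRing R] (p r : ℕ) [Fact p.Prime] (hp : p = 6 * r + 1)
    (g : (ZMod p)ˣ) (hg : ∀ x : (ZMod p)ˣ, x ∈ Subgroup.zpowers g) (f : ZMod p → R)
    (hf : f 0 = 0) :
    ∑ x : ZMod p, f x = ∑ k ∈ range (6 * r), f ((g : ZMod p) ^ k) := by
  have hcard : orderOf g = 6 * r := by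
    rw [orderOf_eq_card_of_forall_mem_zpowers hg, Nat.card_eq_fintype_card, ZMod.card_units p]
    omega
  symm
  rw [← Finset.sum_erase (f := f) univ hf]
  refine Finset.sum_bij (fun k _ => (g : ZMod p) ^ k) ?_ ?_ ?_ ?_
  · intro k _
    rw [mem_erase]
    refine ⟨?_, mem_univ _⟩
    exact pow_ne_zero _ g.ne_zero
  · intro a ha b hb hab
    have hab' : g ^ a = g ^ b := by
      ext
      push_cast
      exact hab
    rw [mem_range] at ha hb
    exact pow_injOn_Iio_orderOf (by rw [Set.mem_Iio, hcard]; exact ha)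
      (by rw [Set.mem_Iio, hcard]; exact hb) hab'
  · intro y hy
    rw [mem_erase] at hy
    obtain ⟨k, hk, hk2⟩ := (mem_powers_iff_mem_range_orderOf (x := g) (y := Units.mk0 y hy.1)).1
      ((mem_powers_iff_mem_zpowers).2 (hg _)) |> Finset.mem_image.1
    refine ⟨k, ?_, ?_⟩
    · rw [hcard] at hk; exact hk
    · have := congrArg (fun u : (ZMod p)ˣ => (u : ZMod p)) hk2
      push_cast at this
      exact this
  · intro k _
    rfl

/-- the sums of the quadratic character over the classes of exponents modulo three -/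
def ee (p r : ℕ) [Fact p.Prime] (g : ZMod p) (i : ℕ) : ℤ :=
  ∑ j ∈ range (2 * r), quadraticChar (ZMod p) (1 - g ^ (3 * j + i))

theorem sum_z {R : Type*} [CommRing R] (p r : ℕ) [Fact p.Prime] (g : ZMod p) (z : R)
    (hz : z ^ 3 = 1) :
    ∑ k ∈ range (6 * r), z ^ k * ((quadraticChar (ZMod p) (1 - g ^ k) : ℤ) : R)
      = (ee p r g 0 : R) + (ee p r g 1 : R) * z + (ee p r g 2 : R) * z ^ 2 := by
  rw [show 6 * r = 3 * (2 * r) by ring, sum_range_three]
  unfold ee
  push_cast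
  rw [sum_mul, sum_mul]
  congr 1
  · congr 1
    · refine sum_congr rfl fun j _ => ?_
      rw [pow_mul, hz, one_pow, one_mul, add_zero]
    · refine sum_congr rfl fun j _ => ?_
      rw [pow_add z, pow_mul z, hz, one_pow, one_mul, pow_one, mul_comm]
  · refine sum_congr rfl fun j _ => ?_
    rw [pow_add z, pow_mul z, hz, one_pow, one_mul, mul_comm]

theorem ee_norm (p r : ℕ) [Fact p.Prime] (hp : p = 6 * r + 1)
    (g : (ZMod p)ˣ) (hg : ∀ x : (ZMod p)ˣ, x ∈ Subgroup.zpowers g) :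
    ee p r g 0 ^ 2 + ee p r g 1 ^ 2 + ee p r g 2 ^ 2 - ee p r g 0 * ee p r g 1
      - ee p r g 1 * ee p r g 2 - ee p r g 2 * ee p r g 0 = (p : ℤ) := by
  have hpr : p.Prime := Fact.out
  have hr : r ≠ 0 := by
    rintro rfl
    subst hp
    exact absurd hpr (by norm_num)
  have hp2 : p ≠ 2 := by omega
  have hch : ringChar (ZMod p) ≠ 2 := by
    rw [ZMod.ringChar_zmod_n]; exact hp2
  obtain ⟨χ, hχ⟩ := MulChar.exists_mulChar_orderOf (ZMod p) (R := ℂ) (n := 3)
    (by rw [ZMod.card, hp]; exact ⟨2 * r, by omega⟩) (Complex.isPrimitiveRoot_exp 3 (by norm_num))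
  have hχ1 : χ ≠ 1 := by
    rintro rfl
    rw [orderOf_one] at hχ
    norm_num at hχ
  have hχ3 : χ ^ 3 = 1 := by rw [← hχ]; exact pow_orderOf_eq_one χ
  set ω : ℂ := χ g with hω
  have hω3 : ω ^ 3 = 1 := by
    rw [hω, ← MulChar.pow_apply_coe, hχ3, MulChar.one_apply_coe]
  have hω1 : ω ≠ 1 := by
    intro h
    apply hχ1
    ext x
    obtain ⟨k, hk⟩ := (mem_powers_iff_mem_zpowers).2 (hg x)
    have hk' : (x : ZMod p) = (g : ZMod p) ^ k := by
      rw [← hk]; push_cast; rfl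
    rw [MulChar.one_apply_coe, hk', map_pow, ← hω, h, one_pow]
  have hωq : ω ^ 2 + ω + 1 = 0 := by
    have : (ω - 1) * (ω ^ 2 + ω + 1) = 0 := by linear_combination hω3
    rcases mul_eq_zero.1 this with h | h
    · exact absurd (sub_eq_zero.1 h) hω1
    · exact h
  have hω0 : ω ≠ 0 := by
    intro h
    rw [h] at hω3
    norm_num at hω3
  set φ : MulChar (ZMod p) ℂ := (quadraticChar (ZMod p)).ringHomComp (Int.castRingHom ℂ) with hφ
  have hφq : φ.IsQuadratic := (quadraticChar_isQuadratic (ZMod p)).comp _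
  have hφinv : φ⁻¹ = φ := hφq.inv
  have hφ1 : φ ≠ 1 := by
    rw [hφ]
    rw [MulChar.ringHomComp_ne_one_iff (Int.cast_injective)]
    exact quadraticChar_ne_one hch
  have hφ2 : φ ^ 2 = 1 := hφq.sq_eq_one
  have hχφ : χ * φ ≠ 1 := by
    intro h
    have h2 : χ ^ 2 = 1 := by
      calc χ ^ 2 = (χ * φ) ^ 2 * φ ^ 2 * (φ ^ 2)⁻¹ * (φ ^ 2)⁻¹ := by
            rw [mul_pow]; group
        _ = 1 := by rw [h, hφ2]; simp
    have h3 := orderOf_dvd_of_pow_eq_one h2
    rw [hχ] at h3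
    norm_num at h3
  have hJ := jacobiSum_mul_jacobiSum_inv (F := ZMod p) (F' := ℂ) (by
    rw [ZMod.ringChar_zmod_n, CharP.ringChar_zero_iff_CharZero ℂ |>.2 inferInstance]
    omega) hχ1 hφ1 hχφ
  rw [hφinv, ZMod.card] at hJ
  have hφval : ∀ x : ZMod p, φ x = ((quadraticChar (ZMod p) x : ℤ) : ℂ) := fun x => rfl
  have h1 : jacobiSum χ φ = (ee p r g 0 : ℂ) + (ee p r g 1 : ℂ) * ω + (ee p r g 2 : ℂ) * ω ^ 2 := by
    rw [← sum_z p r (g : ZMod p) ω hω3]
    unfold jacobiSum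
    rw [sum_gen p r hp g hg (fun x => χ x * φ (1 - x)) (by rw [MulChar.map_zero, zero_mul])]
    refine sum_congr rfl fun k _ => ?_
    rw [map_pow, ← hω, hφval]
  have h2 : jacobiSum χ⁻¹ φ = (ee p r g 0 : ℂ) + (ee p r g 1 : ℂ) * ω ^ 2
      + (ee p r g 2 : ℂ) * (ω ^ 2) ^ 2 := by
    rw [← sum_z p r (g : ZMod p) (ω ^ 2) (by rw [← pow_mul, mul_comm, pow_mul, hω3, one_pow])]
    unfold jacobiSum
    rw [sum_gen p r hp g hg (fun x => χ⁻¹ x * φ (1 - x)) (by rw [MulChar.map_zero, zero_mul])]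
    refine sum_congr rfl fun k _ => ?_
    have hinv : χ⁻¹ (g : ZMod p) = ω ^ 2 := by
      rw [MulChar.inv_apply_eq_inv', ← hω]
      field_simp
      exact hω3.symm
    rw [map_pow, hinv, hφval]
  rw [h1, h2] at hJ
  have h3 : (((ee p r g 0 ^ 2 + ee p r g 1 ^ 2 + ee p r g 2 ^ 2 - ee p r g 0 * ee p r g 1
      - ee p r g 1 * ee p r g 2 - ee p r g 2 * ee p r g 0 : ℤ)) : ℂ) = ((p : ℤ) : ℂ) := by
    push_cast
    rw [← hJ]
    generalize (ee p r g 0 : ℂ) = a
    generalize (ee p r g 1 : ℂ) = b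
    generalize (ee p r g 2 : ℂ) = c
    linear_combination (-b ^ 2 - c ^ 2 * (ω ^ 3 + 1) - a * c * ω - b * c * (ω ^ 2 + ω)) * hω3
      + (-a * b - a * c - b * c) * hωq
  exact_mod_cast h3

theorem ee_sum (p r : ℕ) [Fact p.Prime] (hp : p = 6 * r + 1)
    (g : (ZMod p)ˣ) (hg : ∀ x : (ZMod p)ˣ, x ∈ Subgroup.zpowers g) :
    ee p r g 0 + ee p r g 1 + ee p r g 2 = -1 := by
  have hpr : p.Prime := Fact.out
  have hr : r ≠ 0 := by
    rintro rfl
    subst hp
    exact absurd hpr (by norm_num)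
  have hp2 : p ≠ 2 := by omega
  have hch : ringChar (ZMod p) ≠ 2 := by
    rw [ZMod.ringChar_zmod_n]; exact hp2
  have h1 := sum_z (R := ℤ) p r (g : ZMod p) 1 (by norm_num)
  simp only [one_pow, one_mul, mul_one, Int.cast_id] at h1
  have h2 := sum_gen p r hp g hg
    (fun x => quadraticChar (ZMod p) (1 - x) - (if x = 0 then 1 else 0)) (by simp)
  rw [sum_sub_distrib] at h2
  have h3 : ∑ x : ZMod p, quadraticChar (ZMod p) (1 - x) = 0 := by
    rw [← quadraticChar_sum_zero hch]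
    exact Equiv.sum_comp (Equiv.subLeft (1 : ZMod p)) (fun y => quadraticChar (ZMod p) y)
  rw [h3] at h2
  simp only [pow_eq_zero_iff', Units.ne_zero, false_and, if_false, sub_zero] at h2
  rw [← h1, ← h2]
  simp

theorem sum_parity (f : ℕ → ℤ) (hf : ∀ j, f j % 2 = 1) (m : ℕ) :
    (∑ j ∈ range m, f j) % 2 = (m : ℤ) % 2 := by
  induction m with
  | zero => simp
  | succ m ih =>
    rw [sum_range_succ]
    have := hf m
    push_cast
    omega

theorem ee_even (p r : ℕ) [Fact p.Prime] (hp : p = 6 * r + 1)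
    (g : (ZMod p)ˣ) (hg : ∀ x : (ZMod p)ˣ, x ∈ Subgroup.zpowers g) (i : ℕ) (hi : i % 3 ≠ 0) :
    ee p r g i % 2 = 0 := by
  have hcard : orderOf g = 6 * r := by
    rw [orderOf_eq_card_of_forall_mem_zpowers hg, Nat.card_eq_fintype_card, ZMod.card_units p]
    omega
  unfold ee
  rw [sum_parity _ _ (2 * r)]
  · push_cast; omega
  · intro j
    have hne : (1 : ZMod p) - (g : ZMod p) ^ (3 * j + i) ≠ 0 := by
      intro h
      have h1 : g ^ (3 * j + i) = 1 := by
        ext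
        push_cast
        exact (sub_eq_zero.1 h).symm
      have h2 := orderOf_dvd_of_pow_eq_one h1
      rw [hcard] at h2
      have h3 : 3 ∣ 3 * j + i := (Dvd.intro (2 * r) (by ring)).trans h2
      omega
    rcases quadraticChar_dichotomy hne with h | h <;> rw [h] <;> norm_num

theorem isUnit_of_cast (p : ℕ) [Fact p.Prime] (w : ZMod (p ^ 2))
    (h : ZMod.castHom (show p ∣ p ^ 2 from Dvd.intro_left p (by ring)) (ZMod p) w ≠ 0) :
    IsUnit w := by
  have hpr : p.Prime := Fact.out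
  have : NeZero (p ^ 2) := ⟨pow_ne_zero 2 hpr.ne_zero⟩
  rw [← ZMod.natCast_zmod_val w] at h ⊢
  rw [map_natCast] at h
  rw [ZMod.isUnit_iff_coprime]
  refine Nat.Coprime.pow_right 2 ?_
  rw [Nat.coprime_comm, hpr.coprime_iff_not_dvd]
  intro hd
  exact h ((ZMod.natCast_eq_zero_iff _ _).2 hd)

theorem cast_tau (p : ℕ) [Fact p.Prime] (x : ZMod p) :
    ZMod.castHom (show p ∣ p ^ 2 from Dvd.intro_left p (by ring)) (ZMod p) (tau p x) = x := by
  unfold tau
  rw [map_pow, map_natCast, ZMod.natCast_zmod_val, ZMod.pow_card]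

theorem cube_root (p r : ℕ) [Fact p.Prime] (hp : p = 6 * r + 1)
    (g : (ZMod p)ˣ) (hg : ∀ x : (ZMod p)ˣ, x ∈ Subgroup.zpowers g) :
    (tau p g ^ (4 * r)) ^ 3 = 1 ∧ (tau p g ^ (4 * r)) ^ 2 + tau p g ^ (4 * r) + 1 = 0 := by
  have hpr : p.Prime := Fact.out
  have hr : r ≠ 0 := by
    rintro rfl
    subst hp
    exact absurd hpr (by norm_num)
  have hcard : orderOf g = 6 * r := by
    rw [orderOf_eq_card_of_forall_mem_zpowers hg, Nat.card_eq_fintype_card, ZMod.card_units p]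
    omega
  have h3 : (tau p g ^ (4 * r)) ^ 3 = 1 := by
    rw [← tau_pow, ← tau_pow, ← pow_mul]
    have : (g : ZMod p) ^ (4 * r * 3) = 1 := by
      have h : g ^ (4 * r * 3) = 1 := by
        rw [show 4 * r * 3 = 6 * r * 2 by ring, pow_mul, ← hcard, pow_orderOf_eq_one, one_pow]
      have := congrArg (fun u : (ZMod p)ˣ => (u : ZMod p)) h
      push_cast at this
      exact this
    rw [this, tau_one]
  refine ⟨h3, ?_⟩
  have hu : IsUnit (tau p g ^ (4 * r) - 1) := by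
    apply isUnit_of_cast
    rw [map_sub, map_pow, cast_tau, map_one]
    intro h
    have h1 : g ^ (4 * r) = 1 := by
      ext
      push_cast
      exact sub_eq_zero.1 h
    have h2 := orderOf_dvd_of_pow_eq_one h1
    rw [hcard] at h2
    obtain ⟨c, hc⟩ := h2
    rcases Nat.lt_or_ge c 1 with hc1 | hc1
    · have : c = 0 := by omega
      subst this
      omega
    · have h6 : 6 * r * 1 ≤ 6 * r * c := Nat.mul_le_mul_left _ hc1
      rw [← hc] at h6
      omega
  rw [← hu.mul_right_eq_zero]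
  linear_combination h3

theorem jac_eq (p r : ℕ) [Fact p.Prime] (hp : p = 6 * r + 1)
    (g : (ZMod p)ˣ) (hg : ∀ x : (ZMod p)ˣ, x ∈ Subgroup.zpowers g) :
    jac p r = (ee p r g 0 : ZMod (p ^ 2)) + (ee p r g 1 : ZMod (p ^ 2)) * tau p g ^ (4 * r)
      + (ee p r g 2 : ZMod (p ^ 2)) * (tau p g ^ (4 * r)) ^ 2 := by
  have hpr : p.Prime := Fact.out
  have hr : r ≠ 0 := by
    rintro rfl
    subst hp
    exact absurd hpr (by norm_num)
  rw [← sum_z p r (g : ZMod p) (tau p g ^ (4 * r)) (cube_root p r hp g hg).1]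
  unfold jac
  rw [sum_gen p r hp g hg (fun x => tau p x ^ (4 * r) * tau p (1 - x) ^ (3 * r)) (by
    rw [tau_zero, zero_pow (by omega), zero_mul])]
  refine sum_congr rfl fun k _ => ?_
  rw [tau_pow_half p r hp, tau_pow, ← pow_mul, ← pow_mul, mul_comm k]

/-- representations of a prime by the form `A ^ 2 + 3 B ^ 2` agree in the first square -/
theorem rep_unique (p : ℕ) (hpr : p.Prime) (A B C D : ℤ) (h1 : (p : ℤ) = A ^ 2 + 3 * B ^ 2)
    (h2 : (p : ℤ) = C ^ 2 + 3 * D ^ 2) : A ^ 2 = C ^ 2 := by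
  have hp0 : (0 : ℤ) < p := by exact_mod_cast hpr.pos
  have hprod : (A * D - B * C) * (A * D + B * C) = p * (D ^ 2 - B ^ 2) := by
    linear_combination D ^ 2 * h1 - B ^ 2 * h2 - 2 * D ^ 2 * h1 + 2 * B ^ 2 * h2
  have hdvd : (p : ℤ) ∣ (A * D - B * C) * (A * D + B * C) := ⟨_, hprod⟩
  have key : (A * D - B * C) = 0 ∨ (A * D + B * C) = 0 := by
    rcases (Nat.prime_iff_prime_int.1 hpr).dvd_or_dvd hdvd with h | h
    · left
      apply Int.eq_zero_of_abs_lt_dvd h
      have : (p : ℤ) ^ 2 = (A * C + 3 * B * D) ^ 2 + 3 * (A * D - B * C) ^ 2 := by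
        calc (p : ℤ) ^ 2 = (A ^ 2 + 3 * B ^ 2) * (C ^ 2 + 3 * D ^ 2) := by
              rw [← h1, ← h2]; ring
          _ = _ := by ring
      apply abs_lt_of_sq_lt_sq _ hp0.le
      nlinarith [sq_nonneg (A * C + 3 * B * D)]
    · right
      apply Int.eq_zero_of_abs_lt_dvd h
      have : (p : ℤ) ^ 2 = (A * C - 3 * B * D) ^ 2 + 3 * (A * D + B * C) ^ 2 := by
        calc (p : ℤ) ^ 2 = (A ^ 2 + 3 * B ^ 2) * (C ^ 2 + 3 * D ^ 2) := by
              rw [← h1, ← h2]; ring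
          _ = _ := by ring
      apply abs_lt_of_sq_lt_sq _ hp0.le
      nlinarith [sq_nonneg (A * C - 3 * B * D)]
  have h0 : (p : ℤ) * (D ^ 2 - B ^ 2) = 0 := by
    rw [← hprod]
    rcases key with h | h <;> rw [h] <;> ring
  rcases mul_eq_zero.1 h0 with h | h
  · omega
  · linarith

theorem jac_alg (p r : ℕ) [Fact p.Prime] (hp : p = 6 * r + 1) (A B : ℤ)
    (hAB : (p : ℤ) = A ^ 2 + 3 * B ^ 2) (hA : A % 3 = 1) :
    jac p r ^ 2 + 2 * (A : ZMod (p ^ 2)) * jac p r + (p : ZMod (p ^ 2)) = 0 := by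
  obtain ⟨g, hg⟩ := IsCyclic.exists_generator (α := (ZMod p)ˣ)
  have hN := ee_norm p r hp g hg
  have hS := ee_sum p r hp g hg
  have h1 := ee_even p r hp g hg 1 (by norm_num)
  have h2 := ee_even p r hp g hg 2 (by norm_num)
  have hJ := jac_eq p r hp g hg
  obtain ⟨_, hz⟩ := cube_root p r hp g hg
  generalize tau p g ^ (4 * r) = z at hJ hz
  generalize ee p r g 0 = a at *
  generalize ee p r g 1 = b at *
  generalize ee p r g 2 = c at *
  obtain ⟨v, hv⟩ : ∃ v, b - c = 2 * v := ⟨(b - c) / 2, by omega⟩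
  have hrep : (p : ℤ) = (a - c - v) ^ 2 + 3 * v ^ 2 := by
    have hb : b = c + 2 * v := by linarith
    rw [← hN, hb]
    ring
  have hsq := rep_unique p Fact.out A B (a - c - v) v hAB hrep
  have hA' : a - c - v = -A := by
    rcases sq_eq_sq_iff_eq_or_eq_neg.1 hsq with h | h
    · exfalso
      omega
    · linarith
  have hJ2 : jac p r = -(A : ZMod (p ^ 2)) + (v : ZMod (p ^ 2)) * (1 + 2 * z) := by
    have e1 : ((a - c - v : ℤ) : ZMod (p ^ 2)) = ((-A : ℤ) : ZMod (p ^ 2)) := by rw [hA']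
    have e2 : ((b - c : ℤ) : ZMod (p ^ 2)) = ((2 * v : ℤ) : ZMod (p ^ 2)) := by rw [hv]
    push_cast at e1 e2
    rw [hJ]
    linear_combination e1 + z * e2 + (c : ZMod (p ^ 2)) * hz
  have hp3 : (p : ZMod (p ^ 2)) = (A : ZMod (p ^ 2)) ^ 2 + 3 * (v : ZMod (p ^ 2)) ^ 2 := by
    rw [hA'] at hrep
    have := congrArg (fun t : ℤ => (t : ZMod (p ^ 2))) hrep
    push_cast at this
    rw [this]
    ring
  rw [hJ2, hp3]
  linear_combination 4 * (v : ZMod (p ^ 2)) ^ 2 * hz

end Pool.Agent.SC
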