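import Mathlib

/-! Sign lemmas: the value of a power of three modulo a prime of the form A^2+3B^2. -/

namespace Pool.Agent.SC

namespace SG

lemma coe_natAbs_cases (A : ℤ) : ((A.natAbs : ℤ) = A ∧ 0 ≤ A) ∨ ((A.natAbs : ℤ) = -A ∧ A < 0) := by
  omega

/-- signed to unsigned, modulus congruent to one modulo four -/
lemma jac_natAbs_one {p : ℕ} (hp : p % 4 = 1) (A : ℤ) :
    jacobiSym A p = jacobiSym (A.natAbs : ℤ) p := by
  have hodd : Odd p := Nat.odd_iff.mpr (by omega)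
  rcases coe_natAbs_cases A with ⟨h, _⟩ | ⟨h, _⟩
  · rw [h]
  · rw [h, jacobiSym.neg A hodd, ZMod.χ₄_nat_one_mod_four hp, one_mul]

/-- signed to unsigned, modulus congruent to three modulo four -/
lemma jac_neg_three {p : ℕ} (hp : p % 4 = 3) (A : ℤ) :
    jacobiSym (-A) p = - jacobiSym A p := by
  have hodd : Odd p := Nat.odd_iff.mpr (by omega)
  rw [jacobiSym.neg A hodd, ZMod.χ₄_nat_three_mod_four hp]
  ring

lemma coprime_AB {p : ℕ} (hpp : p.Prime) {A B : ℤ} (hAB : (p : ℤ) = A ^ 2 + 3 * B ^ 2) :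
    IsCoprime A B := by
  rw [Int.isCoprime_iff_gcd_eq_one]
  by_contra hne
  set g := Int.gcd A B with hg
  have h1 : (g : ℤ) ∣ A := Int.gcd_dvd_left ..
  have h2 : (g : ℤ) ∣ B := Int.gcd_dvd_right ..
  obtain ⟨a, ha⟩ := h1
  obtain ⟨b, hb⟩ := h2
  have h3 : (p : ℤ) = (g : ℤ) ^ 2 * (a ^ 2 + 3 * b ^ 2) := by rw [hAB, ha, hb]; ring
  have h4 : g * g ∣ p := by
    have : ((g * g : ℕ) : ℤ) ∣ (p : ℤ) := ⟨a ^ 2 + 3 * b ^ 2, by rw [h3]; push_cast; ring⟩
    exact_mod_cast this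
  have hu : IsUnit g := hpp.prime.squarefree g h4
  exact hne (Nat.isUnit_iff.mp hu)

/-- the symbol of `p` at an odd divisor type modulus `a` of `A`: `J(p | a) = J(3 | a)` -/
lemma jac_p_dvdA {p : ℕ} {A B : ℤ} (hAB : (p : ℤ) = A ^ 2 + 3 * B ^ 2) (hc : IsCoprime A B)
    {a : ℕ} (ha : (a : ℤ) ∣ A) : jacobiSym (p : ℤ) a = jacobiSym 3 a := by
  have h1 : (p : ℤ) % a = (3 * B ^ 2) % a := by
    rw [hAB]
    have : (a : ℤ) ∣ A ^ 2 := ha.trans (dvd_pow_self A two_ne_zero)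
    obtain ⟨c, hc'⟩ := this
    rw [hc', Int.add_comm, Int.add_mul_emod_self_left]
  have h2 : B.gcd (a : ℤ) = 1 := by
    rw [← Int.isCoprime_iff_gcd_eq_one]
    exact (IsCoprime.of_isCoprime_of_dvd_left hc ha).symm
  rw [jacobiSym.mod_left' h1, jacobiSym.mul_left, jacobiSym.sq_one' h2, mul_one]

/-- the symbol of `p` at a divisor `b` of `B`: `J(p | b) = 1` -/
lemma jac_p_dvdB {p : ℕ} {A B : ℤ} (hAB : (p : ℤ) = A ^ 2 + 3 * B ^ 2) (hc : IsCoprime A B)
    {b : ℕ} (hb : (b : ℤ) ∣ B) : jacobiSym (p : ℤ) b = 1 := by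
  have h1 : (p : ℤ) % b = (A ^ 2) % b := by
    rw [hAB]
    have : (b : ℤ) ∣ 3 * B ^ 2 := (hb.trans (dvd_pow_self B two_ne_zero)).mul_left 3
    obtain ⟨c, hc⟩ := this
    rw [hc, Int.add_mul_emod_self_left]
  have h2 : A.gcd (b : ℤ) = 1 := by
    rw [← Int.isCoprime_iff_gcd_eq_one]
    exact IsCoprime.of_isCoprime_of_dvd_right hc hb
  rw [jacobiSym.mod_left' h1, jacobiSym.sq_one' h2]

lemma jac_three_one : jacobiSym 1 3 = 1 := by simp

lemma jac_three_two : jacobiSym 2 3 = -1 := by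
  rw [show (3 : ℕ) = 3 from rfl, jacobiSym.at_two (by decide)]
  decide

lemma jac_three_mod {A : ℤ} (h : A % 3 = 1) : jacobiSym A 3 = 1 := by
  rw [jacobiSym.mod_left, show (A % ((3 : ℕ) : ℤ)) = 1 by exact_mod_cast h]
  exact jac_three_one

lemma jac_three_mod2 {A : ℤ} (h : A % 3 = 2) : jacobiSym A 3 = -1 := by
  rw [jacobiSym.mod_left, show (A % ((3 : ℕ) : ℤ)) = 2 by exact_mod_cast h]
  exact jac_three_two

lemma sign_congr {m n : ℕ} (h : m % 2 = n % 2) : (-1 : ℤ) ^ m = (-1) ^ n := by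
  rw [neg_one_pow_eq_pow_mod_two m, neg_one_pow_eq_pow_mod_two n, h]

/-- `J(3 | n)` for an odd number `n` -/
lemma jac_three_nat {n : ℕ} (hn : n % 2 = 1) :
    jacobiSym 3 n = (-1) ^ (n / 2) * jacobiSym (n : ℤ) 3 := by
  have := jacobiSym.quadratic_reciprocity (a := 3) (b := n) (by decide) (Nat.odd_iff.mpr hn)
  rw [show ((3 : ℕ) : ℤ) = 3 from rfl] at this
  rw [this]
  norm_num

lemma jacA_one {p : ℕ} [Fact p.Prime] (hp : p % 12 = 1) {A B : ℤ}
    (hAB : (p : ℤ) = A ^ 2 + 3 * B ^ 2) (hA : A % 3 = 1) (hA2 : A % 2 = 1) :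
    jacobiSym A p = (-1) ^ ((A - 1) / 2).natAbs := by
  have hp4 : p % 4 = 1 := by omega
  have hc := coprime_AB (Fact.out : p.Prime) hAB
  have hodd : Odd A.natAbs := Nat.odd_iff.mpr (by omega)
  rw [jac_natAbs_one hp4, jacobiSym.quadratic_reciprocity_one_mod_four' hodd hp4,
    jac_p_dvdA hAB hc (Int.natAbs_dvd.mpr dvd_rfl), jac_three_nat (by omega)]
  rcases coe_natAbs_cases A with ⟨h, h0⟩ | ⟨h, h0⟩
  · rw [h, jac_three_mod hA, mul_one]
    apply sign_congr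
    omega
  · rw [h, jac_three_mod2 (by omega)]
    have : (-1 : ℤ) ^ (A.natAbs / 2) * -1 = (-1) ^ (A.natAbs / 2 + 1) := by rw [pow_succ]
    rw [this]
    apply sign_congr
    omega

lemma jacB_one {p : ℕ} [Fact p.Prime] (hp : p % 12 = 1) {A B : ℤ}
    (hAB : (p : ℤ) = A ^ 2 + 3 * B ^ 2) (hA2 : A % 2 = 1) (hB2 : B % 2 = 0) :
    jacobiSym B p = (-1) ^ ((p - 1) / 4) := by
  have hp4 : p % 4 = 1 := by omega
  have hpodd : Odd p := Nat.odd_iff.mpr (by omega)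
  have hpp : p.Prime := Fact.out
  have hc := coprime_AB hpp hAB
  have hB0 : B.natAbs ≠ 0 := by
    intro h0
    have hB : B = 0 := Int.natAbs_eq_zero.mp h0
    rw [hB] at hAB
    have : (p : ℤ) = (A.natAbs * A.natAbs : ℕ) := by
      rw [Int.natAbs_mul_self]; rw [hAB]; ring
    have hpe : p = A.natAbs * A.natAbs := by exact_mod_cast this
    have hu : IsUnit A.natAbs := hpp.prime.squarefree A.natAbs ⟨1, by rw [mul_one]; exact hpe⟩
    rw [Nat.isUnit_iff.mp hu] at hpe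
    exact hpp.one_lt.ne' hpe
  obtain ⟨e, b, hb, hBe⟩ := Nat.exists_eq_two_pow_mul_odd hB0
  have hbB : (b : ℤ) ∣ B := by
    rw [← Int.dvd_natAbs, hBe]; exact ⟨(2 ^ e : ℕ), by push_cast; ring⟩
  rw [jac_natAbs_one hp4, hBe]
  push_cast
  rw [jacobiSym.mul_left, jacobiSym.pow_left, jacobiSym.quadratic_reciprocity_one_mod_four' hb hp4,
    jac_p_dvdB hAB hc hbB, mul_one, jacobiSym.at_two hpodd, ZMod.χ₈_nat_eq_if_mod_eight]
  obtain ⟨u, hu⟩ : ∃ u, A = 2 * u + 1 := ⟨A / 2, by omega⟩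
  obtain ⟨v, hv⟩ : ∃ v, B = 2 * v := ⟨B / 2, by omega⟩
  have hpe : (p : ℤ) = 8 * (u * (u + 1) / 2) + 1 + 12 * v ^ 2 := by
    obtain ⟨w, hw⟩ := Int.even_mul_succ_self u
    rw [hAB, hu, hv, hw]
    have : (w + w) / 2 = w := by omega
    rw [this]
    linear_combination 4 * hw
  rcases Int.emod_two_eq_zero_or_one v with h2 | h2
  · -- `v` even, `4` divides `B`
    obtain ⟨w, hw⟩ : ∃ w, v = 2 * w := ⟨v / 2, by omega⟩
    have h8 : p % 8 = 1 := by
      have : v ^ 2 = 4 * w ^ 2 := by rw [hw]; ring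
      omega
    rw [if_neg (by omega), if_pos (by omega), one_pow]
    have : ((p - 1) / 4) % 2 = 0 := by omega
    rw [sign_congr (n := 0) (by omega), pow_zero]
  · obtain ⟨w, hw⟩ : ∃ w, v = 2 * w + 1 := ⟨v / 2, by omega⟩
    have h8 : p % 8 = 5 := by
      have : v ^ 2 = 4 * (w ^ 2 + w) + 1 := by rw [hw]; ring
      omega
    rw [if_neg (by omega), if_neg (by omega)]
    have he : e = 1 := by
      have h4 : B.natAbs % 4 = 2 := by omega
      rcases e with _ | _ | e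
      · exfalso
        rw [pow_zero, one_mul] at hBe
        rw [Nat.odd_iff] at hb
        omega
      · rfl
      · exfalso
        have : 4 ∣ B.natAbs := ⟨2 ^ e * b, by rw [hBe, pow_succ, pow_succ]; ring⟩
        omega
    rw [he]
    apply sign_congr
    omega

end SG

open SG in
theorem sgn_one (p : ℕ) [Fact p.Prime] (hp : p % 12 = 1) (A B : ℤ)
    (hAB : (p : ℤ) = A ^ 2 + 3 * B ^ 2) (hA : A % 3 = 1) :
    (3 : ZMod p) ^ ((p - 1) / 4) = (-1) ^ ((A - 1) / 2).natAbs := by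
  have hpar : A % 2 = 1 ∧ B % 2 = 0 := by
    have h4 : ((p : ℤ)) % 4 = 1 := by omega
    rw [hAB] at h4
    rcases Int.emod_two_eq_zero_or_one A with h | h <;>
      rcases Int.emod_two_eq_zero_or_one B with h' | h'
    · obtain ⟨u, hu⟩ : ∃ u, A = 2 * u := ⟨A / 2, by omega⟩
      obtain ⟨v, hv⟩ : ∃ v, B = 2 * v := ⟨B / 2, by omega⟩
      rw [hu, hv] at h4
      ring_nf at h4
      omega
    · obtain ⟨u, hu⟩ : ∃ u, A = 2 * u := ⟨A / 2, by omega⟩
      obtain ⟨v, hv⟩ : ∃ v, B = 2 * v + 1 := ⟨B / 2, by omega⟩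
      rw [hu, hv] at h4
      ring_nf at h4
      omega
    · exact ⟨h, h'⟩
    · obtain ⟨u, hu⟩ : ∃ u, A = 2 * u + 1 := ⟨A / 2, by omega⟩
      obtain ⟨v, hv⟩ : ∃ v, B = 2 * v + 1 := ⟨B / 2, by omega⟩
      rw [hu, hv] at h4
      ring_nf at h4
      omega
  obtain ⟨hA2, hB2⟩ := hpar
  have h1 := jacA_one hp hAB hA hA2
  have h2 := jacB_one hp hAB hA2 hB2
  rw [← jacobiSym.legendreSym.to_jacobiSym] at h1 h2
  have h3 := legendreSym.eq_pow p A
  have h4 := legendreSym.eq_pow p B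
  rw [h1] at h3
  rw [h2] at h4
  set k := (p - 1) / 4 with hk
  have hp2 : p / 2 = 2 * k := by omega
  rw [hp2] at h3 h4
  have h5 : (A : ZMod p) ^ 2 = -3 * (B : ZMod p) ^ 2 := by
    have : ((p : ℤ) : ZMod p) = ((A ^ 2 + 3 * B ^ 2 : ℤ) : ZMod p) := by rw [hAB]
    push_cast at this
    rw [ZMod.natCast_self] at this
    linear_combination -this
  rw [pow_mul, h5, mul_pow, ← pow_mul, ← h4] at h3
  push_cast at h3
  have h6 : ((-3 : ZMod p)) ^ k = (-1) ^ k * 3 ^ k := by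
    rw [← mul_pow]; norm_num
  rw [h6] at h3
  have h7 : ((-1 : ZMod p)) ^ k * (-1) ^ k = 1 := by
    rw [← mul_pow]; norm_num
  linear_combination -h3 - 3 ^ k * h7

namespace SG

/-- for an odd integer `a` dividing `A`, `J(a | p) = J(a | 3)` -/
lemma jac_a_seven {p : ℕ} [Fact p.Prime] (hp : p % 12 = 7) {A B : ℤ}
    (hAB : (p : ℤ) = A ^ 2 + 3 * B ^ 2) {a : ℕ} (ha : a % 2 = 1) (haA : (a : ℤ) ∣ A) :
    jacobiSym (a : ℤ) p = jacobiSym (a : ℤ) 3 := by
  have hc := coprime_AB (Fact.out : p.Prime) hAB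
  have h1 := jacobiSym.quadratic_reciprocity (a := a) (b := p) (Nat.odd_iff.mpr ha)
    (Nat.odd_iff.mpr (by omega))
  rw [h1, jac_p_dvdA hAB hc haA, jac_three_nat ha, ← mul_assoc, ← pow_add]
  have : (a / 2 * (p / 2) + a / 2) % 2 = 0 := by
    obtain ⟨w, hw⟩ : ∃ w, p / 2 = 2 * w + 1 := ⟨p / 4, by omega⟩
    rw [hw]
    have : a / 2 * (2 * w + 1) + a / 2 = 2 * (a / 2 * w + a / 2) := by ring
    omega
  rw [sign_congr (n := 0) (by omega), pow_zero, one_mul]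

lemma jacA_seven {p : ℕ} [Fact p.Prime] (hp : p % 12 = 7) {A B : ℤ}
    (hAB : (p : ℤ) = A ^ 2 + 3 * B ^ 2) (hA : A % 3 = 1) (hA2 : A % 2 = 0) (hB2 : B % 2 = 1) :
    jacobiSym (-A) p = (-1) ^ ((p + 1) / 4) := by
  have hp4 : p % 4 = 3 := by omega
  have hpodd : Odd p := Nat.odd_iff.mpr (by omega)
  have hA0 : A.natAbs ≠ 0 := by omega
  obtain ⟨e, a, ha, hAe⟩ := Nat.exists_eq_two_pow_mul_odd hA0
  have haA : (a : ℤ) ∣ A := by
    rw [← Int.dvd_natAbs, hAe]; exact ⟨(2 ^ e : ℕ), by push_cast; ring⟩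
  have key : jacobiSym (A.natAbs : ℤ) p =
      (jacobiSym 2 p * jacobiSym 2 3) ^ e * jacobiSym (A.natAbs : ℤ) 3 := by
    rw [hAe]
    push_cast
    rw [jacobiSym.mul_left, jacobiSym.pow_left, jacobiSym.mul_left, jacobiSym.pow_left,
      jac_a_seven hp hAB (Nat.odd_iff.mp ha) haA, jac_three_two]
    have : ((-1 : ℤ)) ^ e * (-1) ^ e = 1 := by rw [← mul_pow]; norm_num
    rw [mul_pow]
    linear_combination (-(jacobiSym 2 p) ^ e * jacobiSym (a : ℤ) 3) * this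
  have key2 : jacobiSym (-A) p = -((jacobiSym 2 p * jacobiSym 2 3) ^ e) := by
    rcases coe_natAbs_cases A with ⟨h, h0⟩ | ⟨h, h0⟩
    · rw [h] at key
      rw [jac_neg_three hp4, key, jac_three_mod hA]
      ring
    · rw [h] at key
      rw [key, jac_three_mod2 (A := -A) (by omega)]
      ring
  rw [key2, jac_three_two, jacobiSym.at_two hpodd, ZMod.χ₈_nat_eq_if_mod_eight]
  obtain ⟨u, hu⟩ : ∃ u, A = 2 * u := ⟨A / 2, by omega⟩
  obtain ⟨v, hv⟩ : ∃ v, B = 2 * v + 1 := ⟨B / 2, by omega⟩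
  have hpe : (p : ℤ) = 4 * u ^ 2 + 24 * (v * (v + 1) / 2) + 3 := by
    obtain ⟨w, hw⟩ := Int.even_mul_succ_self v
    rw [hAB, hu, hv, hw]
    have : (w + w) / 2 = w := by omega
    rw [this]
    linear_combination 12 * hw
  rcases Int.emod_two_eq_zero_or_one u with h2 | h2
  · obtain ⟨w, hw⟩ : ∃ w, u = 2 * w := ⟨u / 2, by omega⟩
    have h8 : p % 8 = 3 := by
      have : u ^ 2 = 4 * w ^ 2 := by rw [hw]; ring
      omega
    rw [if_neg (by omega), if_neg (by omega)]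
    have h1 : (-(((-1 : ℤ) * -1) ^ e)) = (-1) ^ 1 := by norm_num
    rw [h1]
    apply sign_congr
    omega
  · obtain ⟨w, hw⟩ : ∃ w, u = 2 * w + 1 := ⟨u / 2, by omega⟩
    have h8 : p % 8 = 7 := by
      have : u ^ 2 = 4 * (w ^ 2 + w) + 1 := by rw [hw]; ring
      omega
    rw [if_neg (by omega), if_pos (by omega)]
    have he : e = 1 := by
      have h4 : A.natAbs % 4 = 2 := by omega
      rcases e with _ | _ | e
      · exfalso
        rw [pow_zero, one_mul] at hAe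
        rw [Nat.odd_iff] at ha
        omega
      · rfl
      · exfalso
        have : 4 ∣ A.natAbs := ⟨2 ^ e * a, by rw [hAe, pow_succ, pow_succ]; ring⟩
        omega
    rw [he]
    have h1 : (-(((1 : ℤ) * -1) ^ 1)) = (-1) ^ 0 := by norm_num
    rw [h1]
    apply sign_congr
    omega

lemma jacB_seven {p : ℕ} [Fact p.Prime] (hp : p % 12 = 7) {A B : ℤ}
    (hAB : (p : ℤ) = A ^ 2 + 3 * B ^ 2) (hB2 : B % 2 = 1) (h : jacobiSym B p = 1) :
    B % 4 = 1 := by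
  have hp4 : p % 4 = 3 := by omega
  have hpodd : Odd p := Nat.odd_iff.mpr (by omega)
  have hc := coprime_AB (Fact.out : p.Prime) hAB
  have hb : B.natAbs % 2 = 1 := by omega
  have h1 := jacobiSym.quadratic_reciprocity (a := B.natAbs) (b := p) (Nat.odd_iff.mpr hb) hpodd
  rw [jac_p_dvdB hAB hc (Int.natAbs_dvd.mpr dvd_rfl), mul_one] at h1
  have h2 : jacobiSym (B.natAbs : ℤ) p = (-1) ^ (B.natAbs / 2) := by
    rw [h1]
    apply sign_congr
    obtain ⟨w, hw⟩ : ∃ w, p / 2 = 2 * w + 1 := ⟨p / 4, by omega⟩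
    rw [hw]
    have : B.natAbs / 2 * (2 * w + 1) = 2 * (B.natAbs / 2 * w) + B.natAbs / 2 := by ring
    omega
  rcases coe_natAbs_cases B with ⟨h', h0⟩ | ⟨h', h0⟩
  · rw [h', h] at h2
    by_contra hne
    have h3 : (B.natAbs / 2) % 2 = 1 := by omega
    rw [sign_congr (n := 1) (by omega)] at h2
    norm_num at h2
  · rw [h', jac_neg_three hp4, h] at h2
    by_contra hne
    have h3 : (B.natAbs / 2) % 2 = 0 := by omega
    rw [sign_congr (n := 0) (by omega)] at h2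
    norm_num at h2

end SG

open SG in
theorem sgn_seven (p : ℕ) [Fact p.Prime] (hp : p % 12 = 7) (A B : ℤ)
    (hAB : (p : ℤ) = A ^ 2 + 3 * B ^ 2) (hA : A % 3 = 1)
    (h : (3 : ZMod p) ^ ((p + 1) / 4) * (B : ZMod p) = -(A : ZMod p)) : B % 4 = 1 := by
  have hpar : A % 2 = 0 ∧ B % 2 = 1 := by
    have h4 : ((p : ℤ)) % 4 = 3 := by omega
    rw [hAB] at h4
    rcases Int.emod_two_eq_zero_or_one A with h | h <;>
      rcases Int.emod_two_eq_zero_or_one B with h' | h'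
    · obtain ⟨u, hu⟩ : ∃ u, A = 2 * u := ⟨A / 2, by omega⟩
      obtain ⟨v, hv⟩ : ∃ v, B = 2 * v := ⟨B / 2, by omega⟩
      rw [hu, hv] at h4
      ring_nf at h4
      omega
    · exact ⟨h, h'⟩
    · obtain ⟨u, hu⟩ : ∃ u, A = 2 * u + 1 := ⟨A / 2, by omega⟩
      obtain ⟨v, hv⟩ : ∃ v, B = 2 * v := ⟨B / 2, by omega⟩
      rw [hu, hv] at h4
      ring_nf at h4
      omega
    · obtain ⟨u, hu⟩ : ∃ u, A = 2 * u + 1 := ⟨A / 2, by omega⟩
      obtain ⟨v, hv⟩ : ∃ v, B = 2 * v + 1 := ⟨B / 2, by omega⟩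
      rw [hu, hv] at h4
      ring_nf at h4
      omega
  obtain ⟨hA2, hB2⟩ := hpar
  have hp4 : p % 4 = 3 := by omega
  apply jacB_seven hp hAB hB2
  have h1 : jacobiSym ((3 : ℤ) ^ ((p + 1) / 4) * B) p = jacobiSym (-A) p := by
    rw [← jacobiSym.legendreSym.to_jacobiSym, ← jacobiSym.legendreSym.to_jacobiSym]
    unfold legendreSym
    congr 1
    push_cast
    exact h
  rw [jacobiSym.mul_left, jacobiSym.pow_left, jacA_seven hp hAB hA hA2 hB2] at h1
  have h3 : jacobiSym 3 p = -1 := by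
    rw [jac_three_nat (by omega), jac_three_mod (A := (p : ℤ)) (by omega), mul_one,
      sign_congr (n := 1) (by omega), pow_one]
  rw [h3] at h1
  have h5 : ((-1 : ℤ)) ^ ((p + 1) / 4) ≠ 0 := by
    exact pow_ne_zero _ (by norm_num)
  apply mul_left_cancel₀ h5
  rw [h1, mul_one]

end Pool.Agent.SC
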