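import Pool.Agent.Work.MP_5b0587_nt.Eval7
import Pool.Agent.Work.MP_5b0587_nt.Jacobi1
import Pool.Agent.Work.MP_5b0587_nt.Jacobi2
import Pool.Agent.Work.MP_5b0587_nt.Signs

/-!
The binomial coefficient `binom(3r,r)` modulo `p ^ 2` in terms of `p = A ^ 2 + 3 B ^ 2`.
-/

namespace Pool.Agent.SC

open Finset

variable {p : ℕ}

/-- every `p`-integral rational is congruent to an integer -/
theorem exists_int_cg [Fact p.Prime] {x : ℚ} (hx : x ∈ O p) : ∃ M : ℤ, cg p 2 (M : ℚ) x := by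
  have hcop : IsCoprime (x.den : ℤ) ((p : ℤ) ^ 2) := by
    apply IsCoprime.pow_right
    rw [Nat.isCoprime_iff_coprime]; exact hx
  obtain ⟨a, b, hab⟩ := hcop
  refine ⟨x.num * a, -(b * x), (O p).neg_mem ((O p).mul_mem (intCast_mem b) hx), ?_⟩
  have h1 : (a : ℚ) * x.den + b * (p : ℚ) ^ 2 = 1 := by exact_mod_cast hab
  have h2 := Rat.mul_den_eq_num x
  push_cast
  rw [← h2]
  linear_combination x * h1

theorem zmod_cg {a b : ℤ} (h : (a : ZMod p) = (b : ZMod p)) : cg p 1 (a : ℚ) (b : ℚ) := by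
  apply cg_of_dvd
  rw [pow_one]
  exact (ZMod.intCast_eq_intCast_iff_dvd_sub b a p).mp h.symm

theorem cg_zmod {a b : ℤ} (h : cg p 1 (a : ℚ) (b : ℚ)) : (a : ZMod p) = (b : ZMod p) := by
  have := dvd_of_cg h
  rw [pow_one] at this
  exact ((ZMod.intCast_eq_intCast_iff_dvd_sub b a p).mpr this).symm

theorem isU_int [Fact p.Prime] {a : ℤ} (h : ¬ (p : ℤ) ∣ a) : IsU p (a : ℚ) := by
  have hp : p.Prime := Fact.out
  have hc : IsCoprime a (p : ℤ) := by
    rw [isCoprime_comm]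
    exact (Prime.coprime_iff_not_dvd (Nat.prime_iff_prime_int.mp hp)).mpr h
  refine ⟨intCast_mem a, inv_intCast_mem hc, ?_⟩
  intro h0
  apply h
  have : a = 0 := by exact_mod_cast h0
  rw [this]; exact dvd_zero _

theorem ndvd_A [Fact p.Prime] (A B : ℤ) (hAB : (p : ℤ) = A ^ 2 + 3 * B ^ 2) (hA : A ≠ 0) :
    ¬ (p : ℤ) ∣ A := by
  intro h
  have hp : p.Prime := Fact.out
  have h1 : (p : ℤ) ≤ |A| := Int.le_of_dvd (abs_pos.mpr hA) ((dvd_abs _ _).mpr h)
  have h2 : (1 : ℤ) < p := by exact_mod_cast hp.one_lt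
  have h3 : |A| ^ 2 = A ^ 2 := sq_abs A
  nlinarith [sq_nonneg B]

theorem ndvd_B [Fact p.Prime] (A B : ℤ) (hAB : (p : ℤ) = A ^ 2 + 3 * B ^ 2) (hB : B ≠ 0) :
    ¬ (p : ℤ) ∣ B := by
  intro h
  have hp : p.Prime := Fact.out
  have h1 : (p : ℤ) ≤ |B| := Int.le_of_dvd (abs_pos.mpr hB) ((dvd_abs _ _).mpr h)
  have h2 : (1 : ℤ) < p := by exact_mod_cast hp.one_lt
  have h3 : |B| ^ 2 = B ^ 2 := sq_abs B
  nlinarith [sq_nonneg A]

theorem B_ne_zero [Fact p.Prime] (A B : ℤ) (hAB : (p : ℤ) = A ^ 2 + 3 * B ^ 2) : B ≠ 0 := by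
  rintro rfl
  have hp : p.Prime := Fact.out
  have h1 : (p : ℤ) = A * A := by rw [hAB]; ring
  have h2 : p = A.natAbs * A.natAbs := by
    have := congrArg Int.natAbs h1
    rwa [Int.natAbs_natCast, Int.natAbs_mul] at this
  have h3 := hp.one_lt
  have h4 : 1 < A.natAbs := by
    by_contra hcon
    push Not at hcon
    have : A.natAbs * A.natAbs ≤ 1 * 1 := Nat.mul_le_mul hcon hcon
    omega
  exact (Nat.prime_iff_not_exists_mul_eq.mp hp).2
    ⟨A.natAbs, A.natAbs, by nlinarith, by nlinarith, h2.symm⟩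

/-- The Chowla-Dwork-Evans type congruence. -/
theorem binom_cg [Fact p.Prime] (r : ℕ) (hp : p = 6 * r + 1) (A B : ℤ)
    (hAB : (p : ℤ) = A ^ 2 + 3 * B ^ 2) (hA : A % 3 = 1) :
    Lg p (((3 * r).factorial : ℚ) / (r.factorial * (2 * r).factorial) / (2 * A))
      (-(1 / (4 * (A : ℚ) ^ 2)) - (2 / 3) * fq p 2 + (3 / 4) * fq p 3) := by
  have hpr : p.Prime := Fact.out
  have hr : 0 < r := by have := hpr.one_lt; omega
  have hc := coprime12 hp
  have hA0 : A ≠ 0 := by rintro rfl; norm_num at hA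
  have hAu : IsU p (A : ℚ) := isU_int (ndvd_A A B hAB hA0)
  have h2u : IsU p (2 : ℚ) := isU_two (by omega)
  have h2A : IsU p (2 * (A : ℚ)) := h2u.mul hAu
  obtain ⟨w1, g1, e1⟩ := harmonic_sixth p r hp
  obtain ⟨w2, g2, e2⟩ := harmonic_third p r hp
  obtain ⟨w3, g3, e3⟩ := harmonic_half p r hp
  have m1 : fq p 2 ∈ O p := fq_mem p 2 (coprime_lit hp (by norm_num))
  have m2 : fq p 3 ∈ O p := fq_mem p 3 (coprime_lit hp (by norm_num))
  -- the exponent
  set s : ℚ := 3 * r * harmonic (3 * r) - r * harmonic r - 2 * r * harmonic (2 * r) with hs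
  have k1 : harmonic r ∈ O p := harmonic_mem p r (by omega)
  have k2 : harmonic (2 * r) ∈ O p := harmonic_mem p (2 * r) (by omega)
  have k3 : harmonic (3 * r) ∈ O p := harmonic_mem p (3 * r) (by omega)
  have hrm : (r : ℚ) ∈ O p := natCast_mem r
  have hsO : s ∈ O p := by
    repeat' first
      | assumption
      | exact ofNat_mem' _
      | with_reducible apply (O p).add_mem
      | with_reducible apply (O p).sub_mem
      | with_reducible apply (O p).mul_mem
  have hscg : cg p 1 s (2 / 3 * fq p 2 - 3 / 4 * fq p 3) := by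
    refine ⟨(1 / 12) * (6 * harmonic (3 * r) - 2 * harmonic r - 4 * harmonic (2 * r) -
      6 * w3 + 2 * w1 + 4 * w2), ?_, ?_⟩
    · refine (O p).mul_mem (mem12 hc 1 (by norm_num)) ?_
      repeat' first
        | assumption
        | exact ofNat_mem' _
        | with_reducible apply (O p).add_mem
        | with_reducible apply (O p).sub_mem
        | with_reducible apply (O p).mul_mem
    · have hpq : (p : ℚ) = 6 * r + 1 := by exact_mod_cast hp
      rw [hs]
      have e1' : harmonic r = -2 * fq p 2 - (3 / 2) * fq p 3 + p * w1 := by linear_combination e1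
      have e2' : harmonic (2 * r) = -(3 / 2) * fq p 3 + p * w2 := by linear_combination e2
      have e3' : harmonic (3 * r) = -2 * fq p 2 + p * w3 := by linear_combination e3
      linear_combination (-(1 / 2) : ℚ) * e3' + (1 / 6 : ℚ) * e1' + (1 / 3 : ℚ) * e2' +
        (-(1 / 2) * harmonic (3 * r) + 1 / 6 * harmonic r + 1 / 3 * harmonic (2 * r)) * hpq
  set C : ℚ := ((3 * r).choose r : ℚ) with hC
  have hCeq : C = ((3 * r).factorial : ℚ) / (r.factorial * (2 * r).factorial) := by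
    rw [hC, Nat.cast_choose ℚ (by omega : r ≤ 3 * r), show 3 * r - r = 2 * r by omega]
  have hCO : C ∈ O p := natCast_mem _
  obtain ⟨M, hM⟩ := exists_int_cg (p := p) (x := C * (1 + p * s))
    ((O p).mul_mem hCO ((O p).add_mem (O p).one_mem ((O p).mul_mem (natCast_mem p) hsO)))
  have hJ := jac_eval p r hp M hM
  have hJ2 := jac_alg p r hp A B hAB hA
  rw [hJ] at hJ2
  have hdiv : ((p : ℤ) ^ 2) ∣ M ^ 2 - 2 * A * M + p := by
    have : ((M ^ 2 - 2 * A * M + p : ℤ) : ZMod (p ^ 2)) = 0 := by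
      push_cast
      linear_combination hJ2
    have := (ZMod.intCast_zmod_eq_zero_iff_dvd _ _).mp this
    exact_mod_cast this
  obtain ⟨c, hc2⟩ := hdiv
  have hcq : (M : ℚ) ^ 2 - 2 * A * M + p = p ^ 2 * c := by exact_mod_cast hc2
  -- M is a unit at p
  have hCnd : ¬ (p : ℤ) ∣ ((3 * r).choose r : ℕ) := by
    intro h
    have h1 : p ∣ (3 * r).choose r := by exact_mod_cast h
    have h2 : (3 * r).choose r ∣ (3 * r).factorial :=
      ⟨_, (by rw [← mul_assoc]; exact (Nat.choose_mul_factorial_mul_factorial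
        (by omega : r ≤ 3 * r)).symm)⟩
    have h3 := (Nat.Prime.dvd_factorial hpr).mp (h1.trans h2)
    omega
  have hMC : cg p 1 (M : ℚ) (((3 * r).choose r : ℕ) : ℤ) := by
    refine (hM.mono (by norm_num)).trans ?_
    refine ⟨C * s, (O p).mul_mem hCO hsO, ?_⟩
    rw [hC]
    push_cast
    ring
  have hMnd : ¬ (p : ℤ) ∣ M := by
    intro h
    have h1 := dvd_of_cg hMC
    rw [pow_one] at h1
    exact hCnd ((dvd_sub_right h).mp h1)
  have hMu : IsU p (M : ℚ) := isU_int hMnd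
  -- M = 2A - p/M + p^2 c / M
  have hM1 : cg p 1 (M : ℚ) (2 * A) := by
    refine ⟨(M : ℚ)⁻¹ * (p * c - 1), (O p).mul_mem hMu.2.1 ((O p).sub_mem ((O p).mul_mem
      (natCast_mem p) (intCast_mem c)) (O p).one_mem), ?_⟩
    have := hMu.2.2
    field_simp
    linear_combination hcq
  obtain ⟨d, hd, ed⟩ := hM1
  have hML : Lg p ((M : ℚ) / (2 * A)) (-(1 / (4 * (A : ℚ) ^ 2))) := by
    have hne := h2A.2.2
    have hMne := hMu.2.2
    have hAne := hAu.2.2
    refine ⟨?_, ?_⟩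
    · have := ((h2A.pow 2).inv).1
      rw [show -(1 / (4 * (A : ℚ) ^ 2)) = -(((2 * (A : ℚ)) ^ 2)⁻¹) by ring]
      exact (O p).neg_mem this
    · refine ⟨(2 * (A : ℚ))⁻¹ * (M : ℚ)⁻¹ * (c + (2 * (A : ℚ))⁻¹ * d), ?_, ?_⟩
      · exact (O p).mul_mem ((O p).mul_mem h2A.2.1 hMu.2.1)
          ((O p).add_mem (intCast_mem c) ((O p).mul_mem h2A.2.1 hd))
      · field_simp
        linear_combination (8 * (A : ℚ)) * hcq + (4 * (p : ℚ)) * ed
  have hCM : Lg p (C / M) (-(2 / 3 * fq p 2 - 3 / 4 * fq p 3)) := by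
    have hL := (Lg.mk hsO).congr hscg
    have hCs : Lg p ((C * (1 + p * s)) / M) 0 := by
      refine ⟨(O p).zero_mem, ?_⟩
      have := (hM.symm).mul_const hMu.2.1
      rw [mul_inv_cancel₀ hMu.2.2] at this
      simpa [div_eq_mul_inv] using this
    have h1 := hCs.div hL
    refine h1.eq ?_ (by ring)
    have := (Lg.mk hsO).ne_zero
    field_simp
  have hfin := hCM.mul hML
  refine hfin.eq ?_ (by ring)
  rw [← hCeq]
  have hMne := hMu.2.2
  have hAne := hAu.2.2
  field_simp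

end Pool.Agent.SC
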