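import Pool.Agent.Work.MP_5b0587_nt.Harmonic

/-!
First order expansions of rising factorials and factorials.
-/

namespace Pool.Agent.SC

open Finset

variable {p : ℕ}

theorem harmonic_succ' (n : ℕ) : harmonic (n + 1) = harmonic n + ((n : ℚ) + 1)⁻¹ := by
  rw [harmonic_succ]; push_cast; ring

/-- below zero -/
theorem poch_neg [Fact p.Prime] (x : ℚ) (hx : x ∈ O p) (n k : ℕ) (hkn : k ≤ n) (hn : n < p) :
    ∃ E : ℚ, poch (x * p - n) k = (-1) ^ k * (n.factorial / (n - k).factorial) * E ∧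
      Lg p E (-x * (harmonic n - harmonic (n - k))) := by
  induction k with
  | zero =>
    have : (n.factorial : ℚ) ≠ 0 := by positivity
    refine ⟨1, by rw [poch_zero, Nat.sub_zero, div_self this]; ring, by simpa using Lg.one⟩
  | succ k ih =>
    obtain ⟨E, hE, hL⟩ := ih (by omega)
    have hu : IsU p ((n - k : ℕ) : ℚ) := isU_of_lt (by omega) (by omega)
    have hne := hu.2.2
    refine ⟨E * (1 + p * (-x * ((n - k : ℕ) : ℚ)⁻¹)), ?_, ?_⟩
    · rw [poch_succ, hE]
      obtain ⟨d, hd⟩ : ∃ d, n - k = d + 1 := ⟨n - k - 1, by omega⟩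
      have hd2 : n - (k + 1) = d := by omega
      rw [hd2, hd]
      have hnk : (n : ℚ) = k + (d + 1) := by
        have : n = k + (d + 1) := by omega
        exact_mod_cast this
      rw [Nat.factorial_succ, pow_succ]
      have h1 : (d.factorial : ℚ) ≠ 0 := by positivity
      have h2 : ((d : ℚ) + 1) ≠ 0 := by positivity
      rw [hnk]
      push_cast
      field_simp
      ring
    · have h2 : -x * ((n - k : ℕ) : ℚ)⁻¹ ∈ O p := (O p).mul_mem ((O p).neg_mem hx) hu.2.1
      refine (hL.mul (Lg.mk h2)).eq rfl ?_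
      obtain ⟨d, hd⟩ : ∃ d, n - k = d + 1 := ⟨n - k - 1, by omega⟩
      have hd2 : n - (k + 1) = d := by omega
      rw [hd2, hd, harmonic_succ']
      push_cast
      ring

/-- above zero -/
theorem poch_pos [Fact p.Prime] (x : ℚ) (hx : x ∈ O p) (k : ℕ) (hk : k < p) :
    ∃ E : ℚ, poch (x * p + 1) k = k.factorial * E ∧ Lg p E (x * harmonic k) := by
  induction k with
  | zero => exact ⟨1, by simp, by simpa using Lg.one⟩
  | succ k ih =>
    obtain ⟨E, hE, hL⟩ := ih (by omega)
    have hu : IsU p ((k + 1 : ℕ) : ℚ) := isU_of_lt (by omega) (by omega)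
    have hne := hu.2.2
    refine ⟨E * (1 + p * (x * ((k + 1 : ℕ) : ℚ)⁻¹)), ?_, ?_⟩
    · rw [poch_succ, hE, Nat.factorial_succ]
      push_cast at hne ⊢
      field_simp
      ring
    · have h2 : x * ((k + 1 : ℕ) : ℚ)⁻¹ ∈ O p := (O p).mul_mem hx hu.2.1
      refine (hL.mul (Lg.mk h2)).eq rfl ?_
      rw [harmonic_succ']
      push_cast
      ring

/-- crossing zero once -/
theorem poch_cross [Fact p.Prime] (x : ℚ) (hx : x ∈ O p) (n k : ℕ) (hn : n < p) (hk : k < p) :
    ∃ E : ℚ, poch (x * p - n) (n + 1 + k) = (-1) ^ n * n.factorial * (x * p) * k.factorial * E ∧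
      Lg p E (x * (harmonic k - harmonic n)) := by
  obtain ⟨E1, h1, l1⟩ := poch_neg x hx n n le_rfl hn
  obtain ⟨E2, h2, l2⟩ := poch_pos x hx k hk
  refine ⟨E1 * E2, ?_, (l1.mul l2).eq rfl ?_⟩
  · rw [poch_add, poch_succ, h1]
    have : x * p - (n : ℚ) + ((n + 1 : ℕ) : ℚ) = x * p + 1 := by push_cast; ring
    rw [this, h2]
    simp
    ring
  · simp
    ring

theorem factorial_poch (n k : ℕ) : ((n + k).factorial : ℚ) = n.factorial * poch (n + 1) k := by
  induction k with
  | zero => simp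
  | succ k ih =>
    rw [← add_assoc, Nat.factorial_succ, poch_succ]
    push_cast
    rw [ih]
    ring

theorem factorial_reflect [Fact p.Prime] (k : ℕ) (hk : k < p) :
    ∃ E : ℚ, ((p - 1).factorial : ℚ) = (p - 1 - k).factorial * ((-1) ^ k * k.factorial) * E ∧
      Lg p E (-harmonic k) := by
  obtain ⟨E, h, l⟩ := poch_neg (p := p) 1 (O p).one_mem k k le_rfl hk
  refine ⟨E, ?_, l.eq rfl (by simp)⟩
  have h1 := factorial_poch (p - 1 - k) k
  have h2 : p - 1 - k + k = p - 1 := by omega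
  rw [h2] at h1
  have h3 : ((p - 1 - k : ℕ) : ℚ) + 1 = 1 * p - k := by
    have : p - 1 - k + 1 + k = p := by omega
    have : ((p - 1 - k : ℕ) : ℚ) + 1 + k = p := by exact_mod_cast this
    linarith
  rw [h1, h3, h]
  simp
  ring

theorem two_factorial (n : ℕ) :
    ((2 * n).factorial : ℚ) = 4 ^ n * n.factorial * poch (1 / 2) n := by
  induction n with
  | zero => simp
  | succ n ih =>
    rw [show 2 * (n + 1) = 2 * n + 1 + 1 by ring, Nat.factorial_succ, Nat.factorial_succ,
      Nat.factorial_succ, poch_succ]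
    push_cast
    rw [ih]
    ring

theorem three_factorial (n : ℕ) :
    ((3 * n).factorial : ℚ) = 27 ^ n * n.factorial * poch (1 / 3) n * poch (2 / 3) n := by
  induction n with
  | zero => simp
  | succ n ih =>
    rw [show 3 * (n + 1) = 3 * n + 1 + 1 + 1 by ring, Nat.factorial_succ, Nat.factorial_succ,
      Nat.factorial_succ, Nat.factorial_succ, poch_succ, poch_succ]
    push_cast
    rw [ih]
    ring

/-- `2 H_{2n} = H_n - H_{3r} + H_{3r-n}` modulo `p = 6r+1`. -/
theorem odd_harmonic [Fact p.Prime] (r : ℕ) (hp : p = 6 * r + 1) (n : ℕ) (hn : n ≤ 3 * r) :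
    cg p 1 (2 * ∑ k ∈ range n, (2 * (k : ℚ) + 1)⁻¹)
      (-(harmonic (3 * r) - harmonic (3 * r - n))) := by
  induction n with
  | zero => exact cg.of_eq (by simp)
  | succ n ih =>
    rw [sum_range_succ]
    obtain ⟨d, hd⟩ : ∃ d, 3 * r - n = d + 1 := ⟨3 * r - n - 1, by omega⟩
    have hd2 : 3 * r - (n + 1) = d := by omega
    have ih' := ih (by omega)
    rw [hd, harmonic_succ'] at ih'
    rw [hd2]
    have hu1 : IsU p ((2 * n + 1 : ℕ) : ℚ) := isU_of_lt (by omega) (by omega)
    have hu2 : IsU p ((d + 1 : ℕ) : ℚ) := isU_of_lt (by omega) (by omega)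
    have hstep : cg p 1 (2 * (2 * (n : ℚ) + 1)⁻¹) (-((d : ℚ) + 1)⁻¹) := by
      refine ⟨((2 * n + 1 : ℕ) : ℚ)⁻¹ * ((d + 1 : ℕ) : ℚ)⁻¹,
        (O p).mul_mem hu1.2.1 hu2.2.1, ?_⟩
      have hne1 := hu1.2.2
      have hne2 := hu2.2.2
      have hpq : (p : ℚ) = 2 * n + 1 + 2 * (d + 1) := by
        have : p = 2 * n + 1 + 2 * (d + 1) := by omega
        exact_mod_cast this
      push_cast at hne1 hne2 ⊢
      rw [hpq]
      field_simp
      ring
    have := ih'.add hstep
    refine (cg.of_eq (by ring)).trans (this.trans (cg.of_eq (by ring)))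

theorem harmonic_two_mul (n : ℕ) :
    harmonic (2 * n) = harmonic n / 2 + ∑ k ∈ range n, (2 * (k : ℚ) + 1)⁻¹ := by
  induction n with
  | zero => simp
  | succ n ih =>
    rw [show 2 * (n + 1) = 2 * n + 1 + 1 by ring, harmonic_succ', harmonic_succ', ih,
      sum_range_succ, harmonic_succ']
    push_cast
    have h1 : (2 * (n : ℚ) + 1) ≠ 0 := by positivity
    have h2 : ((n : ℚ) + 1) ≠ 0 := by positivity
    have h3 : (2 * (n : ℚ) + 1 + 1) ≠ 0 := by positivity
    field_simp
    ring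

end Pool.Agent.SC
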