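import Pool.Agent.Work.MP_5b0587_nt.Base

/-!
A general telescoping lemma for terminating hypergeometric sums.
-/

namespace Pool.Agent.SC

open Finset

theorem poch_shift' (A : ℚ) (i k : ℕ) :
    poch A i * poch (A + i) k = poch A k * poch (A + k) i := by
  rw [← poch_add, ← poch_add, add_comm]

theorem term_succ (A B C z : ℚ) (k : ℕ) (h : C + k ≠ 0) :
    term A B C z (k + 1) * ((C + k) * (k + 1)) = term A B C z k * ((A + k) * (B + k) * z) := by
  have h1 : ((k : ℚ) + 1) ≠ 0 := by positivity
  have h2 : ((k.factorial : ℕ) : ℚ) ≠ 0 := by positivity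
  rw [term, term, poch_succ, poch_succ, poch_succ, Nat.factorial_succ, pow_succ]
  push_cast
  by_cases h3 : poch C k = 0
  · rw [h3]; simp
  · field_simp

theorem tele (A B C z : ℚ) (P : ℚ → ℚ) (K : ℕ) (hC : ∀ k < K, C + k ≠ 0) :
    ∑ k ∈ range K, term A B C z k *
      ((A + k) * (B + k) * z * P (k + 1) - k * (C + k - 1) * P k) =
    term A B C z K * (K * (C + K - 1) * P K) := by
  induction K with
  | zero => simp
  | succ K ih =>
    rw [sum_range_succ, ih (fun k hk => hC k (by omega))]
    have h := term_succ A B C z K (hC K (by omega))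
    push_cast
    linear_combination (-P (K + 1)) * h

theorem term_num (A B C z : ℚ) (i j l k : ℕ) (hi : poch A i ≠ 0) (hj : poch B j ≠ 0)
    (hl : poch (C - l) l ≠ 0) (hk : poch C k ≠ 0) :
    term (A + i) (B + j) (C - l) z k = term A B C z k *
      (poch (A + k) i / poch A i * (poch (B + k) j / poch B j) *
        (poch (C - l + k) l / poch (C - l) l)) := by
  have h1 := poch_shift' A i k
  have h2 := poch_shift' B j k
  have h3 := poch_shift' (C - l) l k
  rw [sub_add_cancel] at h3
  have h4 : poch (C - l) k ≠ 0 := by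
    intro h0
    rw [h0, zero_mul] at h3
    exact (mul_ne_zero hl hk) h3
  have e1 : poch (A + i) k = poch A k * poch (A + k) i / poch A i := by
    rw [eq_div_iff hi]; linear_combination h1
  have e2 : poch (B + j) k = poch B k * poch (B + k) j / poch B j := by
    rw [eq_div_iff hj]; linear_combination h2
  have h5 : poch (C - l + k) l ≠ 0 := by
    intro h0
    rw [h0, mul_zero] at h3
    exact (mul_ne_zero hl hk) h3
  have e3 : poch (C - l) k = poch (C - l) l * poch C k / poch (C - l + k) l := by
    rw [eq_div_iff h5]; linear_combination -h3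
  rw [term, term, e1, e2, e3]
  have h6 : ((k.factorial : ℕ) : ℚ) ≠ 0 := by positivity
  field_simp

/-- The general certificate lemma. -/
theorem wz (A B C z rho : ℚ) (P : ℚ → ℚ) (i j l i' j' l' K : ℕ)
    (hC : ∀ k < K, C + k ≠ 0) (hA : poch A K = 0)
    (hi : poch A i ≠ 0) (hj : poch B j ≠ 0) (hl : poch (C - l) l ≠ 0)
    (hi' : poch A i' ≠ 0) (hj' : poch B j' ≠ 0) (hl' : poch (C - l') l' ≠ 0)
    (hid : ∀ k : ℚ,
      poch (A + k) i' / poch A i' * (poch (B + k) j' / poch B j') *
        (poch (C - l' + k) l' / poch (C - l') l') -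
      rho * (poch (A + k) i / poch A i * (poch (B + k) j / poch B j) *
        (poch (C - l + k) l / poch (C - l) l)) =
      (A + k) * (B + k) * z * P (k + 1) - k * (C + k - 1) * P k) :
    hyp (A + i') (B + j') (C - l') z K = rho * hyp (A + i) (B + j) (C - l) z K := by
  have h0 : hyp (A + i') (B + j') (C - l') z K - rho * hyp (A + i) (B + j) (C - l) z K = 0 := by
    rw [hyp, hyp, mul_sum, ← sum_sub_distrib]
    have h1 := tele A B C z P K hC
    have h2 : term A B C z K = 0 := by rw [term, hA]; simp
    rw [h2, zero_mul] at h1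
    rw [← h1]
    apply sum_congr rfl
    intro k hk
    rw [mem_range] at hk
    have hck : poch C k ≠ 0 := poch_ne_zero fun t ht => hC t (by omega)
    rw [term_num A B C z i' j' l' k hi' hj' hl' hck, term_num A B C z i j l k hi hj hl hck,
      ← hid k]
    ring
  linear_combination h0

/-- The certificate lemma with denominators cleared. -/
theorem wz' (A B C z al be : ℚ) (P : ℚ → ℚ) (i j l i' j' l' K : ℕ)
    (hC : ∀ k < K, C + k ≠ 0) (hA : poch A K = 0)
    (hi : poch A i ≠ 0) (hj : poch B j ≠ 0) (hl : poch (C - l) l ≠ 0)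
    (hi' : poch A i' ≠ 0) (hj' : poch B j' ≠ 0) (hl' : poch (C - l') l' ≠ 0)
    (hid : ∀ k : ℚ,
      al * (poch (A + k) i' * poch (B + k) j' * poch (C - l' + k) l') -
      be * (poch (A + k) i * poch (B + k) j * poch (C - l + k) l) =
      (A + k) * (B + k) * z * P (k + 1) - k * (C + k - 1) * P k) :
    al * (poch A i' * poch B j' * poch (C - l') l') *
      hyp (A + i') (B + j') (C - l') z K =
    be * (poch A i * poch B j * poch (C - l) l) * hyp (A + i) (B + j) (C - l) z K := by
  have h0 : al * (poch A i' * poch B j' * poch (C - l') l') *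
      hyp (A + i') (B + j') (C - l') z K -
      be * (poch A i * poch B j * poch (C - l) l) * hyp (A + i) (B + j) (C - l) z K = 0 := by
    rw [hyp, hyp, mul_sum, mul_sum, ← sum_sub_distrib]
    have h1 := tele A B C z P K hC
    have h2 : term A B C z K = 0 := by rw [term, hA]; simp
    rw [h2, zero_mul] at h1
    rw [← h1]
    apply sum_congr rfl
    intro k hk
    rw [mem_range] at hk
    have hck : poch C k ≠ 0 := poch_ne_zero fun t ht => hC t (by omega)
    rw [term_num A B C z i' j' l' k hi' hj' hl' hck, term_num A B C z i j l k hi hj hl hck,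
      ← hid k]
    field_simp
  linear_combination h0

/-- One step of a first order recurrence in the parameters. -/
theorem wz_step (a b c a' b' c' A B C z al be rho : ℚ) (P : ℚ → ℚ) (i j l i' j' l' K : ℕ)
    (ha : a = A + i) (hb : b = B + j) (hc : c = C - l)
    (ha' : a' = A + i') (hb' : b' = B + j') (hc' : c' = C - l')
    (hC : ∀ k < K, C + k ≠ 0) (hA : poch A K = 0)
    (hi : poch A i ≠ 0) (hj : poch B j ≠ 0) (hl : poch c l ≠ 0)
    (hi' : poch A i' ≠ 0) (hj' : poch B j' ≠ 0) (hl' : poch c' l' ≠ 0) (hal : al ≠ 0)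
    (hid : ∀ k : ℚ,
      al * (poch (A + k) i' * poch (B + k) j' * poch (c' + k) l') -
      be * (poch (A + k) i * poch (B + k) j * poch (c + k) l) =
      (A + k) * (B + k) * z * P (k + 1) - k * (C + k - 1) * P k)
    (hrho : al * (poch A i' * poch B j' * poch c' l') * rho =
      be * (poch A i * poch B j * poch c l)) :
    hyp a' b' c' z K = rho * hyp a b c z K := by
  subst ha hb hc ha' hb' hc'
  have key := wz' A B C z al be P i j l i' j' l' K hC hA hi hj hl hi' hj' hl' hid
  have hne : al * (poch A i' * poch B j' * poch (C - l') l') ≠ 0 :=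
    mul_ne_zero hal (mul_ne_zero (mul_ne_zero hi' hj') hl')
  apply mul_left_cancel₀ hne
  linear_combination key - hyp (A + i) (B + j) (C - l) z K * hrho

theorem poch_two (a : ℚ) : poch a 2 = a * (a + 1) := by
  simp [poch, prod_range_succ]

theorem poch_ne_zero_neg {a : ℚ} {k : ℕ} (h : a + k < 1) : poch a k ≠ 0 := by
  apply poch_ne_zero
  intro j hj
  have : (j : ℚ) + 1 ≤ k := by exact_mod_cast hj
  have : a + j < 0 := by linarith
  exact this.ne

theorem poch_ne_zero_pos {a : ℚ} (k : ℕ) (h : 0 < a) : poch a k ≠ 0 := by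
  apply poch_ne_zero
  intro j _
  positivity

end Pool.Agent.SC
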